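import Mathlib
import Pool.Agent.H384R2.Fatou
import Pool.Agent.W723.MC.Topo
import Pool.Agent.TH224.SC.Defs

/-! Abstract dynamics of entire functions with a sequence of annuli mapped into each other. -/

set_option autoImplicit false

open Filter Topology Metric Set

namespace Pool.Agent.R237

open Pool.Agent.H384R2.Fatou Pool.Agent.W723.MC Pool.Agent.TH224.SC

/-- An entire function mapping annuli `{s n < |z| < t n}` into each other. -/
structure Ann (f : ℂ → ℂ) (s t : ℕ → ℝ) : Prop where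
  hf : Differentiable ℂ f
  ho : IsOpenMap f
  hf0 : f 0 = 0
  hs1 : ∀ n, 1 < s n
  hst : ∀ n, s n + 1 < t n
  hts : ∀ n, t n + 1 < s (n + 1)
  low : ∀ n z, s n ≤ ‖z‖ → ‖z‖ ≤ t n → s (n + 1) < ‖f z‖
  up : ∀ n z, ‖z‖ ≤ t n → ‖f z‖ < t (n + 1)
  gr : ∀ M : ℕ, ∀ᶠ n in atTop, ∀ z, s n < ‖z‖ → ‖z‖ < t n → ‖z‖ ^ M ≤ ‖f z‖

theorem frontier_comp {O : Set ℂ} (hO : IsOpen O) {x z : ℂ}
    (hz : z ∈ frontier (connectedComponentIn O x)) : z ∉ O := by
  intro hzO
  have hop : IsOpen (connectedComponentIn O x) := hO.connectedComponentIn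
  rw [hop.frontier_eq] at hz
  obtain ⟨w, hw1, hw2⟩ := mem_closure_iff_nhds.1 hz.1 _
    (hO.connectedComponentIn.mem_nhds (mem_connectedComponentIn hzO))
  apply hz.2
  rw [connectedComponentIn_eq hw2, ← connectedComponentIn_eq hw1]
  exact mem_connectedComponentIn hzO

theorem isPreconnected_ann {a b : ℝ} (ha : 0 < a) : IsPreconnected {z : ℂ | a < ‖z‖ ∧ ‖z‖ < b} := by
  have h1 : IsPreconnected ((Ioo a b) ×ˢ (sphere (0 : ℂ) 1)) :=
    isPreconnected_Ioo.prod (isPreconnected_sphere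
      (by rw [Complex.rank_real_complex]; norm_num) 0 1)
  have h2 := h1.image (fun q : ℝ × ℂ => (q.1 : ℂ) * q.2) (by fun_prop)
  convert h2 using 1
  ext z
  simp only [Set.mem_ofPred_eq, Set.mem_image, Set.mem_prod, mem_Ioo, mem_sphere_zero_iff_norm,
    Prod.exists]
  constructor
  · intro hz
    have hz0 : ‖z‖ ≠ 0 := by linarith
    refine ⟨‖z‖, z / ‖z‖, ⟨hz, ?_⟩, ?_⟩
    · rw [norm_div, Complex.norm_real, norm_norm, div_self hz0]
    · have : ((‖z‖ : ℝ) : ℂ) ≠ 0 := by exact_mod_cast hz0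
      field_simp
  · rintro ⟨t, v, ⟨ht, hv⟩, rfl⟩
    rw [norm_mul, hv, mul_one, Complex.norm_real, Real.norm_eq_abs, abs_of_pos (by linarith)]
    exact ht

/-- a preconnected set with a point inside and a point outside meets the circle -/
theorem cross {A : Set ℂ} (hA : IsPreconnected A) {x y : ℂ} (hx : x ∈ A) (hy : y ∈ A) {t : ℝ}
    (h1 : ‖x‖ ≤ t) (h2 : t ≤ ‖y‖) : ∃ z ∈ A, ‖z‖ = t := by
  have := hA.intermediate_value hx hy continuous_norm.continuousOn
  obtain ⟨z, hz, hzt⟩ := this ⟨h1, h2⟩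
  exact ⟨z, hz, hzt⟩

theorem fatou_back_iter {f : ℂ → ℂ} (hf : Continuous f) (i : ℕ) {z : ℂ}
    (hz : f^[i] z ∈ FatouSet f) : z ∈ FatouSet f := by
  induction i with
  | zero => exact hz
  | succ i ih =>
    rw [Function.iterate_succ_apply'] at hz
    exact ih (fatou_backward hf hz)

namespace Ann

variable {f : ℂ → ℂ} {s t : ℕ → ℝ}

theorem s_pos (h : Ann f s t) (n : ℕ) : 0 < s n := zero_lt_one.trans (h.hs1 n)

theorem s_lt_succ (h : Ann f s t) (n : ℕ) : s n + 1 < s (n + 1) := by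
  linarith [h.hst n, h.hts n]

theorem s_mono (h : Ann f s t) : Monotone s :=
  monotone_nat_of_le_succ fun n => by linarith [h.s_lt_succ n]

theorem t_lt_succ (h : Ann f s t) (n : ℕ) : t n < t (n + 1) := by
  linarith [h.hst (n + 1), h.hts n]

theorem s_ge (h : Ann f s t) (n : ℕ) : (n : ℝ) ≤ s n := by
  induction n with
  | zero => simpa using (h.s_pos 0).le
  | succ n ih => push_cast; linarith [h.s_lt_succ n]

theorem s_tendsto (h : Ann f s t) : Tendsto s atTop atTop :=
  tendsto_atTop_mono h.s_ge tendsto_natCast_atTop_atTop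

/-- the invariant annuli -/
def B (s t : ℕ → ℝ) (n : ℕ) : Set ℂ := {z | s n < ‖z‖ ∧ ‖z‖ < t n}

theorem B_open (s t : ℕ → ℝ) (n : ℕ) : IsOpen (B s t n) :=
  (isOpen_lt continuous_const continuous_norm).inter (isOpen_lt continuous_norm continuous_const)

theorem B_pre (h : Ann f s t) (n : ℕ) : IsPreconnected (B s t n) := isPreconnected_ann (h.s_pos n)

theorem B_map (h : Ann f s t) {n : ℕ} {z : ℂ} (hz : z ∈ B s t n) : f z ∈ B s t (n + 1) :=
  ⟨h.low n z hz.1.le hz.2.le, h.up n z hz.2.le⟩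

theorem B_iter (h : Ann f s t) {n : ℕ} {z : ℂ} (hz : z ∈ B s t n) (k : ℕ) :
    f^[k] z ∈ B s t (n + k) := by
  induction k with
  | zero => exact hz
  | succ k ih =>
    rw [Function.iterate_succ_apply']
    exact h.B_map ih

theorem B_esc (h : Ann f s t) (n : ℕ) : EscOn f (B s t n) := by
  intro R
  have h1 : Tendsto (fun k => s (n + k)) atTop atTop :=
    h.s_tendsto.comp (tendsto_add_atTop_nat n |>.congr fun k => add_comm k n)
  filter_upwards [h1.eventually_ge_atTop R] with k hk z hz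
  exact hk.trans (h.B_iter hz k).1.le

theorem B_fatou (h : Ann f s t) (n : ℕ) : B s t n ⊆ FatouSet f :=
  subset_fatou_of_escOn (h.B_esc n) (B_open s t n)

/-- the base point -/
noncomputable def pt (s : ℕ → ℝ) : ℂ := ((s 0 + 1 : ℝ) : ℂ)

theorem pt_B0 (h : Ann f s t) : pt s ∈ B s t 0 := by
  have h1 : ‖pt s‖ = s 0 + 1 := by
    rw [pt, Complex.norm_real, Real.norm_of_nonneg (by linarith [h.s_pos 0])]
  refine ⟨?_, ?_⟩
  · rw [h1]; linarith
  · rw [h1]; exact h.hst 0

theorem pt_B (h : Ann f s t) (n : ℕ) : f^[n] (pt s) ∈ B s t n := by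
  have := h.B_iter h.pt_B0 n
  rwa [zero_add] at this

/-- the Fatou components -/
def U (f : ℂ → ℂ) (s : ℕ → ℝ) (n : ℕ) : Set ℂ := FatouComponent f (f^[n] (pt s))

theorem pt_F (h : Ann f s t) (n : ℕ) : f^[n] (pt s) ∈ FatouSet f := h.B_fatou n (h.pt_B n)

theorem pt_U (h : Ann f s t) (n : ℕ) : f^[n] (pt s) ∈ U f s n :=
  mem_connectedComponentIn (h.pt_F n)

theorem U_open (f : ℂ → ℂ) (s : ℕ → ℝ) (n : ℕ) : IsOpen (U f s n) := component_isOpen _ _

theorem U_pre (f : ℂ → ℂ) (s : ℕ → ℝ) (n : ℕ) : IsPreconnected (U f s n) :=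
  isPreconnected_connectedComponentIn

theorem U_fatou (f : ℂ → ℂ) (s : ℕ → ℝ) (n : ℕ) : U f s n ⊆ FatouSet f :=
  connectedComponentIn_subset _ _

theorem B_U (h : Ann f s t) (n : ℕ) : B s t n ⊆ U f s n :=
  (h.B_pre n).subset_connectedComponentIn (h.pt_B n) (h.B_fatou n)

theorem U_map (h : Ann f s t) (n k : ℕ) : f^[k] '' U f s n ⊆ U f s (n + k) := by
  have h1 := component_map h.hf.continuous h.ho (h.pt_F n) k
  rw [← Function.iterate_add_apply, add_comm k n] at h1
  exact h1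

theorem U_ne_lt (h : Ann f s t) {j k : ℕ} (hjk : j < k) : U f s j ≠ U f s k := by
  intro heq
  have h1 : f^[k] (pt s) ∈ U f s j := by rw [heq]; exact h.pt_U k
  obtain ⟨C, hC, hev⟩ := growth_compare h.hf (h.pt_F j) ((B_open s t j).mem_nhds (h.pt_B j))
    (h.B_esc j) h1
  obtain ⟨M, hM⟩ := exists_nat_gt C
  have hg : ∀ᶠ n in atTop, ∀ z, s (n + j) < ‖z‖ → ‖z‖ < t (n + j) → ‖z‖ ^ M ≤ ‖f z‖ :=
    (tendsto_add_atTop_nat j).eventually (h.gr M)
  obtain ⟨n, ⟨h2, _⟩, h3⟩ := (hev.and hg).exists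
  rw [← Function.iterate_add_apply, ← Function.iterate_add_apply] at h2
  have h4 := h.pt_B (n + j)
  have h5 := h3 _ h4.1 h4.2
  rw [← Function.iterate_succ_apply' (f := f)] at h5
  have h6 : ‖f^[n + j + 1] (pt s)‖ ≤ ‖f^[n + k] (pt s)‖ := by
    rcases Nat.lt_or_ge (n + j + 1) (n + k) with h7 | h7
    · have h8 := (h.pt_B (n + j + 1)).2
      have h9 := (h.pt_B (n + k)).1
      have h10 := h.s_mono (show n + j + 2 ≤ n + k by omega)
      have h11 := h.hts (n + j + 1)
      linarith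
    · have : n + k = n + j + 1 := by omega
      rw [this]
  have hs := h.hs1 (n + j)
  have hy : 1 < ‖f^[n + j] (pt s)‖ := hs.trans h4.1
  have hl : 0 < Real.log ‖f^[n + j] (pt s)‖ := Real.log_pos hy
  have h7 : (M : ℝ) * Real.log ‖f^[n + j] (pt s)‖ ≤ Real.log ‖f^[n + k] (pt s)‖ := by
    rw [← Real.log_pow]
    exact Real.log_le_log (by positivity) (h5.trans h6)
  have h8 : C * Real.log ‖f^[n + j] (pt s)‖ < M * Real.log ‖f^[n + j] (pt s)‖ :=
    mul_lt_mul_of_pos_right hM hl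
  linarith

theorem U_ne (h : Ann f s t) {j k : ℕ} (hjk : j ≠ k) : U f s j ≠ U f s k := by
  rcases lt_or_gt_of_ne hjk with h1 | h1
  · exact h.U_ne_lt h1
  · exact (h.U_ne_lt h1).symm

theorem U_disj (h : Ann f s t) {j k : ℕ} (hjk : j ≠ k) : Disjoint (U f s j) (U f s k) := by
  rw [Set.disjoint_left]
  intro z hz1 hz2
  apply h.U_ne hjk
  exact (connectedComponentIn_eq hz1).trans (connectedComponentIn_eq hz2).symm

theorem wandering (h : Ann f s t) : IsWanderingDomain f (U f s 0) := by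
  refine ⟨U f s, rfl, fun k => ⟨f^[k] (pt s), h.pt_F k, rfl⟩, fun k => ?_, fun j k hjk => h.U_ne hjk⟩
  have := h.U_map 0 k
  rwa [zero_add] at this

theorem U_bdd (h : Ann f s t) (n : ℕ) : ∀ z ∈ U f s n, ‖z‖ < s (n + 1) + 1 := by
  intro z hz
  by_contra hcon
  push Not at hcon
  have h1 := (h.pt_B n).2
  have h2 := h.hts n
  have h3' := h.hst (n + 1)
  obtain ⟨q, hq1, hq2⟩ := exists_between h3'
  rcases le_or_gt q ‖z‖ with hzq | hzq
  · obtain ⟨w, hw, hwt⟩ := cross (U_pre f s n) (h.pt_U n) hz (t := q) (by linarith) hzq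
    have h3 : w ∈ B s t (n + 1) := ⟨by linarith, by rw [hwt]; exact hq2⟩
    have h4 := h.B_U (n + 1) h3
    apply h.U_ne_lt (Nat.lt_succ_self n)
    exact (connectedComponentIn_eq hw).trans (connectedComponentIn_eq h4).symm
  · have h3 : z ∈ B s t (n + 1) := ⟨by linarith, by linarith⟩
    have h4 := h.B_U (n + 1) h3
    apply h.U_ne_lt (Nat.lt_succ_self n)
    exact (connectedComponentIn_eq hz).trans (connectedComponentIn_eq h4).symm

theorem U_surj (h : Ann f s t) (n : ℕ) : f '' U f s n = U f s (n + 1) := by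
  have h0 : f '' U f s n ⊆ U f s (n + 1) := h.U_map n 1
  apply h0.antisymm
  have hcpt : IsCompact (closure (U f s n)) := by
    apply Bornology.IsBounded.isCompact_closure
    apply (isBounded_ball (x := (0 : ℂ)) (r := s (n + 1) + 1)).subset
    intro z hz
    rw [mem_ball_zero_iff]
    exact h.U_bdd n z hz
  apply (U_pre f s (n + 1)).subset_of_closure_inter_subset (h.ho _ (U_open f s n))
  · refine ⟨f (f^[n] (pt s)), ?_, ⟨_, h.pt_U n, rfl⟩⟩
    exact h0 ⟨_, h.pt_U n, rfl⟩
  · rintro w ⟨hw1, hw2⟩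
    have h1 : closure (f '' U f s n) ⊆ f '' closure (U f s n) :=
      closure_minimal (image_mono subset_closure) (hcpt.image h.hf.continuous).isClosed
    obtain ⟨z, hz, rfl⟩ := h1 hw1
    refine ⟨z, ?_, rfl⟩
    have hzF : z ∈ FatouSet f := fatou_backward h.hf.continuous (U_fatou f s _ hw2)
    obtain ⟨v, hv1, hv2⟩ := mem_closure_iff_nhds.1 hz _
      ((component_isOpen f z).mem_nhds (mem_connectedComponentIn hzF))
    have e1 : U f s n = FatouComponent f v := connectedComponentIn_eq hv2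
    have e2 : FatouComponent f z = FatouComponent f v := connectedComponentIn_eq hv1
    rw [e1, ← e2]
    exact mem_connectedComponentIn hzF

theorem U_iter (h : Ann f s t) (n : ℕ) : f^[n] '' U f s 0 = U f s n := by
  induction n with
  | zero => simp
  | succ n ih =>
    rw [Function.iterate_succ', image_comp, ih, h.U_surj]

theorem ball_iter (h : Ann f s t) {n : ℕ} {z : ℂ} (hz : ‖z‖ < t n) (i : ℕ) :
    ‖f^[i] z‖ < t (n + i) := by
  induction i with
  | zero => exact hz
  | succ i ih =>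
    rw [Function.iterate_succ_apply']
    exact h.up _ _ ih.le

theorem r_claim (h : Ann f s t) {n : ℕ} {z : ℂ} (hz : ‖z‖ < t n) {i : ℕ}
    (hi : s (n + i) < ‖f^[i] z‖) : z ∈ U f s n := by
  set Q : Set ℂ := {w | ‖w‖ < t n ∧ s (n + i) < ‖f^[i] w‖} with hQ
  have hci : Continuous f^[i] := h.hf.continuous.iterate i
  have hQo : IsOpen Q := (isOpen_lt continuous_norm continuous_const).inter
    (isOpen_lt continuous_const hci.norm)
  have hQF : Q ⊆ FatouSet f := by
    intro w hw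
    apply fatou_back_iter h.hf.continuous i
    exact h.B_fatou (n + i) ⟨hw.2, h.ball_iter hw.1 i⟩
  set C := connectedComponentIn Q z with hC
  have hzQ : z ∈ Q := ⟨hz, hi⟩
  have hzC : z ∈ C := mem_connectedComponentIn hzQ
  have hCQ : C ⊆ Q := connectedComponentIn_subset _ _
  have hCp : IsPreconnected C := isPreconnected_connectedComponentIn
  have hmeet : (C ∩ B s t n).Nonempty := by
    by_contra hcon
    rw [Set.not_nonempty_iff_eq_empty] at hcon
    have hsub : C ⊆ closedBall 0 (s n) := by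
      intro w hw
      rw [mem_closedBall_zero_iff]
      by_contra h1
      push Not at h1
      have : w ∈ C ∩ B s t n := ⟨hw, h1, (hCQ hw).1⟩
      rw [hcon] at this
      exact this
    have hCb : Bornology.IsBounded C := isBounded_closedBall.subset hsub
    have hmax : ‖f^[i] z‖ ≤ s (n + i) := by
      apply Complex.norm_le_of_forall_mem_frontier_norm_le hCb
        ((h.hf.iterate i).diffContOnCl) _ (subset_closure hzC)
      intro w hw
      have h1 := frontier_comp hQo hw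
      have h2 : w ∈ closedBall (0 : ℂ) (s n) :=
        closure_minimal hsub isClosed_closedBall (frontier_subset_closure hw)
      rw [mem_closedBall_zero_iff] at h2
      by_contra h3
      push Not at h3
      exact h1 ⟨by linarith [h.hst n], h3⟩
    linarith
  obtain ⟨w, hw1, hw2⟩ := hmeet
  have h1 : IsPreconnected (C ∪ B s t n) := IsPreconnected.union w hw1 hw2 hCp (h.B_pre n)
  exact h1.subset_connectedComponentIn (Or.inr (h.pt_B n))
    (union_subset (hCQ.trans hQF) (h.B_fatou n)) (Or.inl hzC)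

theorem not_U (h : Ann f s t) {n : ℕ} {z : ℂ} (hz : z ∉ U f s n) (hzr : ‖z‖ < t n) (i : ℕ) :
    ‖f^[i] z‖ ≤ s (n + i) := by
  by_contra hcon
  push Not at hcon
  exact hz (h.r_claim hzr hcon)

theorem iter_zero (h : Ann f s t) (k : ℕ) : f^[k] 0 = 0 := by
  induction k with
  | zero => rfl
  | succ k ih => rw [Function.iterate_succ_apply', ih, h.hf0]

/-- points of the components escape -/
theorem U_esc (h : Ann f s t) {n : ℕ} {z : ℂ} (hz : z ∈ U f s n) :
    Tendsto (fun k => ‖f^[k] z‖) atTop atTop := by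
  obtain ⟨r, hr, -, hE⟩ := esc_near (h.pt_F n) ((B_open s t n).mem_nhds (h.pt_B n)) (h.B_esc n) hz
  rw [Filter.tendsto_atTop]
  intro R
  filter_upwards [hE R] with k hk
  exact hk z (mem_ball_self hr)

theorem not_U_of_hits (h : Ann f s t) {n j : ℕ} {z : ℂ} (hz : f^[j] z = 0) : z ∉ U f s n := by
  intro hzU
  obtain ⟨k, hk, hkj⟩ := (((h.U_esc hzU).eventually_gt_atTop 0).and (eventually_ge_atTop j)).exists
  obtain ⟨l, rfl⟩ := Nat.exists_eq_add_of_le hkj
  have h1 : f^[j + l] z = 0 := by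
    rw [add_comm, Function.iterate_add_apply, hz, h.iter_zero]
  rw [h1, norm_zero] at hk
  exact lt_irrefl _ hk

/-- In the sphere, a component of the complement of `U n` that contains a point of modulus at most
`s n` stays in the closed disc of radius `s n`. -/
theorem comp_in_disc (h : Ann f s t) (n : ℕ) {x : ℂ} (hx : ‖x‖ ≤ s n)
    (hxA : (x : OnePoint ℂ) ∈ (((↑) : ℂ → OnePoint ℂ) '' U f s n)ᶜ) :
    connectedComponentIn (((↑) : ℂ → OnePoint ℂ) '' U f s n)ᶜ (x : OnePoint ℂ) ⊆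
      ((↑) : ℂ → OnePoint ℂ) '' closedBall 0 (s n) := by
  set A : Set (OnePoint ℂ) := ((↑) : ℂ → OnePoint ℂ) '' U f s n with hA
  set C := connectedComponentIn Aᶜ (x : OnePoint ℂ) with hC
  have hCp : IsPreconnected C := isPreconnected_connectedComponentIn
  have hCA : C ⊆ Aᶜ := connectedComponentIn_subset _ _
  have hxjC : (x : OnePoint ℂ) ∈ C := mem_connectedComponentIn hxA
  set D0 : Set (OnePoint ℂ) := ((↑) : ℂ → OnePoint ℂ) '' closedBall 0 (s n) with hD0
  set D1 : Set (OnePoint ℂ) := (((↑) : ℂ → OnePoint ℂ) '' ball 0 (t n))ᶜ with hD1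
  have hD0c : IsClosed D0 :=
    ((isCompact_closedBall (0 : ℂ) (s n)).image OnePoint.continuous_coe).isClosed
  have hD1c : IsClosed D1 :=
    (OnePoint.isOpenEmbedding_coe.isOpenMap _ isOpen_ball).isClosed_compl
  have hcov : C ⊆ D0 ∪ D1 := by
    intro w hw
    by_cases hw1 : w ∈ D1
    · exact Or.inr hw1
    · left
      have hw2 : w ∈ ((↑) : ℂ → OnePoint ℂ) '' ball 0 (t n) := by
        by_contra h3
        exact hw1 h3
      obtain ⟨z, hz, rfl⟩ := hw2
      refine ⟨z, ?_, rfl⟩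
      rw [mem_closedBall_zero_iff]
      by_contra h3
      push Not at h3
      rw [mem_ball_zero_iff] at hz
      exact hCA hw ⟨z, h.B_U n ⟨h3, hz⟩, rfl⟩
  have hdisj : Disjoint D0 D1 := by
    rw [Set.disjoint_left]
    rintro _ ⟨z, hz, rfl⟩ h3
    apply h3
    refine ⟨z, ?_, rfl⟩
    rw [mem_closedBall_zero_iff] at hz
    rw [mem_ball_zero_iff]
    linarith [h.hst n]
  have h3 := isPreconnected_closed_iff.1 hCp D0 D1 hD0c hD1c hcov
    ⟨_, hxjC, ⟨x, by rw [mem_closedBall_zero_iff]; exact hx, rfl⟩⟩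
  intro w hw
  rcases hcov hw with h4 | h4
  · exact h4
  · obtain ⟨v, -, hv1, hv2⟩ := h3 ⟨w, hw, h4⟩
    exact absurd hv2 (Set.disjoint_left.1 hdisj hv1)

/-- marked orbits -/
theorem marked (h : Ann f s t) {Λ : ℕ → Bool → Set ℂ}
    (hL : ∀ n b y, ‖y‖ ≤ s (n + 1) → ∃ w ∈ Λ n b, ‖w‖ ≤ s n ∧ f w = y) (j : ℕ) :
    ∀ n, ∃ x : ℂ, ‖x‖ ≤ s n ∧ (∀ i < j, f^[i] x ∈ Λ (n + i) false) ∧ f^[j] x ∈ Λ (n + j) true ∧
      f^[j + 1] x = 0 := by
  induction j with
  | zero =>
    intro n
    obtain ⟨w, hw, hws, hw0⟩ := hL n true 0 (by rw [norm_zero]; exact (h.s_pos _).le)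
    exact ⟨w, hws, fun i hi => absurd hi (Nat.not_lt_zero i), hw, hw0⟩
  | succ j ih =>
    intro n
    obtain ⟨x', hx's, hx'1, hx'2, hx'3⟩ := ih (n + 1)
    obtain ⟨w, hw, hws, hwx⟩ := hL n false x' hx's
    refine ⟨w, hws, ?_, ?_, ?_⟩
    · intro i hi
      rcases i with _ | i
      · exact hw
      · rw [Function.iterate_succ_apply, hwx]
        have := hx'1 i (by omega)
        have e : n + 1 + i = n + (i + 1) := by omega
        rwa [e] at this
    · rw [Function.iterate_succ_apply, hwx]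
      have e : n + 1 + j = n + (j + 1) := by omega
      rwa [e] at hx'2
    · rw [Function.iterate_succ_apply, hwx]
      exact hx'3

/-- infinitely many complementary components -/
theorem holes (h : Ann f s t) (n : ℕ) {Λ : ℕ → Bool → Set ℂ} (hΛc : ∀ n b, IsClosed (Λ n b))
    (hΛd : ∀ n, Disjoint (Λ n false) (Λ n true))
    (hΛ : ∀ n z, ‖z‖ ≤ s n → ‖f z‖ ≤ s (n + 1) → ∃ b, z ∈ Λ n b)
    (hΛo : ∀ n b y, ‖y‖ ≤ s (n + 1) → ∃ w ∈ Λ n b, ‖w‖ ≤ s n ∧ f w = y) :
    (SphereHoles (U f s n)).Infinite := by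
  have hmk := fun j => h.marked hΛo j n
  choose x hx1 hx2 hx3 hx4 using hmk
  set A : Set (OnePoint ℂ) := ((↑) : ℂ → OnePoint ℂ) '' (U f s n) with hA
  have hxA : ∀ j, ((x j : ℂ) : OnePoint ℂ) ∈ Aᶜ := by
    rintro j ⟨z, hz, hzx⟩
    have : z = x j := OnePoint.coe_injective hzx
    rw [this] at hz
    exact h.not_U_of_hits (hx4 j) hz
  -- separation
  have hsep : ∀ j k, j < k → ((x k : ℂ) : OnePoint ℂ) ∉ connectedComponentIn Aᶜ (x j : OnePoint ℂ) := by
    intro j k hjk hmem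
    set C := connectedComponentIn Aᶜ (x j : OnePoint ℂ) with hC
    have hCp : IsPreconnected C := isPreconnected_connectedComponentIn
    have hCA : C ⊆ Aᶜ := connectedComponentIn_subset _ _
    have hxjC : ((x j : ℂ) : OnePoint ℂ) ∈ C := mem_connectedComponentIn (hxA j)
    have hCD0 := h.comp_in_disc n (hx1 j) (hxA j)
    -- back to the plane
    set P : Set ℂ := ((↑) : ℂ → OnePoint ℂ) ⁻¹' C with hP
    have hPC : ((↑) : ℂ → OnePoint ℂ) '' P = C := by
      rw [hP, image_preimage_eq_inter_range]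
      apply inter_eq_left.2
      intro w hw
      obtain ⟨z, -, rfl⟩ := hCD0 hw
      exact ⟨z, rfl⟩
    have hPp : IsPreconnected P := by
      rw [← OnePoint.isOpenEmbedding_coe.isInducing.isPreconnected_image, hPC]
      exact hCp
    have hPs : ∀ z ∈ P, ∀ i, ‖f^[i] z‖ ≤ s (n + i) := by
      intro z hz i
      obtain ⟨w, hw, hwz⟩ := hCD0 hz
      have : w = z := OnePoint.coe_injective hwz
      rw [this, mem_closedBall_zero_iff] at hw
      apply h.not_U _ (by linarith [h.hst n])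
      intro hzU
      apply hCA hz
      exact ⟨z, hzU, rfl⟩
    have hI : IsPreconnected (f^[j] '' P) :=
      hPp.image _ (h.hf.continuous.iterate j).continuousOn
    have hIcov : f^[j] '' P ⊆ Λ (n + j) false ∪ Λ (n + j) true := by
      rintro _ ⟨z, hz, rfl⟩
      have h3 := hPs z hz j
      have h4 := hPs z hz (j + 1)
      rw [Function.iterate_succ_apply'] at h4
      obtain ⟨b, hb⟩ := hΛ (n + j) _ h3 h4
      cases b
      · exact Or.inl hb
      · exact Or.inr hb
    obtain ⟨v, -, hv1, hv2⟩ := isPreconnected_closed_iff.1 hI _ _ (hΛc _ false) (hΛc _ true) hIcov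
      ⟨f^[j] (x k), ⟨x k, hmem, rfl⟩, hx2 k j hjk⟩ ⟨f^[j] (x j), ⟨x j, hxjC, rfl⟩, hx3 j⟩
    exact Set.disjoint_left.1 (hΛd (n + j)) hv1 hv2
  apply Set.infinite_of_injective_forall_mem
    (f := fun j : ℕ => connectedComponentIn Aᶜ ((x j : ℂ) : OnePoint ℂ))
  · intro j k hjk
    have hjk : connectedComponentIn Aᶜ ((x j : ℂ) : OnePoint ℂ) =
      connectedComponentIn Aᶜ ((x k : ℂ) : OnePoint ℂ) := hjk
    by_contra hne
    rcases lt_or_gt_of_ne hne with h3 | h3
    · apply hsep j k h3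
      rw [hjk]
      exact mem_connectedComponentIn (hxA k)
    · apply hsep k j h3
      rw [← hjk]
      exact mem_connectedComponentIn (hxA j)
  · intro j
    exact ⟨_, hxA j, rfl⟩

end Ann

end Pool.Agent.R237
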