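import Mathlib

/-! The entire function `z ∏ (1 + z / R j)` and its critical points. -/

set_option autoImplicit false

open Filter Topology Metric Set

namespace Pool.Agent.R237.Prod

/-- the canonical product with zeros `-R j` -/
noncomputable def G (R : ℕ → ℝ) (z : ℂ) : ℂ := ∏' j, (1 + z / (R j : ℂ))

/-- hypotheses on the sequence -/
structure Seq (R : ℕ → ℝ) : Prop where
  pos : ∀ j, 0 < R j
  four : ∀ j, 4 * R j ≤ R (j + 1)

variable {R : ℕ → ℝ}

namespace Seq

theorem pow_le (h : Seq R) (n k : ℕ) : 4 ^ k * R n ≤ R (n + k) := by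
  induction k with
  | zero => simp
  | succ k ih =>
    have := h.four (n + k)
    rw [pow_succ, ← add_assoc]
    linarith

theorem mono (h : Seq R) : StrictMono R :=
  strictMono_nat_of_lt_succ fun n => by linarith [h.four n, h.pos n]

theorem tendsto (h : Seq R) : Tendsto R atTop atTop := by
  have h1 : Tendsto (fun k : ℕ => (4 : ℝ) ^ k * R 0) atTop atTop :=
    (tendsto_pow_atTop_atTop_of_one_lt (by norm_num)).atTop_mul_const (h.pos 0)
  refine tendsto_atTop_mono (fun k => ?_) h1
  have := h.pow_le 0 k
  rwa [zero_add] at this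

theorem summ_inv (h : Seq R) : Summable fun j => (R j)⁻¹ := by
  have h1 : Summable fun j : ℕ => (R 0)⁻¹ * (1 / 4 : ℝ) ^ j :=
    (summable_geometric_of_lt_one (by norm_num) (by norm_num)).mul_left _
  refine Summable.of_nonneg_of_le (fun j => inv_nonneg.2 (h.pos j).le) (fun j => ?_) h1
  have h2 := h.pow_le 0 j
  rw [zero_add] at h2
  have h3 := h.pos 0
  calc (R j)⁻¹ ≤ (4 ^ j * R 0)⁻¹ := inv_anti₀ (by positivity) h2
    _ = _ := by rw [mul_inv, one_div, inv_pow]; ring

theorem summ (h : Seq R) (z : ℂ) : Summable fun j => ‖z / (R j : ℂ)‖ := by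
  have h1 : (fun j => ‖z / (R j : ℂ)‖) = fun j => ‖z‖ * (R j)⁻¹ := by
    funext j
    rw [norm_div, Complex.norm_real, Real.norm_of_nonneg (h.pos j).le, div_eq_mul_inv]
  rw [h1]
  exact h.summ_inv.mul_left _

theorem hasProd (h : Seq R) (z : ℂ) : HasProd (fun j => 1 + z / (R j : ℂ)) (G R z) :=
  (multipliable_one_add_of_summable (h.summ z)).hasProd

theorem locUnif (h : Seq R) (r : ℝ) :
    HasProdLocallyUniformlyOn (fun j (z : ℂ) => 1 + z / (R j : ℂ)) (G R) (ball 0 r) := by
  have hu : Summable fun j => r * (R j)⁻¹ := h.summ_inv.mul_left _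
  refine hu.hasProdLocallyUniformlyOn_nat_one_add isOpen_ball (Eventually.of_forall fun j z hz => ?_)
    (fun j => by fun_prop)
  rw [mem_ball_zero_iff] at hz
  rw [norm_div, Complex.norm_real, Real.norm_of_nonneg (h.pos j).le, div_eq_mul_inv]
  exact mul_le_mul_of_nonneg_right hz.le (inv_nonneg.2 (h.pos j).le)

theorem diff (h : Seq R) : Differentiable ℂ (G R) := by
  intro z
  have h1 : DifferentiableOn ℂ (G R) (ball 0 (‖z‖ + 1)) := by
    refine (h.locUnif (‖z‖ + 1)).differentiableOn (Eventually.of_forall fun s => ?_) isOpen_ball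
    simpa [Finset.prod_fn] using
      DifferentiableOn.finsetProd (fun _ _ => by fun_prop)
  exact h1.differentiableAt (isOpen_ball.mem_nhds (by simp))

theorem tendsto_prod (h : Seq R) (z : ℂ) :
    Tendsto (fun N => ∏ j ∈ Finset.range N, (1 + z / (R j : ℂ))) atTop (𝓝 (G R z)) :=
  (h.hasProd z).tendsto_prod_nat

theorem upper (h : Seq R) {z : ℂ} {B : ℝ} (hB : ∀ᶠ N in atTop, ∏ j ∈ Finset.range N, (1 + ‖z‖ / R j) ≤ B) :
    ‖G R z‖ ≤ B := by
  refine le_of_tendsto (h.tendsto_prod z).norm ?_
  filter_upwards [hB] with N hN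
  refine le_trans ?_ hN
  rw [norm_prod]
  refine Finset.prod_le_prod (fun _ _ => norm_nonneg _) fun j _ => ?_
  calc ‖1 + z / (R j : ℂ)‖ ≤ ‖(1 : ℂ)‖ + ‖z / (R j : ℂ)‖ := norm_add_le _ _
    _ = _ := by rw [norm_one, norm_div, Complex.norm_real, Real.norm_of_nonneg (h.pos j).le]

theorem lower (h : Seq R) {z : ℂ} {B : ℝ}
    (hB : ∀ᶠ N in atTop, B ≤ ∏ j ∈ Finset.range N, ‖1 + z / (R j : ℂ)‖) : B ≤ ‖G R z‖ := by
  refine ge_of_tendsto (h.tendsto_prod z).norm ?_
  filter_upwards [hB] with N hN
  rwa [norm_prod]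

theorem ne_zero_of (h : Seq R) {z : ℂ} (hz : ∀ j, z ≠ -(R j : ℂ)) : G R z ≠ 0 := by
  refine tprod_one_add_ne_zero_of_summable (fun j h0 => hz j ?_) (h.summ z)
  have hR : (R j : ℂ) ≠ 0 := by exact_mod_cast (h.pos j).ne'
  have h1 : (R j : ℂ) + z = 0 := by
    have := congrArg (fun x => (R j : ℂ) * x) h0
    simp only [mul_zero, mul_add, mul_one] at this
    rw [mul_div_cancel₀ _ hR] at this
    exact this
  linear_combination h1

theorem factor (h : Seq R) (m : ℕ) (z : ℂ) :
    G R z = (1 + z / (R m : ℂ)) * ∏' j, (if j = m then 1 else 1 + z / (R j : ℂ)) := by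
  classical
  refine Multipliable.tprod_eq_mul_tprod_ite' m ?_
  have h1 : Function.update (fun j => 1 + z / (R j : ℂ)) m 1 =
      fun j => 1 + (if j = m then 0 else z / (R j : ℂ)) := by
    funext j
    by_cases hj : j = m
    · subst hj; simp
    · simp [hj]
  rw [h1]
  refine multipliable_one_add_of_summable (Summable.of_nonneg_of_le (fun _ => norm_nonneg _)
    (fun j => ?_) (h.summ z))
  split_ifs
  · rw [norm_zero]; exact norm_nonneg _
  · exact le_rfl

theorem zero_at (h : Seq R) (m : ℕ) : G R (-(R m : ℂ)) = 0 := by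
  have hR : (R m : ℂ) ≠ 0 := by exact_mod_cast (h.pos m).ne'
  rw [h.factor m, neg_div, div_self hR, add_neg_cancel, zero_mul]

theorem deriv_at (h : Seq R) (m : ℕ) : deriv (G R) (-(R m : ℂ)) ≠ 0 := by
  classical
  have hR : (R m : ℂ) ≠ 0 := by exact_mod_cast (h.pos m).ne'
  set a : ℂ := -(R m : ℂ) with ha
  set H : ℂ → ℂ := fun z => ∏' j, (if j = m then 1 else 1 + z / (R j : ℂ)) with hH
  have hG : ∀ z, G R z = (1 + z / (R m : ℂ)) * H z := h.factor m
  have hH0 : H a ≠ 0 := by
    have e : H a = ∏' j, (1 + (if j = m then 0 else a / (R j : ℂ))) := by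
      simp only [hH]
      congr 1
      funext j
      split_ifs <;> simp
    rw [e]
    refine tprod_one_add_ne_zero_of_summable (fun j => ?_) ?_
    · split_ifs with hj
      · simp
      · have hRj : (R j : ℂ) ≠ 0 := by exact_mod_cast (h.pos j).ne'
        intro h0
        have h1 : (R j : ℂ) + a = 0 := by
          have := congrArg (fun x => (R j : ℂ) * x) h0
          simp only [mul_zero, mul_add, mul_one] at this
          rw [mul_div_cancel₀ _ hRj] at this
          exact this
        rw [ha] at h1
        have h2 : (R j : ℂ) = R m := by linear_combination h1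
        have h3 : R j = R m := by exact_mod_cast h2
        exact hj (h.mono.injective h3)
    · refine Summable.of_nonneg_of_le (fun _ => norm_nonneg _) (fun j => ?_) (h.summ a)
      split_ifs
      · rw [norm_zero]; exact norm_nonneg _
      · exact le_rfl
  -- the slope
  have hd : HasDerivAt (G R) (deriv (G R) a) a := (h.diff a).hasDerivAt
  rw [hasDerivAt_iff_tendsto_slope] at hd
  have hGa : G R a = 0 := h.zero_at m
  have hsl : ∀ z, z ≠ a → slope (G R) a z = H z / (R m : ℂ) := by
    intro z hz
    rw [slope_def_field, hGa, hG z, sub_zero]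
    have hza : z - a ≠ 0 := sub_ne_zero.2 hz
    rw [div_eq_div_iff hza hR, ha]
    field_simp
    ring
  -- H is continuous at a along punctured neighbourhoods since it is a quotient limit
  have hlim : Tendsto (fun z => H z / (R m : ℂ)) (𝓝[≠] a) (𝓝 (deriv (G R) a)) := by
    refine hd.congr' ?_
    filter_upwards [self_mem_nhdsWithin] with z hz
    exact hsl z hz
  have hHc : ContinuousAt H a := by
    have hS : Summable fun j => (‖a‖ + 1) * (R j)⁻¹ := h.summ_inv.mul_left _
    have h1 : HasProdLocallyUniformlyOn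
        (fun j (z : ℂ) => 1 + (if j = m then 0 else z / (R j : ℂ)))
        (fun z => ∏' j, (1 + (if j = m then 0 else z / (R j : ℂ)))) (ball 0 (‖a‖ + 1)) := by
      refine hS.hasProdLocallyUniformlyOn_nat_one_add isOpen_ball
        (Eventually.of_forall fun j z hz => ?_) (fun j => ?_)
      · rw [mem_ball_zero_iff] at hz
        split_ifs
        · rw [norm_zero]
          have := h.pos j
          positivity
        · rw [norm_div, Complex.norm_real, Real.norm_of_nonneg (h.pos j).le, div_eq_mul_inv]
          exact mul_le_mul_of_nonneg_right hz.le (inv_nonneg.2 (h.pos j).le)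
      · split_ifs <;> fun_prop
    have h2 : DifferentiableOn ℂ (fun z => ∏' j, (1 + (if j = m then 0 else z / (R j : ℂ))))
        (ball 0 (‖a‖ + 1)) := by
      refine h1.differentiableOn (Eventually.of_forall fun s => ?_) isOpen_ball
      have h3 : DifferentiableOn ℂ (∏ j ∈ s, fun z : ℂ => 1 + (if j = m then 0 else z / (R j : ℂ)))
          (ball 0 (‖a‖ + 1)) := by
        refine DifferentiableOn.finsetProd fun j _ => ?_
        split_ifs <;> fun_prop
      simpa [Finset.prod_fn] using h3
    have e : H = fun z => ∏' j, (1 + (if j = m then 0 else z / (R j : ℂ))) := by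
      funext z
      simp only [hH]
      congr 1
      funext j
      split_ifs <;> simp
    rw [e]
    exact (h2.differentiableAt (isOpen_ball.mem_nhds (by simp))).continuousAt
  have hlim2 : Tendsto (fun z => H z / (R m : ℂ)) (𝓝[≠] a) (𝓝 (H a / (R m : ℂ))) :=
    (hHc.tendsto.mono_left nhdsWithin_le_nhds).div_const _
  rw [tendsto_nhds_unique hlim hlim2]
  exact div_ne_zero hH0 hR

theorem ld_term (h : Seq R) {z : ℂ} (j : ℕ) :
    logDeriv (fun w : ℂ => 1 + w / (R j : ℂ)) z = 1 / (z + R j) := by
  have hR : (R j : ℂ) ≠ 0 := by exact_mod_cast (h.pos j).ne'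
  rw [logDeriv_apply]
  have h1 : deriv (fun w : ℂ => 1 + w / (R j : ℂ)) z = 1 / (R j : ℂ) := by
    have : HasDerivAt (fun w : ℂ => 1 + w / (R j : ℂ)) (1 / (R j : ℂ)) z :=
      ((hasDerivAt_id' z).div_const _).const_add _
    exact this.deriv
  rw [h1, div_div, mul_add, mul_one, mul_div_cancel₀ _ hR, add_comm]

theorem logDeriv_eq (h : Seq R) {z : ℂ} (hz : ∀ j, z ≠ -(R j : ℂ)) :
    HasSum (fun j => 1 / (z + (R j : ℂ))) (deriv (G R) z / G R z) := by
  have hz' : ∀ j, z + (R j : ℂ) ≠ 0 := fun j h0 => hz j (by linear_combination h0)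
  have hsum : Summable fun j => 1 / (z + (R j : ℂ)) := by
    have h1 : Summable fun j => 2 * (R j)⁻¹ := h.summ_inv.mul_left _
    refine Summable.of_norm_bounded_eventually_nat h1 ?_
    filter_upwards [h.tendsto.eventually_ge_atTop (2 * ‖z‖)] with j hj
    have hRj := h.pos j
    have h2 : R j / 2 ≤ ‖z + (R j : ℂ)‖ := by
      have h3 := norm_sub_norm_le (R j : ℂ) (-z)
      rw [norm_neg, Complex.norm_real, Real.norm_of_nonneg hRj.le, sub_neg_eq_add, add_comm (R j : ℂ) z] at h3
      linarith
    rw [norm_div, norm_one]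
    calc 1 / ‖z + (R j : ℂ)‖ ≤ 1 / (R j / 2) := one_div_le_one_div_of_le (by positivity) h2
      _ = 2 * (R j)⁻¹ := by field_simp
  have h4 := logDeriv_tprod_eq_tsum (s := ball (0 : ℂ) (‖z‖ + 1)) isOpen_ball (x := z) (by simp)
    (f := fun j (w : ℂ) => 1 + w / (R j : ℂ)) (fun j h0 => by
      apply hz' j
      have hR : (R j : ℂ) ≠ 0 := by exact_mod_cast (h.pos j).ne'
      have := congrArg (fun x => (R j : ℂ) * x) h0
      simp only [mul_zero, mul_add, mul_one] at this
      rw [mul_div_cancel₀ _ hR] at this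
      rw [add_comm]; exact this) (fun j => by fun_prop)
    (by simp_rw [h.ld_term]; exact hsum) ⟨_, h.locUnif _⟩ (h.ne_zero_of hz)
  simp_rw [h.ld_term] at h4
  have h5 : deriv (G R) z / G R z = ∑' j, 1 / (z + (R j : ℂ)) := by
    rw [← h4]
    rfl
  rw [h5]
  exact hsum.hasSum

/-- location of the critical points of `z G z` -/
theorem critical (h : Seq R) {f : ℂ → ℂ} {l : ℂ} (hl : l ≠ 0) (hf : ∀ z, f z = l * z * G R z) {c : ℂ}
    (hc : deriv f c = 0) :
    ∃ (n : ℕ) (x : ℝ), c = -(x : ℂ) ∧ R n / 4 ≤ x ∧ x < R n ∧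
      1 / (2 * (n + 2)) * R n ≤ R n - x := by
  have hfe : f = fun z => l * z * G R z := funext hf
  have hd : HasDerivAt f (l * G R c + l * c * deriv (G R) c) c := by
    rw [hfe]
    have h1 : HasDerivAt (fun z : ℂ => l * z) l c := by
      simpa using (hasDerivAt_id' c).const_mul l
    exact h1.mul (h.diff c).hasDerivAt
  rw [hd.deriv] at hc
  have hc' : G R c + c * deriv (G R) c = 0 := by
    have : l * (G R c + c * deriv (G R) c) = 0 := by linear_combination hc
    exact (mul_eq_zero.1 this).resolve_left hl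
  -- c is not a zero
  have hc0 : c ≠ 0 := by
    rintro rfl
    rw [zero_mul, add_zero] at hc'
    refine h.ne_zero_of (fun j h0 => ?_) hc'
    have h1 : (R j : ℂ) = 0 := by linear_combination h0
    have := (h.pos j).ne'
    exact this (by exact_mod_cast h1)
  have hcR : ∀ j, c ≠ -(R j : ℂ) := by
    intro j hj
    have h1 : G R c = 0 := by rw [hj]; exact h.zero_at j
    rw [h1, zero_add] at hc'
    rcases mul_eq_zero.1 hc' with h2 | h2
    · exact hc0 h2
    · rw [hj] at h2
      exact h.deriv_at j h2
  have hG : G R c ≠ 0 := h.ne_zero_of hcR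
  have hsum := h.logDeriv_eq hcR
  have e1 : deriv (G R) c / G R c = -1 / c := by
    rw [div_eq_div_iff hG hc0]
    linear_combination hc'
  rw [e1] at hsum
  -- c is real
  have him : c.im = 0 := by
    have h1 := (Complex.hasSum_iff _ _).1 hsum |>.2
    have h2 : ∀ j, (1 / (c + (R j : ℂ))).im = -c.im / Complex.normSq (c + (R j : ℂ)) := by
      intro j
      rw [one_div, Complex.inv_im]
      simp
    have h3 : (-1 / c).im = c.im / Complex.normSq c := by
      rw [neg_div, one_div, Complex.neg_im, Complex.inv_im]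
      ring
    rw [h3] at h1
    simp_rw [h2] at h1
    have hn : 0 < Complex.normSq c := Complex.normSq_pos.2 hc0
    rcases lt_trichotomy c.im 0 with h4 | h4 | h4
    · have h5 : 0 ≤ c.im / Complex.normSq c := h1.nonneg fun j => by
        exact div_nonneg (by linarith) (Complex.normSq_nonneg _)
      have h6 : c.im / Complex.normSq c < 0 := div_neg_of_neg_of_pos h4 hn
      linarith
    · exact h4
    · have h5 : c.im / Complex.normSq c ≤ 0 := h1.nonpos fun j => by
        exact div_nonpos_of_nonpos_of_nonneg (by linarith) (Complex.normSq_nonneg _)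
      have h6 : 0 < c.im / Complex.normSq c := div_pos h4 hn
      linarith
  obtain ⟨x, hx⟩ : ∃ x : ℝ, c = -(x : ℂ) := by
    refine ⟨-c.re, ?_⟩
    apply Complex.ext
    · simp
    · simp [him]
  have hx0 : x ≠ 0 := by
    rintro rfl
    apply hc0
    rw [hx]; simp
  have hxR : ∀ j, x ≠ R j := fun j hj => hcR j (by rw [hx, hj])
  -- the real series
  have hsr : HasSum (fun j => 1 / (R j - x)) (1 / x) := by
    have h1 := (Complex.hasSum_iff _ _).1 hsum |>.1
    have h2 : ∀ j, (1 / (c + (R j : ℂ))).re = 1 / (R j - x) := by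
      intro j
      have : (1 / (c + (R j : ℂ))) = ((1 / (R j - x) : ℝ) : ℂ) := by
        rw [hx]
        push_cast
        ring
      rw [this, Complex.ofReal_re]
    have h3 : (-1 / c).re = 1 / x := by
      have : (-1 / c) = ((1 / x : ℝ) : ℂ) := by
        rw [hx]
        push_cast
        rw [neg_div_neg_eq]
      rw [this, Complex.ofReal_re]
    rw [h3] at h1
    simp_rw [h2] at h1
    exact h1
  have hxpos : 0 < x := by
    rcases lt_or_gt_of_ne hx0 with h1 | h1
    · exfalso
      have h2 : 0 ≤ 1 / x := hsr.nonneg fun j => by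
        have := h.pos j
        exact div_nonneg zero_le_one (by linarith)
      have h3 : 1 / x < 0 := one_div_neg.2 h1
      linarith
    · exact h1
  -- the index
  have hex : ∃ n, x < R n := (h.tendsto.eventually_gt_atTop x).exists
  classical
  set n := Nat.find hex with hn
  have hxn : x < R n := Nat.find_spec hex
  have hlt : ∀ j, j < n → R j < x := fun j hj => by
    have h1 := Nat.find_min hex hj
    push Not at h1
    exact lt_of_le_of_ne h1 (hxR j).symm
  refine ⟨n, x, hx, ?_, hxn, ?_⟩
  · -- lower bound for x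
    have h1 := hsr.summable.sum_add_tsum_nat_add (n + 1)
    rw [hsr.tsum_eq] at h1
    have h2 : ∑ j ∈ Finset.range n, 1 / (R j - x) ≤ 0 := by
      refine Finset.sum_nonpos fun j hj => ?_
      have := hlt j (Finset.mem_range.1 hj)
      exact div_nonpos_of_nonneg_of_nonpos zero_le_one (by linarith)
    rw [Finset.sum_range_succ] at h1
    have hRn := h.pos n
    have h3 : ∑' k, 1 / (R (k + (n + 1)) - x) ≤ 1 / R n := by
      have h4 : HasSum (fun k : ℕ => 1 / R n * (1 / 2 * (1 / 2 : ℝ) ^ k)) (1 / R n * (1 / 2 * 2)) :=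
        (hasSum_geometric_two.mul_left _).mul_left _
      have h5 : Summable fun k => 1 / (R (k + (n + 1)) - x) :=
        (summable_nat_add_iff (n + 1)).2 hsr.summable
      have h6 := h5.hasSum
      have h7 := hasSum_le (fun k => ?_) h6 h4
      · linarith
      · have h8 := h.pow_le n (k + 1)
        have e : n + (k + 1) = k + (n + 1) := by ring
        rw [e] at h8
        have h9 : (2 : ℝ) ^ (k + 1) * R n ≤ R (k + (n + 1)) - x := by
          have h10 : (2 : ℝ) ^ (k + 1) + 1 ≤ 4 ^ (k + 1) := by
            have h11 : (4 : ℝ) ^ (k + 1) = 2 ^ (k + 1) * 2 ^ (k + 1) := by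
              rw [← mul_pow]; norm_num
            have h12 : (2 : ℝ) ≤ 2 ^ (k + 1) := by
              rw [pow_succ]
              have : (1 : ℝ) ≤ 2 ^ k := one_le_pow₀ (by norm_num)
              linarith
            nlinarith
          nlinarith
        calc 1 / (R (k + (n + 1)) - x) ≤ 1 / ((2 : ℝ) ^ (k + 1) * R n) :=
              one_div_le_one_div_of_le (by positivity) h9
          _ = 1 / R n * (1 / 2 * (1 / 2 : ℝ) ^ k) := by
              rw [pow_succ, one_div_pow]
              field_simp
    have h4 : 1 / x ≤ 1 / (R n - x) + 1 / R n := by linarith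
    have h5 : 1 / R n ≤ 1 / (R n - x) := one_div_le_one_div_of_le (by linarith) (by linarith)
    have h6 : 1 / x ≤ 2 / (R n - x) := by
      have : 2 / (R n - x) = 1 / (R n - x) + 1 / (R n - x) := by ring
      linarith
    rw [div_le_div_iff₀ hxpos (by linarith)] at h6
    linarith
  · -- distance from the zero
    have h1 := hsr.summable.sum_add_tsum_nat_add (n + 1)
    rw [hsr.tsum_eq, Finset.sum_range_succ] at h1
    have h2 : 0 ≤ ∑' k, 1 / (R (k + (n + 1)) - x) := by
      refine tsum_nonneg fun k => ?_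
      have : R n < R (k + (n + 1)) := h.mono (by omega)
      exact div_nonneg zero_le_one (by linarith)
    have hRn := h.pos n
    rcases Nat.eq_zero_or_pos n with h0 | h0
    · have hr : Finset.range n = ∅ := by rw [h0]; rfl
      rw [hr, Finset.sum_empty, zero_add] at h1
      have h3 : 1 / (R n - x) ≤ 1 / x := by linarith
      have h4 : x ≤ R n - x := (one_div_le_one_div (by linarith) hxpos).1 h3
      have h5 : ((n : ℝ)) = 0 := by exact_mod_cast h0
      rw [h5]
      norm_num
      linarith
    · have h3 : ∀ j ∈ Finset.range n, -(1 / (x - R (n - 1))) ≤ 1 / (R j - x) := by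
        intro j hj
        have h4 := hlt j (Finset.mem_range.1 hj)
        have h5 : R j ≤ R (n - 1) := h.mono.monotone (by
          have := Finset.mem_range.1 hj
          omega)
        have h6 := hlt (n - 1) (by omega)
        have e : 1 / (R j - x) = -(1 / (x - R j)) := by
          rw [← neg_sub x (R j), one_div_neg_eq_neg_one_div]
        rw [e]
        have := one_div_le_one_div_of_le (by linarith : 0 < x - R (n - 1)) (by linarith : x - R (n - 1) ≤ x - R j)
        linarith
      have h4 := Finset.sum_le_sum h3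
      rw [Finset.sum_const, Finset.card_range, nsmul_eq_mul] at h4
      have h6 := hlt (n - 1) (by omega)
      have h7 : 1 / x ≤ 1 / (x - R (n - 1)) :=
        one_div_le_one_div_of_le (by linarith) (by linarith [h.pos (n - 1)])
      have h8 : 1 / (R n - x) ≤ (n + 1) * (1 / (x - R (n - 1))) := by linarith
      rw [mul_one_div, div_le_div_iff₀ (by linarith) (by linarith), one_mul] at h8
      have h9 := h.four (n - 1)
      have e : n - 1 + 1 = n := by omega
      rw [e] at h9
      have h10 : 1 / (2 * ((n : ℝ) + 2)) * R n = (R n / 2) / (n + 2) := by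
        field_simp
      rw [h10, div_le_iff₀ (by positivity)]
      nlinarith

end Seq

end Pool.Agent.R237.Prod
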