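import Mathlib
import Pool.Agent.R237.Ann
import Pool.Agent.R237.Prod

/-! An entire function all of whose critical points lie in a Baker wandering domain and its images. -/

set_option autoImplicit false

open Filter Topology Metric Set

namespace Pool.Agent.R237.Bwd

open Pool.Agent.H384R2.Fatou Pool.Agent.W723.MC Pool.Agent.TH224.SC Pool.Agent.R237 Pool.Agent.R237.Prod

/-! ### tails of products -/

theorem tail_sum {R : ℕ → ℝ} (h : Seq R) {m : ℕ} {y : ℝ} (hyR : 4 * y ≤ R m) (N : ℕ) :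
    ∑ k ∈ Finset.range N, y / R (m + k) ≤ 1 / 3 * (1 - (1 / 4) ^ N) := by
  induction N with
  | zero => simp
  | succ N ih =>
    rw [Finset.sum_range_succ]
    have h1 := h.pow_le m N
    have hRm := h.pos m
    have h2 : y / R (m + N) ≤ 1 / 4 * (1 / 4) ^ N := by
      rw [div_le_iff₀ (h.pos _)]
      have h3 : (1 : ℝ) / 4 * (1 / 4) ^ N * (4 ^ N * R m) = R m / 4 := by
        have : ((1 : ℝ) / 4) ^ N * 4 ^ N = 1 := by rw [← mul_pow]; norm_num
        calc (1 : ℝ) / 4 * (1 / 4) ^ N * (4 ^ N * R m) = 1 / 4 * ((1 / 4) ^ N * 4 ^ N) * R m := by ring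
          _ = R m / 4 := by rw [this]; ring
      have h4 : (1 : ℝ) / 4 * (1 / 4) ^ N * (4 ^ N * R m) ≤ 1 / 4 * (1 / 4) ^ N * R (m + N) :=
        mul_le_mul_of_nonneg_left h1 (by positivity)
      linarith
    rw [pow_succ]
    linarith

theorem tail_lower {R : ℕ → ℝ} (h : Seq R) {m : ℕ} {y : ℝ} (hy : 0 ≤ y) (hyR : 4 * y ≤ R m) (N : ℕ) :
    1 - ∑ k ∈ Finset.range N, y / R (m + k) ≤ ∏ k ∈ Finset.range N, (1 - y / R (m + k)) ∧
      0 ≤ ∏ k ∈ Finset.range N, (1 - y / R (m + k)) := by
  induction N with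
  | zero => simp
  | succ N ih =>
    rw [Finset.sum_range_succ, Finset.prod_range_succ]
    have h1 : 0 ≤ y / R (m + N) := div_nonneg hy (h.pos _).le
    have h2 : y / R (m + N) ≤ 1 := by
      rw [div_le_one (h.pos _)]
      have := h.mono.monotone (Nat.le_add_right m N)
      linarith
    have h3 : ∏ k ∈ Finset.range N, (1 - y / R (m + k)) ≤ 1 := by
      refine Finset.prod_le_one (fun k _ => ?_) (fun k _ => ?_)
      · have h4 : y / R (m + k) ≤ 1 := by
          rw [div_le_one (h.pos _)]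
          have := h.mono.monotone (Nat.le_add_right m k)
          linarith
        linarith
      · have : 0 ≤ y / R (m + k) := div_nonneg hy (h.pos _).le
        linarith
    refine ⟨?_, mul_nonneg ih.2 (by linarith)⟩
    nlinarith [ih.1, ih.2]

theorem tail_half {R : ℕ → ℝ} (h : Seq R) {m : ℕ} {y : ℝ} (hy : 0 ≤ y) (hyR : 4 * y ≤ R m) (N : ℕ) :
    2 / 3 ≤ ∏ k ∈ Finset.range N, (1 - y / R (m + k)) := by
  have h1 := (tail_lower h hy hyR N).1
  have h2 := tail_sum h hyR N
  have h3 : (0 : ℝ) ≤ (1 / 4) ^ N := by positivity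
  linarith

theorem tail_upper {R : ℕ → ℝ} (h : Seq R) {m : ℕ} {y : ℝ} (hy : 0 ≤ y) (hyR : 4 * y ≤ R m) (N : ℕ) :
    ∏ k ∈ Finset.range N, (1 + y / R (m + k)) ≤ 3 / 2 := by
  have h1 := tail_half h hy hyR N
  have h2 : (∏ k ∈ Finset.range N, (1 + y / R (m + k))) *
      (∏ k ∈ Finset.range N, (1 - y / R (m + k))) ≤ 1 := by
    rw [← Finset.prod_mul_distrib]
    refine Finset.prod_le_one (fun k _ => ?_) (fun k _ => ?_)
    · have h3 : 0 ≤ y / R (m + k) := div_nonneg hy (h.pos _).le
      have h4 : y / R (m + k) ≤ 1 := by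
        rw [div_le_one (h.pos _)]
        have := h.mono.monotone (Nat.le_add_right m k)
        linarith
      exact mul_nonneg (by linarith) (by linarith)
    · nlinarith [sq_nonneg (y / R (m + k))]
  have h3 : 0 ≤ ∏ k ∈ Finset.range N, (1 + y / R (m + k)) :=
    Finset.prod_nonneg fun k _ => by
      have : 0 ≤ y / R (m + k) := div_nonneg hy (h.pos _).le
      linarith
  nlinarith

theorem one_le_prod_of {S : Finset ℕ} {g : ℕ → ℝ} (hg : ∀ j ∈ S, 1 ≤ g j) : 1 ≤ ∏ j ∈ S, g j := by
  calc (1 : ℝ) = ∏ _j ∈ S, (1 : ℝ) := by rw [Finset.prod_const_one]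
    _ ≤ _ := Finset.prod_le_prod (fun _ _ => zero_le_one) hg

/-- splitting a product at `m` -/
theorem prod_split (g : ℕ → ℝ) (m N : ℕ) (hN : m ≤ N) :
    ∏ j ∈ Finset.range N, g j = (∏ j ∈ Finset.range m, g j) * ∏ k ∈ Finset.range (N - m), g (m + k) := by
  obtain ⟨d, rfl⟩ := Nat.exists_eq_add_of_le hN
  rw [Finset.prod_range_add, Nat.add_sub_cancel_left]

/-! ### the sequences -/

/-- pairs `(t n, x ↦ ∏_{j ≤ n} (1 + x / R j))` -/
noncomputable def st : ℕ → ℝ × (ℝ → ℝ)
  | 0 => (16, fun x => 1 + x / 4)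
  | n + 1 =>
    let t := (st n).1
    let Q := (st n).2
    (2 * 10000000 * t * (Q t * (1 + t / (4000 * t))), fun x => Q x * (1 + x / (4000 * t)))

/-- outer radii -/
noncomputable def tt (n : ℕ) : ℝ := (st n).1

/-- moduli of the zeros -/
noncomputable def RR : ℕ → ℝ
  | 0 => 4
  | n + 1 => 4000 * tt n

theorem Q_eq (n : ℕ) (x : ℝ) : (st n).2 x = ∏ j ∈ Finset.range (n + 1), (1 + x / RR j) := by
  induction n with
  | zero => simp [st, RR]
  | succ n ih =>
    rw [Finset.prod_range_succ, ← ih]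
    rfl

theorem tt_succ (n : ℕ) :
    tt (n + 1) = 2 * 10000000 * tt n * ∏ j ∈ Finset.range (n + 2), (1 + tt n / RR j) := by
  rw [← Q_eq (n + 1)]
  rfl

theorem tt_zero : tt 0 = 16 := rfl
theorem RR_zero : RR 0 = 4 := rfl
theorem RR_succ (n : ℕ) : RR (n + 1) = 4000 * tt n := rfl

theorem pos_both (n : ℕ) : 0 < tt n ∧ ∀ j ≤ n, 0 < RR j := by
  induction n with
  | zero =>
    refine ⟨by rw [tt_zero]; norm_num, fun j hj => ?_⟩
    have : j = 0 := by omega
    rw [this, RR_zero]; norm_num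
  | succ n ih =>
    have h1 : ∀ j ≤ n + 1, 0 < RR j := by
      intro j hj
      rcases Nat.lt_or_ge n j with h2 | h2
      · have : j = n + 1 := by omega
        rw [this, RR_succ]
        linarith [ih.1]
      · exact ih.2 j h2
    refine ⟨?_, h1⟩
    rw [tt_succ]
    have h2 : 0 < ∏ j ∈ Finset.range (n + 2), (1 + tt n / RR j) := by
      refine Finset.prod_pos fun j hj => ?_
      have h3 := h1 j (by have := Finset.mem_range.1 hj; omega)
      have := div_pos ih.1 h3
      linarith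
    have := ih.1
    positivity

theorem tt_pos (n : ℕ) : 0 < tt n := (pos_both n).1
theorem RR_pos (n : ℕ) : 0 < RR n := (pos_both n).2 n le_rfl

theorem prod_ge_one (n m : ℕ) : 1 ≤ ∏ j ∈ Finset.range m, (1 + tt n / RR j) := by
  refine one_le_prod_of fun j _ => ?_
  have := div_pos (tt_pos n) (RR_pos j)
  linarith

theorem tt_growth (n : ℕ) : 20000000 * tt n ≤ tt (n + 1) := by
  rw [tt_succ]
  have h1 := prod_ge_one n (n + 2)
  have h2 := tt_pos n
  nlinarith

theorem tt_growth2 (n : ℕ) : 5000000 * tt n ^ 2 ≤ tt (n + 1) := by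
  rw [tt_succ, Finset.prod_range_succ']
  have h1 : 1 ≤ ∏ j ∈ Finset.range (n + 1), (1 + tt n / RR (j + 1)) := by
    refine one_le_prod_of fun j _ => ?_
    have := div_pos (tt_pos n) (RR_pos (j + 1))
    linarith
  have h2 := tt_pos n
  rw [RR_zero]
  have h3 : tt n / 4 ≤ (∏ j ∈ Finset.range (n + 1), (1 + tt n / RR (j + 1))) * (1 + tt n / 4) := by
    nlinarith
  nlinarith

theorem tt_ge (n : ℕ) : 16 ≤ tt n := by
  induction n with
  | zero => rw [tt_zero]
  | succ n ih => linarith [tt_growth n]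

theorem seqRR : Seq RR where
  pos := RR_pos
  four := by
    intro j
    rcases j with _ | j
    · rw [RR_zero, RR_succ, tt_zero]; norm_num
    · rw [RR_succ, RR_succ]
      have := tt_growth j
      have := tt_pos j
      linarith

theorem RR_sq (n : ℕ) : 4 * RR n ^ 2 ≤ RR (n + 1) := by
  rcases n with _ | n
  · rw [RR_zero, RR_succ, tt_zero]; norm_num
  · rw [RR_succ, RR_succ]
    have h1 := tt_growth2 n
    nlinarith [sq_nonneg (tt n)]

theorem RR_le_tt (n : ℕ) : 4 * RR n ≤ tt n := by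
  rcases n with _ | n
  · rw [RR_zero, tt_zero]; norm_num
  · rw [RR_succ]
    have := tt_growth n
    have := tt_pos n
    linarith

/-! ### the function -/

/-- the entire function -/
noncomputable def f (z : ℂ) : ℂ := 10000000 * z * G RR z

theorem f_diff : Differentiable ℂ f := by
  unfold f
  exact (differentiable_id.const_mul _).mul seqRR.diff

theorem norm_f (z : ℂ) : ‖f z‖ = 10000000 * ‖z‖ * ‖G RR z‖ := by
  unfold f
  rw [norm_mul, norm_mul]
  norm_num

theorem up (n : ℕ) (z : ℂ) (hz : ‖z‖ ≤ tt n) : ‖f z‖ < tt (n + 1) := by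
  have h1 : ‖G RR z‖ ≤ (∏ j ∈ Finset.range (n + 2), (1 + tt n / RR j)) * (3 / 2) := by
    refine seqRR.upper ?_
    filter_upwards [eventually_ge_atTop (n + 2)] with N hN
    rw [prod_split _ (n + 2) N hN]
    have h2 : ∏ j ∈ Finset.range (n + 2), (1 + ‖z‖ / RR j) ≤
        ∏ j ∈ Finset.range (n + 2), (1 + tt n / RR j) := by
      refine Finset.prod_le_prod (fun j _ => ?_) fun j _ => ?_
      · have := div_nonneg (norm_nonneg z) (RR_pos j).le
        linarith
      · have := div_le_div_of_nonneg_right hz (RR_pos j).le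
        linarith
    have h3 : 4 * ‖z‖ ≤ RR (n + 2) := by
      rw [RR_succ]
      have := tt_growth n
      have := tt_pos n
      linarith
    have h4 := tail_upper seqRR (norm_nonneg z) h3 (N - (n + 2))
    have h5 := prod_ge_one n (n + 2)
    refine mul_le_mul h2 h4 (Finset.prod_nonneg fun k _ => ?_) (by linarith)
    have := div_nonneg (norm_nonneg z) (RR_pos (n + 2 + k)).le
    linarith
  rw [norm_f, tt_succ]
  have h5 := prod_ge_one n (n + 2)
  have h6 := tt_pos n
  have h7 : 10000000 * ‖z‖ * ‖G RR z‖ ≤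
      10000000 * tt n * ((∏ j ∈ Finset.range (n + 2), (1 + tt n / RR j)) * (3 / 2)) := by
    refine mul_le_mul ?_ h1 (norm_nonneg _) (by positivity)
    linarith
  nlinarith [mul_pos h6 (by linarith : 0 < ∏ j ∈ Finset.range (n + 2), (1 + tt n / RR j))]

/-- general lower bound -/
theorem low_G {n : ℕ} {z : ℂ} (hz : ‖z‖ ≤ tt n) {B : ℝ} (hB : 0 ≤ B)
    (h : B ≤ ∏ j ∈ Finset.range (n + 1), ‖1 + z / (RR j : ℂ)‖) : B * (2 / 3) ≤ ‖G RR z‖ := by
  refine seqRR.lower ?_
  filter_upwards [eventually_ge_atTop (n + 1)] with N hN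
  rw [prod_split _ (n + 1) N hN]
  have h3 : 4 * ‖z‖ ≤ RR (n + 1) := by
    rw [RR_succ]
    have := tt_pos n
    linarith
  have h4 := tail_half seqRR (norm_nonneg z) h3 (N - (n + 1))
  have h5 : ∏ k ∈ Finset.range (N - (n + 1)), (1 - ‖z‖ / RR (n + 1 + k)) ≤
      ∏ k ∈ Finset.range (N - (n + 1)), ‖1 + z / (RR (n + 1 + k) : ℂ)‖ := by
    refine Finset.prod_le_prod (fun k _ => ?_) fun k _ => ?_
    · have h6 : ‖z‖ / RR (n + 1 + k) ≤ 1 := by
        rw [div_le_one (RR_pos _)]
        have := seqRR.mono.monotone (Nat.le_add_right (n + 1) k)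
        linarith [norm_nonneg z]
      linarith
    · have h6 := norm_sub_norm_le (1 : ℂ) (-(z / (RR (n + 1 + k) : ℂ)))
      rw [norm_one, norm_neg, norm_div, Complex.norm_real,
        Real.norm_of_nonneg (RR_pos _).le, sub_neg_eq_add] at h6
      exact h6
  exact mul_le_mul h (h4.trans h5) (by norm_num) (hB.trans h)

theorem low_factor {z : ℂ} {j : ℕ} {y : ℝ} (hy : y ≤ ‖z‖) : y / RR j - 1 ≤ ‖1 + z / (RR j : ℂ)‖ := by
  have h6 := norm_sub_norm_le (z / (RR j : ℂ)) (-1 : ℂ)
  rw [norm_neg, norm_one, norm_div, Complex.norm_real, Real.norm_of_nonneg (RR_pos _).le,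
    sub_neg_eq_add, add_comm (z / (RR j : ℂ)) 1] at h6
  have := div_le_div_of_nonneg_right hy (RR_pos j).le
  linarith

theorem pow_big (n : ℕ) (hn : 1 ≤ n) : 80 * ((n : ℝ) + 2) < 499 ^ n := by
  induction n, hn using Nat.le_induction with
  | base => norm_num
  | succ n hn ih =>
    rw [pow_succ]
    push_cast
    have : (1 : ℝ) ≤ n := by exact_mod_cast hn
    linarith

/-- the main lower bound -/
theorem main_low {n : ℕ} {z : ℂ} (h1 : RR n / 4 ≤ ‖z‖) (h2 : ‖z‖ ≤ tt n)
    (h3 : 1 / (2 * ((n : ℝ) + 2)) ≤ ‖1 + z / (RR n : ℂ)‖) : 2 * RR (n + 1) < ‖f z‖ := by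
  have hδ : 0 < 1 / (2 * ((n : ℝ) + 2)) := by positivity
  rcases n with _ | n
  · have h4 : 1 / (2 * (((0 : ℕ) : ℝ) + 2)) ≤ ∏ j ∈ Finset.range (0 + 1), ‖1 + z / (RR j : ℂ)‖ := by
      rw [Finset.prod_range_one]
      exact h3
    have h5 := low_G h2 hδ.le h4
    rw [norm_f, RR_succ, tt_zero]
    rw [RR_zero] at h1
    norm_num at h5 h1 ⊢
    nlinarith [norm_nonneg (G RR z)]
  · have ht := tt_pos n
    have hz : 1000 * tt n ≤ ‖z‖ := by
      rw [RR_succ] at h1
      linarith
    have h4 : 499 ^ (n + 1) * (∏ j ∈ Finset.range (n + 1), (1 + tt n / RR j)) *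
        (1 / (2 * (((n + 1 : ℕ) : ℝ) + 2))) ≤
        ∏ j ∈ Finset.range (n + 1 + 1), ‖1 + z / (RR j : ℂ)‖ := by
      rw [Finset.prod_range_succ _ (n + 1)]
      have h5 : 499 ^ (n + 1) * (∏ j ∈ Finset.range (n + 1), (1 + tt n / RR j)) ≤
          ∏ j ∈ Finset.range (n + 1), ‖1 + z / (RR j : ℂ)‖ := by
        have e : (499 : ℝ) ^ (n + 1) * (∏ j ∈ Finset.range (n + 1), (1 + tt n / RR j)) =
            ∏ j ∈ Finset.range (n + 1), (499 * (1 + tt n / RR j)) := by
          rw [Finset.prod_mul_distrib, Finset.prod_const, Finset.card_range]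
        rw [e]
        refine Finset.prod_le_prod (fun j _ => ?_) fun j hj => ?_
        · have := div_pos ht (RR_pos j)
          positivity
        · have h6 := low_factor (j := j) hz
          have h7 : 1 ≤ tt n / RR j := by
            rw [one_le_div (RR_pos j)]
            have h8 := seqRR.mono.monotone (show j ≤ n by have := Finset.mem_range.1 hj; omega)
            have := RR_le_tt n
            have := RR_pos n
            linarith
          have h8 : 1000 * tt n / RR j = 1000 * (tt n / RR j) := by ring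
          rw [h8] at h6
          linarith
      refine mul_le_mul h5 h3 hδ.le (Finset.prod_nonneg fun _ _ => norm_nonneg _)
    have hP := prod_ge_one n (n + 1)
    have h5 := low_G h2 (by positivity) h4
    rw [norm_f, RR_succ, tt_succ, Finset.prod_range_succ _ (n + 1), RR_succ n]
    have e1 : tt n / (4000 * tt n) = 1 / 4000 := by field_simp
    rw [e1]
    set P := ∏ j ∈ Finset.range (n + 1), (1 + tt n / RR j) with hPdef
    have hpb := pow_big (n + 1) (by omega)
    push_cast at hpb h5 ⊢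
    have hn2 : (0 : ℝ) < (n : ℝ) + 1 + 2 := by positivity
    have h6 : 80 * P / 2 < 499 ^ (n + 1) * P * (1 / (2 * ((n : ℝ) + 1 + 2))) := by
      rw [mul_one_div, div_lt_div_iff₀ (by norm_num) (by positivity)]
      nlinarith
    have h7 : 80 * P / 2 * (2 / 3) < ‖G RR z‖ := by linarith
    have h8 : 10000000 * (1000 * tt n) * (80 * P / 2 * (2 / 3)) < 10000000 * ‖z‖ * ‖G RR z‖ := by
      have h9 : 0 < 10000000 * (1000 * tt n) := by positivity
      calc 10000000 * (1000 * tt n) * (80 * P / 2 * (2 / 3)) < 10000000 * (1000 * tt n) * ‖G RR z‖ :=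
            mul_lt_mul_of_pos_left h7 h9
        _ ≤ _ := mul_le_mul_of_nonneg_right (by linarith) (norm_nonneg _)
    refine lt_of_le_of_lt ?_ h8
    have h10 : 0 < tt n * P := by positivity
    nlinarith

theorem gr (M : ℕ) : ∀ᶠ n in atTop, ∀ z : ℂ, 2 * RR n < ‖z‖ → ‖z‖ < tt n → ‖z‖ ^ M ≤ ‖f z‖ := by
  filter_upwards [eventually_ge_atTop (2 * M + 1)] with n hn z hz1 hz2
  obtain ⟨m, rfl⟩ : ∃ m, n = m + 1 := ⟨n - 1, by omega⟩
  have hRm := RR_pos m
  have hsq := RR_sq m
  have hz0 : 0 < ‖z‖ := by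
    have := RR_pos (m + 1)
    linarith
  have hRge : 4 ≤ RR m := by
    have := seqRR.mono.monotone (Nat.zero_le m)
    rwa [RR_zero] at this
  have hz1' : 1 ≤ ‖z‖ := by nlinarith
  set v : ℝ := ‖z‖ / RR m - 1 with hv
  have hv1 : ‖z‖ / (2 * RR m) ≤ v := by
    rw [hv]
    have h1 : 1 ≤ ‖z‖ / (2 * RR m) := by
      rw [one_le_div (by positivity)]
      nlinarith
    have h2 : ‖z‖ / RR m = ‖z‖ / (2 * RR m) + ‖z‖ / (2 * RR m) := by field_simp; ring
    linarith
  have hv0 : 0 ≤ v := le_trans (by positivity) hv1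
  have hv2 : ‖z‖ ≤ v ^ 2 := by
    have h1 : (‖z‖ / (2 * RR m)) ^ 2 ≤ v ^ 2 := pow_le_pow_left₀ (by positivity) hv1 2
    refine le_trans ?_ h1
    rw [div_pow, le_div_iff₀ (by positivity)]
    nlinarith
  have h4 : v ^ (m + 1) ≤ ∏ j ∈ Finset.range (m + 1 + 1), ‖1 + z / (RR j : ℂ)‖ := by
    rw [Finset.prod_range_succ _ (m + 1)]
    have h5 : v ^ (m + 1) ≤ ∏ j ∈ Finset.range (m + 1), ‖1 + z / (RR j : ℂ)‖ := by
      have e : v ^ (m + 1) = ∏ _j ∈ Finset.range (m + 1), v := by
        rw [Finset.prod_const, Finset.card_range]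
      rw [e]
      refine Finset.prod_le_prod (fun j _ => hv0) fun j hj => ?_
      refine le_trans ?_ (low_factor (j := j) le_rfl)
      rw [hv]
      have h8 := seqRR.mono.monotone (show j ≤ m by have := Finset.mem_range.1 hj; omega)
      have := div_le_div_of_nonneg_left hz0.le (RR_pos j) h8
      linarith
    have h6 : 1 ≤ ‖1 + z / (RR (m + 1) : ℂ)‖ := by
      refine le_trans ?_ (low_factor (j := m + 1) le_rfl)
      have : 2 ≤ ‖z‖ / RR (m + 1) := by
        rw [le_div_iff₀ (RR_pos _)]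
        exact hz1.le
      linarith
    have h7 : 0 ≤ v ^ (m + 1) := by positivity
    nlinarith
  have h5 := low_G hz2.le (by positivity) h4
  have h6 : v ^ (m + 1) ≤ ‖f z‖ := by
    rw [norm_f]
    have h7 : 0 ≤ v ^ (m + 1) := by positivity
    nlinarith [norm_nonneg (G RR z)]
  have h7 : (‖z‖ ^ M) ^ 2 ≤ ‖f z‖ ^ 2 := by
    calc (‖z‖ ^ M) ^ 2 = ‖z‖ ^ (2 * M) := by rw [← pow_mul, mul_comm]
      _ ≤ ‖z‖ ^ (m + 1) := pow_le_pow_right₀ hz1' (by omega)
      _ ≤ (v ^ 2) ^ (m + 1) := pow_le_pow_left₀ hz0.le hv2 _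
      _ = (v ^ (m + 1)) ^ 2 := by rw [← pow_mul, ← pow_mul, mul_comm]
      _ ≤ ‖f z‖ ^ 2 := pow_le_pow_left₀ (by positivity) h6 2
  exact (pow_le_pow_iff_left₀ (by positivity) (norm_nonneg _) two_ne_zero).1 h7

theorem f_zero_at (n : ℕ) : f (-(RR n : ℂ)) = 0 := by
  unfold f
  rw [seqRR.zero_at, mul_zero]

theorem f_zero : f 0 = 0 := by
  unfold f
  ring

theorem f_open : IsOpenMap f := by
  have hana : AnalyticOnNhd ℂ f univ := f_diff.differentiableOn.analyticOnNhd isOpen_univ
  rcases hana.is_constant_or_isOpen isPreconnected_univ with ⟨w, hw⟩ | h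
  · exfalso
    have h1 : f ((2 * RR 0 : ℝ) : ℂ) = f 0 := by rw [hw _ (mem_univ _), hw _ (mem_univ _)]
    rw [f_zero] at h1
    have h2 : ‖((2 * RR 0 : ℝ) : ℂ)‖ = 8 := by
      rw [Complex.norm_real, RR_zero]; norm_num
    have h3 := main_low (n := 0) (z := ((2 * RR 0 : ℝ) : ℂ)) (by rw [h2, RR_zero]; norm_num)
      (by rw [h2, tt_zero]; norm_num) (by
        refine le_trans ?_ (low_factor (j := 0) (y := 8) (by rw [h2]))
        rw [RR_zero]; norm_num)
    rw [h1, norm_zero] at h3
    have := RR_pos 1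
    linarith
  · intro s hs
    exact h s (subset_univ s) hs

theorem ann : Ann f (fun n => 2 * RR n) tt where
  hf := f_diff
  ho := f_open
  hf0 := f_zero
  hs1 := fun n => by
    have := seqRR.mono.monotone (Nat.zero_le n)
    rw [RR_zero] at this
    linarith
  hst := fun n => by
    have := RR_le_tt n
    have := seqRR.mono.monotone (Nat.zero_le n)
    rw [RR_zero] at this
    linarith
  hts := fun n => by
    rw [RR_succ]
    have := tt_ge n
    linarith
  low := fun n z h1 h2 => by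
    have hR := RR_pos n
    refine main_low (by linarith) h2 ?_
    refine le_trans ?_ (low_factor (j := n) h1)
    have e : 2 * RR n / RR n = 2 := by field_simp
    rw [e]
    rw [div_le_iff₀ (by positivity)]
    have : (0 : ℝ) ≤ n := Nat.cast_nonneg n
    linarith
  up := up
  gr := gr

/-- covering of a disc by the image of a ball -/
theorem covers {c : ℂ} {ρ S : ℝ} (hρ : 0 < ρ) (hS : 0 ≤ S) (h0 : f c = 0)
    (hs : ∀ z ∈ sphere c ρ, S < ‖f z‖) {y : ℂ} (hy : ‖y‖ ≤ S) : ∃ w ∈ closedBall c ρ, f w = y := by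
  by_contra hcon
  push Not at hcon
  have h1 : IsPreconnected (closedBall (0 : ℂ) S) := (convex_closedBall _ _).isPreconnected
  have hA : IsOpen (f '' ball c ρ) := f_open _ isOpen_ball
  have hB : IsOpen (f '' closedBall c ρ)ᶜ :=
    ((isCompact_closedBall c ρ).image f_diff.continuous).isClosed.isOpen_compl
  obtain ⟨x, _, hx1, hx2⟩ := h1 _ _ hA hB (fun x hx => by
    by_cases hxB : x ∈ f '' closedBall c ρ
    · left
      obtain ⟨w, hw, rfl⟩ := hxB
      refine ⟨w, ?_, rfl⟩
      rw [mem_closedBall] at hw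
      rcases hw.lt_or_eq with h2 | h2
      · exact h2
      · have := hs w h2
        rw [mem_closedBall_zero_iff] at hx
        linarith
    · exact Or.inr hxB) ⟨0, by simpa using hS, c, mem_ball_self hρ, h0⟩
    ⟨y, by simpa using hy, fun ⟨w, hw, hwy⟩ => hcon w hw hwy⟩
  exact hx2 (image_mono ball_subset_closedBall hx1)

/-- the two pieces -/
noncomputable def Lam (n : ℕ) (b : Bool) : Set ℂ :=
  if b then closedBall (-(RR n : ℂ)) (1 / (2 * ((n : ℝ) + 2)) * RR n) else closedBall 0 (RR n / 4)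

theorem delta_le (n : ℕ) : 1 / (2 * ((n : ℝ) + 2)) ≤ 1 / 4 := by
  rw [div_le_div_iff₀ (by positivity) (by norm_num)]
  have : (0 : ℝ) ≤ n := Nat.cast_nonneg n
  linarith

theorem mem_true {n : ℕ} {z : ℂ} :
    z ∈ Lam n true ↔ ‖1 + z / (RR n : ℂ)‖ ≤ 1 / (2 * ((n : ℝ) + 2)) := by
  have hR := RR_pos n
  have hR' : (RR n : ℂ) ≠ 0 := by exact_mod_cast hR.ne'
  have e : z - (-(RR n : ℂ)) = (1 + z / (RR n : ℂ)) * RR n := by field_simp; ring
  simp only [Lam, if_true, mem_closedBall, dist_eq_norm]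
  rw [e, norm_mul, Complex.norm_real, Real.norm_of_nonneg hR.le, mul_le_mul_iff_left₀ hR]

theorem holes (n : ℕ) : (SphereHoles (Ann.U f (fun n => 2 * RR n) n)).Infinite := by
  refine ann.holes n (Λ := Lam) ?_ ?_ ?_ ?_
  · intro n b
    unfold Lam
    split_ifs <;> exact isClosed_closedBall
  · intro n
    rw [Set.disjoint_left]
    intro z h1 h2
    rw [mem_true] at h2
    simp only [Lam, Bool.false_eq_true, if_false, mem_closedBall_zero_iff] at h1
    have hR := RR_pos n
    have h3 := norm_sub_norm_le (1 : ℂ) (-(z / (RR n : ℂ)))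
    rw [norm_one, norm_neg, norm_div, Complex.norm_real, Real.norm_of_nonneg hR.le,
      sub_neg_eq_add] at h3
    have h4 : ‖z‖ / RR n ≤ 1 / 4 := by
      rw [div_le_iff₀ hR]; linarith
    have := delta_le n
    linarith
  · intro n z h1 h2
    by_cases h3 : z ∈ Lam n true
    · exact ⟨true, h3⟩
    · refine ⟨false, ?_⟩
      rw [mem_true, not_le] at h3
      simp only [Lam, Bool.false_eq_true, if_false, mem_closedBall_zero_iff]
      by_contra h4
      push Not at h4
      have := main_low h4.le (by linarith [RR_le_tt n, RR_pos n]) h3.le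
      linarith
  · intro n b y hy
    have hR := RR_pos n
    have hR1 := RR_pos (n + 1)
    have hRt := RR_le_tt n
    cases b
    · obtain ⟨w, hw, hwy⟩ := covers (c := 0) (ρ := RR n / 4) (by positivity) (by positivity)
        f_zero (fun z hz => by
          rw [mem_sphere_zero_iff_norm] at hz
          refine main_low hz.ge (by linarith) ?_
          have h3 := norm_sub_norm_le (1 : ℂ) (-(z / (RR n : ℂ)))
          rw [norm_one, norm_neg, norm_div, Complex.norm_real, Real.norm_of_nonneg hR.le,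
            sub_neg_eq_add, hz] at h3
          have h4 : RR n / 4 / RR n = 1 / 4 := by field_simp
          rw [h4] at h3
          have := delta_le n
          linarith) hy
      refine ⟨w, ?_, ?_, hwy⟩
      · simpa [Lam] using hw
      · rw [mem_closedBall_zero_iff] at hw
        linarith
    · have hδ : 0 < 1 / (2 * ((n : ℝ) + 2)) := by positivity
      have hδ2 := delta_le n
      have key : ∀ z : ℂ, ‖1 + z / (RR n : ℂ)‖ ≤ 1 / 4 → RR n / 4 ≤ ‖z‖ ∧ ‖z‖ ≤ 5 / 4 * RR n := by
        intro z hz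
        have h3 := norm_sub_norm_le (1 : ℂ) (-(z / (RR n : ℂ)))
        rw [norm_one, norm_neg, norm_div, Complex.norm_real, Real.norm_of_nonneg hR.le,
          sub_neg_eq_add] at h3
        have h4 := low_factor (z := z) (j := n) le_rfl
        have h5 : 3 / 4 ≤ ‖z‖ / RR n := by linarith
        have h6 : ‖z‖ / RR n ≤ 5 / 4 := by linarith
        rw [le_div_iff₀ hR] at h5
        rw [div_le_iff₀ hR] at h6
        exact ⟨by linarith, h6⟩
      obtain ⟨w, hw, hwy⟩ := covers (c := -(RR n : ℂ)) (ρ := 1 / (2 * ((n : ℝ) + 2)) * RR n)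
        (by positivity) (by positivity) (f_zero_at n) (fun z hz => by
          have hR' : (RR n : ℂ) ≠ 0 := by exact_mod_cast hR.ne'
          have e : z - (-(RR n : ℂ)) = (1 + z / (RR n : ℂ)) * RR n := by field_simp; ring
          rw [mem_sphere, dist_eq_norm, e, norm_mul, Complex.norm_real,
            Real.norm_of_nonneg hR.le, mul_left_inj' hR.ne'] at hz
          obtain ⟨h5, h6⟩ := key z (by rw [hz]; exact hδ2)
          exact main_low h5 (by linarith) hz.ge) hy
      have hw' : w ∈ Lam n true := by simpa [Lam] using hw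
      refine ⟨w, hw', ?_, hwy⟩
      rw [mem_true] at hw'
      have := (key w (hw'.trans hδ2)).2
      linarith

/-- every critical point lies in one of the components -/
theorem crit {c : ℂ} (hc : deriv f c = 0) : ∃ n, c ∈ Ann.U f (fun n => 2 * RR n) n := by
  obtain ⟨n, x, hcx, h1, h2, h3⟩ := seqRR.critical (f := f) (l := 10000000) (by norm_num)
    (fun z => rfl) hc
  have hR := RR_pos n
  have hR' : (RR n : ℂ) ≠ 0 := by exact_mod_cast hR.ne'
  have hx : ‖c‖ = x := by
    rw [hcx, norm_neg, Complex.norm_real, Real.norm_of_nonneg (by linarith)]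
  refine ⟨n, ann.r_claim (i := 1) ?_ ?_⟩
  · rw [hx]
    linarith [RR_le_tt n]
  · rw [Function.iterate_one]
    refine main_low (by rw [hx]; exact h1) (by rw [hx]; linarith [RR_le_tt n]) ?_
    have e : 1 + c / (RR n : ℂ) = (((RR n - x) / RR n : ℝ) : ℂ) := by
      rw [hcx]
      push_cast
      field_simp
      ring
    rw [e, Complex.norm_real, Real.norm_of_nonneg (div_nonneg (by linarith) hR.le),
      le_div_iff₀ hR]
    exact h3

theorem trans : TransEntire f := by
  refine ⟨f_diff, ?_⟩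
  rintro ⟨p, hp⟩
  have hp0 : p ≠ 0 := by
    rintro rfl
    have h1 := ann.low 0 ((2 * RR 0 : ℝ) : ℂ) (by
      rw [Complex.norm_real, Real.norm_of_nonneg (by linarith [RR_pos 0])]) (by
      rw [Complex.norm_real, Real.norm_of_nonneg (by linarith [RR_pos 0])]
      linarith [RR_le_tt 0, RR_pos 0])
    rw [hp, Polynomial.eval_zero, norm_zero] at h1
    linarith [RR_pos (0 + 1)]
  have hfin : {z : ℂ | p.eval z = 0}.Finite := Polynomial.finite_setOfPred_isRoot hp0
  have hinj : Function.Injective fun n : ℕ => (-(RR n : ℂ)) := by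
    intro a b hab
    have h1 : (RR a : ℂ) = RR b := neg_injective hab
    exact seqRR.mono.injective (by exact_mod_cast h1)
  exact (Set.infinite_range_of_injective hinj) (hfin.subset (by
    rintro _ ⟨n, rfl⟩
    show p.eval _ = 0
    rw [← hp]
    exact f_zero_at n))

end Pool.Agent.R237.Bwd
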