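import Mathlib
import Pool.Agent.Helper240.ZFM.Defs
import Pool.Agent.Helper240.ZFM.R1

/-! Cauchy transform of continuous functions with compact support, and splitting of singularities. -/

set_option autoImplicit false

open MeasureTheory Set Filter Metric Topology Complex

namespace Pool.Agent.R237.CT

open ZFM

/-- The Cauchy transform. -/
noncomputable def CT (u : ℂ → ℂ) (z : ℂ) : ℂ := ∫ w, u w / (z - w)

theorem inv_locInt : LocallyIntegrable (fun v : ℂ => v⁻¹) := by
  intro x
  refine ⟨ball 0 (‖x‖ + 1), isOpen_ball.mem_nhds (by simp), ?_⟩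
  refine integrableOn_ball_of_norm_le_rpow (C := 1) (α := 1) ?_ ?_ ?_ ?_
  · rw [Complex.finrank_real_complex]; norm_num
  · rw [Complex.finrank_real_complex]; norm_num
  · filter_upwards with x
    rw [Real.rpow_neg_one, one_mul, norm_inv]
  · exact (measurable_id.inv : Measurable fun v : ℂ => v⁻¹).aestronglyMeasurable

theorem integrable {u : ℂ → ℂ} (hu : Continuous u) (hs : HasCompactSupport u) (z : ℂ) :
    Integrable (fun w => u w / (z - w)) := by
  have h1 : LocallyIntegrable (fun v : ℂ => (z - v)⁻¹) := by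
    intro x
    refine ⟨ball z (‖x - z‖ + 1), isOpen_ball.mem_nhds (by rw [mem_ball, dist_eq_norm]; linarith), ?_⟩
    have h2 : IntegrableOn (fun v : ℂ => v⁻¹) (ball 0 (‖x - z‖ + 1)) := by
      refine integrableOn_ball_of_norm_le_rpow (C := 1) (α := 1) ?_ ?_ ?_ ?_
      · rw [Complex.finrank_real_complex]; norm_num
      · rw [Complex.finrank_real_complex]; norm_num
      · filter_upwards with x
        rw [Real.rpow_neg_one, one_mul, norm_inv]
      · exact (measurable_id.inv : Measurable fun v : ℂ => v⁻¹).aestronglyMeasurable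
    rw [← integrable_indicator_iff measurableSet_ball] at h2 ⊢
    have h3 := h2.comp_sub_left z
    refine h3.congr (Eventually.of_forall fun w => ?_)
    simp only [indicator, mem_ball, dist_eq_norm, sub_zero]
    rw [norm_sub_rev z w]
  have h2 := h1.integrable_smul_left_of_hasCompactSupport hu hs
  refine h2.congr (Eventually.of_forall fun w => ?_)
  simp [div_eq_mul_inv]

theorem continuous {u : ℂ → ℂ} (hu : Continuous u) (hs : HasCompactSupport u) :
    Continuous (CT u) := by
  have h := hs.continuous_convolution_left (ContinuousLinearMap.mul ℝ ℂ) (μ := volume) hu inv_locInt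
  refine h.congr fun z => ?_
  unfold convolution CT
  simp [div_eq_mul_inv]

theorem ct_add {u v : ℂ → ℂ} (hu : Continuous u) (hus : HasCompactSupport u) (hv : Continuous v)
    (hvs : HasCompactSupport v) (z : ℂ) : CT (fun w => u w + v w) z = CT u z + CT v z := by
  unfold CT
  rw [← integral_add (integrable hu hus z) (integrable hv hvs z)]
  congr 1
  funext w
  ring

theorem ct_sub {u v : ℂ → ℂ} (hu : Continuous u) (hus : HasCompactSupport u) (hv : Continuous v)
    (hvs : HasCompactSupport v) (z : ℂ) : CT (fun w => u w - v w) z = CT u z - CT v z := by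
  unfold CT
  rw [← integral_sub (integrable hu hus z) (integrable hv hvs z)]
  congr 1
  funext w
  ring

/-- holomorphic off the support -/
theorem holo {u : ℂ → ℂ} (hu : Continuous u) (hs : HasCompactSupport u) {V : Set ℂ} (hV : IsOpen V)
    (h0 : ∀ w ∈ V, u w = 0) : DifferentiableOn ℂ (CT u) V := by
  intro z0 hz0
  apply DifferentiableAt.differentiableWithinAt
  obtain ⟨ε, hε, hball⟩ := Metric.isOpen_iff.1 hV z0 hz0
  have hhalf : 0 < ε / 2 := by linarith
  have key := hasDerivAt_integral_of_dominated_loc_of_deriv_le (μ := (volume : Measure ℂ))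
    (F := fun z w => u w / (z - w)) (F' := fun z w => - (u w / (z - w) ^ 2)) (x₀ := z0)
    (s := ball z0 (ε / 2)) (bound := fun w => ‖u w‖ * (2 / ε) ^ 2)
    (ball_mem_nhds z0 hhalf)
    (by
      filter_upwards with z
      exact (integrable hu hs z).aestronglyMeasurable)
    (integrable hu hs z0)
    (((hu.measurable.div ((measurable_const.sub measurable_id).pow_const 2)).neg).aestronglyMeasurable)
    (by
      filter_upwards with w z hz
      rw [norm_neg, norm_div, norm_pow, div_eq_mul_inv, ← inv_pow]
      by_cases hw : w ∈ V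
      · rw [h0 w hw]; simp
      · apply mul_le_mul_of_nonneg_left _ (norm_nonneg _)
        apply pow_le_pow_left₀ (by positivity)
        have h1 : ε ≤ ‖w - z0‖ := by
          by_contra hcon
          push Not at hcon
          exact hw (hball (by rwa [mem_ball, dist_eq_norm]))
        have h2 : ‖z - z0‖ < ε / 2 := by rwa [mem_ball, dist_eq_norm] at hz
        have h3 : ε / 2 ≤ ‖z - w‖ := by
          have h4 : ‖w - z0‖ ≤ ‖w - z‖ + ‖z - z0‖ := by
            have := norm_add_le (w - z) (z - z0)
            rwa [sub_add_sub_cancel] at this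
          rw [norm_sub_rev z w]
          linarith
        calc ‖z - w‖⁻¹ ≤ (ε / 2)⁻¹ := inv_anti₀ hhalf h3
          _ = 2 / ε := by rw [inv_div])
    ((hu.integrable_of_hasCompactSupport hs).norm.mul_const _)
    (by
      filter_upwards with w z hz
      by_cases hw : w ∈ V
      · rw [h0 w hw]
        simp only [zero_div, neg_zero]
        exact hasDerivAt_const z (0 : ℂ)
      · have hne : z - w ≠ 0 := by
          intro h0
          rw [sub_eq_zero] at h0
          apply hw
          rw [← h0]
          exact hball (ball_subset_ball (by linarith) hz)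
        have h1 : HasDerivAt (fun z => z - w) 1 z := (hasDerivAt_id' z).sub_const w
        have h2 := (h1.inv hne).const_mul (u w)
        refine h2.congr_deriv ?_
        field_simp)
  exact key.2.differentiableAt

theorem dbar_mul {f g : ℂ → ℂ} {z : ℂ} (hf : DifferentiableAt ℝ f z) (hg : DifferentiableAt ℝ g z) :
    dbar (fun w => f w * g w) z = f z * dbar g z + g z * dbar f z := by
  unfold dbar
  rw [fderiv_fun_mul hf hg]
  simp only [add_apply, smul_apply, smul_eq_mul]
  ring

theorem dbar_holo {f : ℂ → ℂ} {z : ℂ} (hf : DifferentiableAt ℂ f z) : dbar f z = 0 := by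
  unfold dbar
  have h1 : fderiv ℝ f z = (fderiv ℂ f z).restrictScalars ℝ :=
    (hf.hasFDerivAt.restrictScalars ℝ).fderiv
  rw [h1]
  simp only [ContinuousLinearMap.coe_restrictScalars']
  have h2 : fderiv ℂ f z I = I * fderiv ℂ f z 1 := by
    have := (fderiv ℂ f z).map_smul I 1
    simpa using this
  rw [h2, ← mul_assoc, I_mul_I]
  ring

theorem dbar_cont {f : ℂ → ℂ} (hf : ContDiff ℝ 1 f) : Continuous (dbar f) := by
  have h := hf.continuous_fderiv one_ne_zero
  unfold dbar
  exact ((h.clm_apply continuous_const).add (continuous_const.mul (h.clm_apply continuous_const))).div_const 2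

theorem dbar_support {f : ℂ → ℂ} (hs : HasCompactSupport f) : HasCompactSupport (dbar f) := by
  refine HasCompactSupport.intro hs fun z hz => ?_
  have h1 : fderiv ℝ f z = 0 :=
    image_eq_zero_of_notMem_tsupport (fun h => hz (tsupport_fderiv_subset ℝ h))
  unfold dbar
  rw [h1]
  simp

theorem dbar_eq_zero_of_const {f : ℂ → ℂ} {V : Set ℂ} (hV : IsOpen V) {c : ℂ} (h : ∀ z ∈ V, f z = c)
    {z : ℂ} (hz : z ∈ V) : dbar f z = 0 := by
  have h1 : f =ᶠ[𝓝 z] fun _ => c := by
    filter_upwards [hV.mem_nhds hz] with w hw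
    exact h w hw
  unfold dbar
  rw [h1.fderiv_eq]
  simp

/-- Splitting: with `u = F ∂̄χ`, the function `χ F - (1/π) CT u` is holomorphic wherever `F` is. -/
theorem split {F χ : ℂ → ℂ} (hF : Continuous F) (hχ : ContDiff ℝ 1 χ) (hχs : HasCompactSupport χ)
    {W : Set ℂ} (hW : IsOpen W) (hFW : DifferentiableOn ℂ F W) :
    DifferentiableOn ℂ (fun z => χ z * F z - 1 / (Real.pi : ℂ) * CT (fun w => F w * dbar χ w) z) W := by
  intro a ha
  apply DifferentiableAt.differentiableWithinAt
  obtain ⟨r, hr, hball⟩ := Metric.nhds_basis_closedBall.mem_iff.1 (hW.mem_nhds ha)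
  let b : ContDiffBump a := ⟨r / 2, r, by linarith, by linarith⟩
  set ψ : ℂ → ℂ := fun z => ((b z : ℝ) : ℂ) with hψ
  have hψc : ContDiff ℝ 1 ψ := ofRealCLM.contDiff.comp b.contDiff
  have hψs : HasCompactSupport ψ := b.hasCompactSupport.comp_left (g := fun x : ℝ => (x : ℂ)) (by simp)
  have hψ1 : ∀ z ∈ ball a (r / 2), ψ z = 1 := by
    intro z hz
    have : b z = 1 := b.one_of_mem_closedBall (ball_subset_closedBall hz)
    simp [hψ, this]
  have hψ0 : ∀ z, z ∉ W → ∀ᶠ w in 𝓝 z, ψ w = 0 := by
    intro z hz
    have h1 : z ∉ tsupport b := by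
      rw [b.tsupport_eq]
      exact fun h => hz (hball h)
    have h2 := notMem_tsupport_iff_eventuallyEq.1 h1
    filter_upwards [h2] with w hw
    simp [hψ, hw]
  have hFan : ∀ z ∈ W, ContDiffAt ℝ 1 F z := fun z hz =>
    ((hFW.analyticAt (hW.mem_nhds hz)).contDiffAt.restrict_scalars ℝ)
  -- the compactly supported function
  set w0 : ℂ → ℂ := fun z => ψ z * (F z * χ z) with hw0
  have hw0c : ContDiff ℝ 1 w0 := by
    rw [contDiff_iff_contDiffAt]
    intro z
    by_cases hz : z ∈ W
    · exact hψc.contDiffAt.mul ((hFan z hz).mul hχ.contDiffAt)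
    · have h1 : w0 =ᶠ[𝓝 z] fun _ => 0 := by
        filter_upwards [hψ0 z hz] with w hw
        simp only [hw0]
        rw [hw, zero_mul]
      exact contDiffAt_const.congr_of_eventuallyEq h1
  have hw0s : HasCompactSupport w0 := hψs.mul_right
  have hdb : ∀ z, dbar w0 z = F z * χ z * dbar ψ z + ψ z * F z * dbar χ z := by
    intro z
    by_cases hz : z ∈ W
    · have h1 : DifferentiableAt ℝ F z := (hFan z hz).differentiableAt one_ne_zero
      have h2 : DifferentiableAt ℝ χ z := hχ.contDiffAt.differentiableAt one_ne_zero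
      have h3 : DifferentiableAt ℝ ψ z := hψc.contDiffAt.differentiableAt one_ne_zero
      have h4 := dbar_mul h3 (h1.mul h2)
      have h5 := dbar_mul h1 h2
      have h6 : dbar F z = 0 := dbar_holo (hFW.differentiableAt (hW.mem_nhds hz))
      have h7 : dbar w0 z = ψ z * dbar (fun w => F w * χ w) z + F z * χ z * dbar ψ z := h4
      rw [h7, h5, h6]
      ring
    · have h1 := hψ0 z hz
      obtain ⟨V, hV, hVo, hzV⟩ := _root_.eventually_nhds_iff.1 h1
      have h2 : dbar w0 z = 0 := dbar_eq_zero_of_const hVo (c := 0) (fun w hw => by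
        simp only [hw0]; rw [hV w hw, zero_mul]) hzV
      have h3 : dbar ψ z = 0 := dbar_eq_zero_of_const hVo (c := 0) hV hzV
      rw [h2, h3, hV z hzV]
      ring
  have hdψ := dbar_cont hψc
  have hdχ := dbar_cont hχ
  have hdψs := dbar_support hψs
  have hdχs := dbar_support hχs
  set u1 : ℂ → ℂ := fun z => F z * χ z * dbar ψ z with hu1
  set u2 : ℂ → ℂ := fun z => (1 - ψ z) * (F z * dbar χ z) with hu2
  have hu1c : Continuous u1 := (hF.mul hχ.continuous).mul hdψ
  have hu1s : HasCompactSupport u1 := hdψs.mul_left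
  have hu2c : Continuous u2 := (continuous_const.sub hψc.continuous).mul (hF.mul hdχ)
  have hu2s : HasCompactSupport u2 := (hdχs.mul_left).mul_left
  have hpom : ∀ z, w0 z = 1 / (Real.pi : ℂ) * CT (dbar w0) z := fun z => pompeiu w0 hw0c hw0s z
  have hdw0c : Continuous (dbar w0) := dbar_cont hw0c
  have hdw0s : HasCompactSupport (dbar w0) := dbar_support hw0s
  have hCT : ∀ z, CT (fun w => F w * dbar χ w) z = CT (dbar w0) z - CT u1 z + CT u2 z := by
    intro z
    have e1 := ct_sub hdw0c hdw0s hu1c hu1s z
    have e2 := ct_add (u := fun w => dbar w0 w - u1 w) (v := u2) (hdw0c.sub hu1c)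
      (hdw0s.sub hu1s) hu2c hu2s z
    rw [← e1, ← e2]
    congr 1
    funext w
    rw [hdb]
    simp only [hu1, hu2]
    ring
  have hloc : (fun z => χ z * F z - 1 / (Real.pi : ℂ) * CT (fun w => F w * dbar χ w) z) =ᶠ[𝓝 a]
      fun z => 1 / (Real.pi : ℂ) * (CT u1 z - CT u2 z) := by
    filter_upwards [isOpen_ball.mem_nhds (mem_ball_self (by linarith : 0 < r / 2))] with z hz
    rw [hCT z]
    have h1 := hpom z
    have h2 : w0 z = χ z * F z := by
      simp only [hw0]
      rw [hψ1 z hz]
      ring
    rw [h2] at h1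
    linear_combination h1
  refine DifferentiableAt.congr_of_eventuallyEq ?_ hloc
  have hB : a ∈ ball a (r / 2) := mem_ball_self (by linarith)
  have h1 := (holo hu1c hu1s isOpen_ball (fun w hw => by
    simp only [hu1]
    rw [dbar_eq_zero_of_const isOpen_ball hψ1 hw, mul_zero])).differentiableAt
      (isOpen_ball.mem_nhds hB)
  have h2 := (holo hu2c hu2s isOpen_ball (fun w hw => by
    simp only [hu2]
    rw [hψ1 w hw]
    ring)).differentiableAt (isOpen_ball.mem_nhds hB)
  exact (h1.sub h2).const_mul _

end Pool.Agent.R237.CT
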