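import Mathlib

/-! The chordal metric on the Riemann sphere `OnePoint ℂ`. -/

set_option autoImplicit false

open Filter Topology Set Metric Complex
open scoped OnePoint

namespace Pool.Agent.R237.Chi

/-- The chordal metric on the Riemann sphere. -/
noncomputable def chi : OnePoint ℂ → OnePoint ℂ → ℝ
  | OnePoint.some a, OnePoint.some b => ‖a - b‖ / (√(1 + ‖a‖ ^ 2) * √(1 + ‖b‖ ^ 2))
  | OnePoint.some a, OnePoint.infty => 1 / √(1 + ‖a‖ ^ 2)
  | OnePoint.infty, OnePoint.some b => 1 / √(1 + ‖b‖ ^ 2)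
  | OnePoint.infty, OnePoint.infty => 0

theorem chi_coe (a b : ℂ) : chi (a : OnePoint ℂ) b = ‖a - b‖ / (√(1 + ‖a‖ ^ 2) * √(1 + ‖b‖ ^ 2)) := rfl
theorem chi_coe_infty (a : ℂ) : chi (a : OnePoint ℂ) ∞ = 1 / √(1 + ‖a‖ ^ 2) := rfl
theorem chi_infty_coe (b : ℂ) : chi ∞ (b : OnePoint ℂ) = 1 / √(1 + ‖b‖ ^ 2) := rfl
theorem chi_infty_infty : chi ∞ ∞ = 0 := rfl

/-- The finite part of a point of the sphere. -/
noncomputable def fp : OnePoint ℂ → ℂ
  | OnePoint.some a => a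
  | OnePoint.infty => 0

theorem fp_coe (a : ℂ) : fp (a : OnePoint ℂ) = a := rfl

theorem coe_fp {w : OnePoint ℂ} (h : w ≠ ∞) : (fp w : OnePoint ℂ) = w := by
  induction w using OnePoint.rec with
  | infty => exact absurd rfl h
  | coe a => rfl

/-- Embedding of the sphere. -/
noncomputable def sig : OnePoint ℂ → WithLp 2 (ℂ × ℝ)
  | OnePoint.some a => WithLp.toLp 2 (((1 + ‖a‖ ^ 2)⁻¹ : ℝ) • a, (1 + ‖a‖ ^ 2)⁻¹)
  | OnePoint.infty => WithLp.toLp 2 (0, 0)

theorem sig_coe (a : ℂ) :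
    sig (a : OnePoint ℂ) = WithLp.toLp 2 (((1 + ‖a‖ ^ 2)⁻¹ : ℝ) • a, (1 + ‖a‖ ^ 2)⁻¹) := rfl
theorem sig_infty : sig ∞ = WithLp.toLp 2 (0, 0) := rfl

theorem chi_nonneg (x y : OnePoint ℂ) : 0 ≤ chi x y := by
  induction x using OnePoint.rec with
  | infty =>
    induction y using OnePoint.rec with
    | infty => rw [chi_infty_infty]
    | coe b => rw [chi_infty_coe]; positivity
  | coe a =>
    induction y using OnePoint.rec with
    | infty => rw [chi_coe_infty]; positivity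
    | coe b => rw [chi_coe]; positivity

theorem sq_norm_coord (a : ℂ) : ‖a‖ ^ 2 = a.re ^ 2 + a.im ^ 2 := by
  rw [Complex.sq_norm, normSq_apply]; ring

theorem dist_toLp (p q : ℂ) (x y : ℝ) :
    dist (WithLp.toLp 2 (p, x)) (WithLp.toLp 2 (q, y)) ^ 2 = ‖p - q‖ ^ 2 + (x - y) ^ 2 := by
  rw [dist_eq_norm, WithLp.prod_norm_sq_eq_of_L2]
  change ‖p - q‖ ^ 2 + ‖x - y‖ ^ 2 = _
  rw [Real.norm_eq_abs, sq_abs]

theorem chi_eq (x y : OnePoint ℂ) : chi x y = dist (sig x) (sig y) := by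
  rw [← sq_eq_sq₀ (chi_nonneg x y) dist_nonneg]
  induction x using OnePoint.rec with
  | infty =>
    induction y using OnePoint.rec with
    | infty => rw [chi_infty_infty, dist_self]
    | coe b =>
      rw [chi_infty_coe, sig_infty, sig_coe, div_pow, Real.sq_sqrt (by positivity), dist_toLp,
        zero_sub, norm_neg, norm_smul, norm_inv,
        Real.norm_of_nonneg (by positivity : (0:ℝ) ≤ 1 + ‖b‖ ^ 2)]
      field_simp
      ring
  | coe a =>
    induction y using OnePoint.rec with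
    | infty =>
      rw [chi_coe_infty, sig_infty, sig_coe, div_pow, Real.sq_sqrt (by positivity), dist_toLp,
        sub_zero, norm_smul, norm_inv,
        Real.norm_of_nonneg (by positivity : (0:ℝ) ≤ 1 + ‖a‖ ^ 2)]
      field_simp
      ring
    | coe b =>
      rw [chi_coe, sig_coe, sig_coe, div_pow, mul_pow, Real.sq_sqrt (by positivity),
        Real.sq_sqrt (by positivity), dist_toLp]
      simp only [sq_norm_coord,
        Complex.sub_re, Complex.sub_im, Complex.smul_re, Complex.smul_im, smul_eq_mul]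
      have hA : (1 + (a.re ^ 2 + a.im ^ 2)) ≠ 0 := by positivity
      have hB : (1 + (b.re ^ 2 + b.im ^ 2)) ≠ 0 := by positivity
      field_simp
      ring

theorem chi_triangle (x y z : OnePoint ℂ) : chi x z ≤ chi x y + chi y z := by
  rw [chi_eq, chi_eq, chi_eq]
  exact dist_triangle _ _ _

theorem chi_comm (x y : OnePoint ℂ) : chi x y = chi y x := by
  rw [chi_eq, chi_eq, dist_comm]

theorem chi_self (x : OnePoint ℂ) : chi x x = 0 := by
  rw [chi_eq, dist_self]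

theorem chi_le (a b : ℂ) : chi (a : OnePoint ℂ) b ≤ ‖a - b‖ := by
  rw [chi_coe]
  refine div_le_self (norm_nonneg _) ?_
  have h1 : 1 ≤ √(1 + ‖a‖ ^ 2) := Real.one_le_sqrt.2 (by nlinarith [sq_nonneg ‖a‖])
  have h2 : 1 ≤ √(1 + ‖b‖ ^ 2) := Real.one_le_sqrt.2 (by nlinarith [sq_nonneg ‖b‖])
  nlinarith

open Classical in
/-- Point of the sphere with homogeneous coordinates `[a : b]`. -/
noncomputable def pt (a b : ℂ) : OnePoint ℂ := if b = 0 then ∞ else ((a / b : ℂ) : OnePoint ℂ)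

theorem sqrt_div (a b : ℂ) (hb : b ≠ 0) : √(1 + ‖a / b‖ ^ 2) = √(‖a‖ ^ 2 + ‖b‖ ^ 2) / ‖b‖ := by
  have hb' : 0 < ‖b‖ := norm_pos_iff.2 hb
  rw [norm_div, show 1 + (‖a‖ / ‖b‖) ^ 2 = (‖a‖ ^ 2 + ‖b‖ ^ 2) / ‖b‖ ^ 2 by field_simp; ring,
    Real.sqrt_div' _ (by positivity), Real.sqrt_sq hb'.le]

theorem chi_pt (a b c d : ℂ) (hab : 0 < ‖a‖ ^ 2 + ‖b‖ ^ 2) (hcd : 0 < ‖c‖ ^ 2 + ‖d‖ ^ 2) :
    chi (pt a b) (pt c d) = ‖a * d - b * c‖ / (√(‖a‖ ^ 2 + ‖b‖ ^ 2) * √(‖c‖ ^ 2 + ‖d‖ ^ 2)) := by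
  have h1 : 0 < √(‖a‖ ^ 2 + ‖b‖ ^ 2) := Real.sqrt_pos.2 hab
  have h2 : 0 < √(‖c‖ ^ 2 + ‖d‖ ^ 2) := Real.sqrt_pos.2 hcd
  by_cases hb : b = 0
  · subst hb
    by_cases hd : d = 0
    · subst hd
      simp [pt, chi_infty_infty]
    · have hd' : 0 < ‖d‖ := norm_pos_iff.2 hd
      have ha : 0 < ‖a‖ := by
        rw [norm_zero] at hab
        by_contra hcon
        have : ‖a‖ = 0 := le_antisymm (not_lt.1 hcon) (norm_nonneg _)
        rw [this] at hab
        norm_num at hab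
      have h3 : √(‖a‖ ^ 2 + ‖(0:ℂ)‖ ^ 2) = ‖a‖ := by
        rw [norm_zero, zero_pow two_ne_zero, add_zero, Real.sqrt_sq ha.le]
      rw [pt, if_pos rfl, pt, if_neg hd, chi_infty_coe, sqrt_div _ _ hd, h3, zero_mul, sub_zero,
        norm_mul]
      field_simp
  · have hb' : 0 < ‖b‖ := norm_pos_iff.2 hb
    by_cases hd : d = 0
    · subst hd
      have hc : 0 < ‖c‖ := by
        rw [norm_zero] at hcd
        by_contra hcon
        have : ‖c‖ = 0 := le_antisymm (not_lt.1 hcon) (norm_nonneg _)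
        rw [this] at hcd
        norm_num at hcd
      have h3 : √(‖c‖ ^ 2 + ‖(0:ℂ)‖ ^ 2) = ‖c‖ := by
        rw [norm_zero, zero_pow two_ne_zero, add_zero, Real.sqrt_sq hc.le]
      rw [pt, if_neg hb, pt, if_pos rfl, chi_coe_infty, sqrt_div _ _ hb, h3, mul_zero, zero_sub,
        norm_neg, norm_mul]
      field_simp
    · have hd' : 0 < ‖d‖ := norm_pos_iff.2 hd
      rw [pt, if_neg hb, pt, if_neg hd, chi_coe, sqrt_div _ _ hb, sqrt_div _ _ hd,
        div_sub_div _ _ hb hd, norm_div, norm_mul]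
      field_simp

theorem chi_pt_le {a b c d : ℂ} {m n : ℝ} (hm : 0 < m) (hn : 0 < n)
    (hab : m ≤ ‖a‖ + ‖b‖) (hcd : n ≤ ‖c‖ + ‖d‖) :
    chi (pt a b) (pt c d) ≤ 4 * ‖a * d - b * c‖ / (m * n) := by
  have key : ∀ x y : ℂ, ∀ t : ℝ, 0 < t → t ≤ ‖x‖ + ‖y‖ →
      0 < ‖x‖ ^ 2 + ‖y‖ ^ 2 ∧ t / 2 ≤ √(‖x‖ ^ 2 + ‖y‖ ^ 2) := by
    intro x y t ht hxy
    have h1 : t ^ 2 ≤ (‖x‖ + ‖y‖) ^ 2 := pow_le_pow_left₀ ht.le hxy 2
    have h2 : (t / 2) ^ 2 ≤ ‖x‖ ^ 2 + ‖y‖ ^ 2 := by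
      nlinarith [sq_nonneg (‖x‖ - ‖y‖), sq_nonneg ‖x‖, sq_nonneg ‖y‖]
    refine ⟨lt_of_lt_of_le (by positivity) h2, ?_⟩
    exact Real.le_sqrt_of_sq_le h2
  obtain ⟨h1, h2⟩ := key a b m hm hab
  obtain ⟨h3, h4⟩ := key c d n hn hcd
  rw [chi_pt a b c d h1 h3]
  have e : 4 * ‖a * d - b * c‖ / (m * n) = ‖a * d - b * c‖ / (m / 2 * (n / 2)) := by
    field_simp
    ring
  rw [e]
  exact div_le_div_of_nonneg_left (norm_nonneg _) (by positivity)
    (mul_le_mul h2 h4 (by positivity) (Real.sqrt_nonneg _))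

theorem sig_continuous_coe : Continuous fun a : ℂ => sig (a : OnePoint ℂ) := by
  have h : Continuous fun a : ℂ => ((((1 + ‖a‖ ^ 2)⁻¹ : ℝ) • a, (1 + ‖a‖ ^ 2)⁻¹) : ℂ × ℝ) := by
    have h1 : Continuous fun a : ℂ => ((1 + ‖a‖ ^ 2)⁻¹ : ℝ) := by
      refine Continuous.inv₀ (by fun_prop) (fun a => ?_)
      positivity
    exact (h1.smul continuous_id).prodMk h1
  exact (WithLp.prod_continuous_toLp 2 ℂ ℝ).comp h

theorem sig_continuous : Continuous sig := by
  rw [OnePoint.continuous_iff]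
  refine ⟨?_, sig_continuous_coe⟩
  rw [coclosedCompact_eq_cocompact, tendsto_iff_dist_tendsto_zero]
  have h1 : Tendsto (fun a : ℂ => ‖a‖) (cocompact ℂ) atTop := tendsto_norm_cocompact_atTop
  have h2 : Tendsto (fun a : ℂ => 1 / √(1 + ‖a‖ ^ 2)) (cocompact ℂ) (𝓝 0) := by
    have h3 : Tendsto (fun a : ℂ => √(1 + ‖a‖ ^ 2)) (cocompact ℂ) atTop := by
      refine tendsto_atTop_mono (fun a => ?_) h1
      exact Real.le_sqrt_of_sq_le (by linarith)
    refine h3.inv_tendsto_atTop.congr fun a => ?_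
    rw [Pi.inv_apply, one_div]
  refine h2.congr fun a => ?_
  rw [← chi_eq, chi_coe_infty]

theorem sig_injective : Function.Injective sig := by
  intro x y h
  have h0 : chi x y = 0 := by rw [chi_eq, h, dist_self]
  induction x using OnePoint.rec with
  | infty =>
    induction y using OnePoint.rec with
    | infty => rfl
    | coe b =>
      rw [chi_infty_coe] at h0
      have : 0 < 1 / √(1 + ‖b‖ ^ 2) := by positivity
      linarith
  | coe a =>
    induction y using OnePoint.rec with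
    | infty =>
      rw [chi_coe_infty] at h0
      have : 0 < 1 / √(1 + ‖a‖ ^ 2) := by positivity
      linarith
    | coe b =>
      rw [chi_coe, div_eq_zero_iff] at h0
      rcases h0 with h0 | h0
      · rw [norm_eq_zero, sub_eq_zero] at h0
        rw [h0]
      · have : 0 < √(1 + ‖a‖ ^ 2) * √(1 + ‖b‖ ^ 2) := by positivity
        linarith

theorem sig_embedding : Topology.IsEmbedding sig :=
  (sig_continuous.isClosedEmbedding sig_injective).isEmbedding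

end Pool.Agent.R237.Chi
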