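import Mathlib

/-! Zeros of holomorphic functions on compact sets and factorisation. -/

set_option autoImplicit false

open Filter Topology Set Metric Complex

namespace Pool.Agent.R237.Fac

theorem fin_zeros {N K : Set ℂ} (hN : IsOpen N) (hK : IsCompact K) (hKN : K ⊆ N) (g : ℂ → ℂ)
    (hg : DifferentiableOn ℂ g N) (hne : ∀ z ∈ N, ¬ ∀ᶠ w in 𝓝 z, g w = 0) :
    {z | z ∈ K ∧ g z = 0}.Finite := by
  by_contra hinf
  obtain ⟨x, hxK, hx⟩ := Set.Infinite.exists_accPt_of_subset_isCompact hinf hK (fun z hz => hz.1)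
  have hxN := hKN hxK
  have han : AnalyticAt ℂ g x := hg.analyticAt (hN.mem_nhds hxN)
  apply hne x hxN
  rw [← han.frequently_zero_iff_eventually_zero]
  rw [accPt_iff_frequently_nhdsNE] at hx
  exact hx.mono fun y hy => hy.2

theorem factor {N : Set ℂ} (hN : IsOpen N) (g : ℂ → ℂ) (hg : DifferentiableOn ℂ g N)
    (hne : ∀ z ∈ N, ¬ ∀ᶠ w in 𝓝 z, g w = 0) (S : Finset ℂ) :
    (∀ a ∈ S, a ∈ N) → ∃ (Z : Polynomial ℂ) (Ψ : ℂ → ℂ), DifferentiableOn ℂ Ψ N ∧
      (∀ z ∈ N, g z = Z.eval z * Ψ z) ∧ (∀ a ∈ S, Ψ a ≠ 0) ∧ (∀ z, Z.eval z = 0 → z ∈ S) := by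
  classical
  induction S using Finset.induction_on with
  | empty =>
    intro _
    exact ⟨1, g, hg, fun z _ => by simp, by simp, by simp⟩
  | insert a S ha ih =>
    intro hS
    obtain ⟨Z, Ψ, hΨ, hgZ, hΨS, hZS⟩ := ih (fun b hb => hS b (Finset.mem_insert_of_mem hb))
    have haN : a ∈ N := hS a (Finset.mem_insert_self a S)
    have han : AnalyticAt ℂ Ψ a := hΨ.analyticAt (hN.mem_nhds haN)
    have hnz : ¬ ∀ᶠ w in 𝓝 a, Ψ w = 0 := by
      intro h
      apply hne a haN
      filter_upwards [h, hN.mem_nhds haN] with w hw hwN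
      rw [hgZ w hwN, hw, mul_zero]
    obtain ⟨n, u, hu, hua, hue⟩ := han.exists_eventuallyEq_pow_smul_nonzero_iff.2 hnz
    refine ⟨Z * (Polynomial.X - Polynomial.C a) ^ n,
      Function.update (fun z => Ψ z / (z - a) ^ n) a (u a), ?_, ?_, ?_, ?_⟩
    · intro z hz
      apply DifferentiableAt.differentiableWithinAt
      by_cases hza : z = a
      · subst hza
        refine DifferentiableAt.congr_of_eventuallyEq hu.differentiableAt ?_
        filter_upwards [hue] with w hw
        by_cases hwz : w = z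
        · subst hwz
          rw [Function.update_self]
        · rw [Function.update_of_ne hwz, hw, smul_eq_mul]
          have : (w - z) ^ n ≠ 0 := pow_ne_zero _ (sub_ne_zero.2 hwz)
          field_simp
      · have h1 : DifferentiableAt ℂ (fun z => Ψ z / (z - a) ^ n) z := by
          refine (hΨ.differentiableAt (hN.mem_nhds hz)).div ?_ (pow_ne_zero _ (sub_ne_zero.2 hza))
          exact (differentiableAt_id.sub_const a).pow n
        refine h1.congr_of_eventuallyEq ?_
        filter_upwards [isOpen_ne.mem_nhds hza] with w hw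
        rw [Function.update_of_ne hw]
    · intro z hz
      rw [Polynomial.eval_mul, Polynomial.eval_pow, Polynomial.eval_sub, Polynomial.eval_X,
        Polynomial.eval_C]
      by_cases hza : z = a
      · subst hza
        rw [Function.update_self, hgZ z hz, hue.self_of_nhds, smul_eq_mul]
        ring
      · rw [Function.update_of_ne hza, hgZ z hz]
        have : (z - a) ^ n ≠ 0 := pow_ne_zero _ (sub_ne_zero.2 hza)
        field_simp
    · intro b hb
      rw [Finset.mem_insert] at hb
      by_cases hba : b = a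
      · subst hba
        rw [Function.update_self]
        exact hua
      · rw [Function.update_of_ne hba]
        refine div_ne_zero ?_ (pow_ne_zero _ (sub_ne_zero.2 hba))
        exact hΨS b (by tauto)
    · intro z hz
      rw [Polynomial.eval_mul, Polynomial.eval_pow, Polynomial.eval_sub, Polynomial.eval_X,
        Polynomial.eval_C, mul_eq_zero] at hz
      rw [Finset.mem_insert]
      rcases hz with h | h
      · exact Or.inr (hZS z h)
      · left
        by_cases hn : n = 0
        · subst hn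
          simp at h
        · exact sub_eq_zero.1 ((pow_eq_zero_iff hn).1 h)

/-- A value avoided on a dense set: gives isolated zeros. -/
theorem good_value {N : Set ℂ} (g : ℂ → ℂ) (r : ℝ) (hr : 0 < r) :
    ∃ c : ℂ, ‖c‖ < r ∧ ∀ z ∈ N, ¬ ∀ᶠ w in 𝓝 z, g w - c = 0 := by
  obtain ⟨s, hs, hsd⟩ := TopologicalSpace.exists_countable_dense ℂ
  have hd : Dense (g '' s)ᶜ := (hs.image g).dense_compl ℂ
  obtain ⟨c, hc1, hc2⟩ := hd.inter_open_nonempty (ball 0 r) isOpen_ball ⟨0, mem_ball_self hr⟩
  refine ⟨c, by simpa using hc1, fun z hz h => ?_⟩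
  obtain ⟨V, hV, hVo, hzV⟩ := _root_.eventually_nhds_iff.1 h
  obtain ⟨q, hqV, hqs⟩ := hsd.inter_open_nonempty V hVo ⟨z, hzV⟩
  apply hc2
  exact ⟨q, hqs, sub_eq_zero.1 (hV q hqV)⟩

end Pool.Agent.R237.Fac
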