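import Mathlib
import Pool.Agent.Helper240.ZFM.Defs
import Pool.Agent.Helper240.ZFM.R1
import Pool.Agent.Helper240.ZFM.R3
import Pool.Agent.Helper240.ZFM.Q5b
import Pool.Agent.R237.Chi
import Pool.Agent.R237.Fac
import Pool.Agent.R237.CT
import Pool.Agent.R237.GZ

/-! Polynomial approximation in the chordal metric. -/

set_option autoImplicit false

open Filter Topology Set Metric Complex
open scoped OnePoint

namespace Pool.Agent.R237.CM

open ZFM Pool.Agent.R237.Chi

/-- the part of `L` where `f` is finite of modulus `≤ c` is compact -/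
theorem compact_le {L : Set ℂ} (hL : IsCompact L) (f : ℂ → OnePoint ℂ) (hf : ContinuousOn f L)
    (c : ℝ) : IsCompact {z | z ∈ L ∧ f z ≠ ∞ ∧ ‖fp (f z)‖ ≤ c} := by
  have h1 : IsClosed (((↑) : ℂ → OnePoint ℂ) '' closedBall 0 c) :=
    OnePoint.isClosed_image_coe.2 ⟨isClosed_closedBall, isCompact_closedBall 0 c⟩
  have h2 := hL.of_isClosed_subset (hf.preimage_isClosed_of_isClosed hL.isClosed h1) inter_subset_left
  convert h2 using 1
  ext z
  constructor
  · rintro ⟨hz, h3, h4⟩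
    exact ⟨hz, fp (f z), by simpa using h4, coe_fp h3⟩
  · rintro ⟨hz, a, ha, hfa⟩
    refine ⟨hz, ?_, ?_⟩
    · rw [← hfa]; exact OnePoint.coe_ne_infty a
    · rw [← hfa]; simpa [fp_coe] using ha

/-- the part of `L` where `f` is infinite or of modulus `≥ c` is compact -/
theorem compact_ge {L : Set ℂ} (hL : IsCompact L) (f : ℂ → OnePoint ℂ) (hf : ContinuousOn f L)
    (c : ℝ) : IsCompact {z | z ∈ L ∧ (f z ≠ ∞ → c ≤ ‖fp (f z)‖)} := by
  have h1 : IsClosed (((↑) : ℂ → OnePoint ℂ) '' ball 0 c)ᶜ :=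
    (OnePoint.isOpen_image_coe.2 isOpen_ball).isClosed_compl
  have h2 := hL.of_isClosed_subset (hf.preimage_isClosed_of_isClosed hL.isClosed h1) inter_subset_left
  convert h2 using 1
  ext z
  constructor
  · rintro ⟨hz, h3⟩
    refine ⟨hz, ?_⟩
    rintro ⟨a, ha, hfa⟩
    have h4 : f z ≠ ∞ := by rw [← hfa]; exact OnePoint.coe_ne_infty a
    have h5 := h3 h4
    rw [← hfa, fp_coe] at h5
    rw [mem_ball_zero_iff] at ha
    linarith
  · rintro ⟨hz, h3⟩
    refine ⟨hz, fun h4 => ?_⟩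
    by_contra hcon
    push Not at hcon
    exact h3 ⟨fp (f z), by simpa using hcon, coe_fp h4⟩

theorem fp_cont {L : Set ℂ} (f : ℂ → OnePoint ℂ) (hf : ContinuousOn f L) :
    ContinuousOn (fun z => fp (f z)) {z | z ∈ L ∧ f z ≠ ∞} := by
  rw [OnePoint.isOpenEmbedding_coe.isEmbedding.isInducing.continuousOn_iff]
  refine (hf.mono (fun z hz => hz.1)).congr fun z hz => ?_
  exact coe_fp hz.2

theorem ne_infty_event {L : Set ℂ} (f : ℂ → OnePoint ℂ) (hf : ContinuousOn f L) {z : ℂ} (hz : z ∈ L)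
    (h : f z ≠ ∞) : ∀ᶠ w in 𝓝[L] z, f w ≠ ∞ :=
  (hf z hz).eventually (OnePoint.isClosed_infty.isOpen_compl.mem_nhds h)

theorem large_event {L : Set ℂ} (f : ℂ → OnePoint ℂ) (hf : ContinuousOn f L) {z : ℂ} (hz : z ∈ L)
    (h : f z = ∞) (R : ℝ) : ∀ᶠ w in 𝓝[L] z, f w = ∞ ∨ R < ‖fp (f w)‖ := by
  have h1 : IsClosed (((↑) : ℂ → OnePoint ℂ) '' closedBall 0 R) :=
    OnePoint.isClosed_image_coe.2 ⟨isClosed_closedBall, isCompact_closedBall 0 R⟩
  have h2 : f z ∈ (((↑) : ℂ → OnePoint ℂ) '' closedBall 0 R)ᶜ := by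
    rw [h]
    exact OnePoint.infty_notMem_image_coe
  filter_upwards [(hf z hz).eventually (h1.isOpen_compl.mem_nhds h2)] with w hw
  by_cases hwi : f w = ∞
  · exact Or.inl hwi
  · right
    by_contra hcon
    push Not at hcon
    exact hw ⟨fp (f w), by simpa using hcon, coe_fp hwi⟩

theorem cutoff {K A : Set ℂ} (hK : IsCompact K) (hA : IsCompact A) (hd : Disjoint K A) :
    ∃ χ : ℂ → ℂ, ContDiff ℝ 1 χ ∧ HasCompactSupport χ ∧ ∃ N T : Set ℂ, IsOpen N ∧ K ⊆ N ∧
      (∀ z ∈ N, χ z = 1) ∧ IsOpen T ∧ A ⊆ T ∧ (∀ z ∈ T, χ z = 0) := by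
  obtain ⟨M, hM, hKM, hMA⟩ := exists_compact_between hK hA.isClosed.isOpen_compl
    (subset_compl_iff_disjoint_right.2 hd)
  obtain ⟨χ, hχ1, hχ0, _⟩ := exists_contMDiffMap_one_nhds_of_subset_interior
    (modelWithCornersSelf ℝ ℂ) (n := 1) hK.isClosed hKM
  have hχc : ContDiff ℝ 1 (fun z : ℂ => χ z) := χ.contMDiff.contDiff
  obtain ⟨N, hN, hKN, hN1⟩ := eventually_nhdsSet_iff_exists.1 hχ1
  refine ⟨fun z => ((χ z : ℝ) : ℂ), ofRealCLM.contDiff.comp hχc, ?_, N, Mᶜ, hN, hKN, ?_,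
    hM.isClosed.isOpen_compl, ?_, ?_⟩
  · exact HasCompactSupport.intro hM fun z hz => by rw [hχ0 z hz]; simp
  · intro z hz
    show ((χ z : ℝ) : ℂ) = 1
    rw [hN1 z hz]; simp
  · exact subset_compl_comm.1 hMA
  · intro z hz
    show ((χ z : ℝ) : ℂ) = 0
    rw [hχ0 z hz]; simp

/-- Make `f` holomorphic near the set where it is small. -/
theorem split_off {L : Set ℂ} (hL : IsCompact L) (hLc : IsConnected Lᶜ) (f : ℂ → OnePoint ℂ)
    (hf : ContinuousOn f L)
    (hfin : ∀ z ∈ interior L, f z ≠ ∞ → DifferentiableAt ℂ (fun w => fp (f w)) z)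
    (η : ℝ) (hη : 0 < η) : ∃ (f₁ Φ : ℂ → ℂ) (N : Set ℂ),
      ContinuousOn f₁ {z | z ∈ L ∧ f z ≠ ∞} ∧ (∀ z ∈ L, f z ≠ ∞ → ‖f₁ z - fp (f z)‖ < η) ∧
      (∀ z ∈ interior L, f z ≠ ∞ → DifferentiableAt ℂ f₁ z) ∧ IsOpen N ∧
      DifferentiableOn ℂ Φ N ∧ (∀ z ∈ L, f z ≠ ∞ → ‖fp (f z)‖ ≤ 1 → z ∈ N) ∧
      (∀ z ∈ L, z ∈ N → f z ≠ ∞ ∧ f₁ z = Φ z) := by
  obtain ⟨F, hFc, hFs, hFK⟩ := ZFM.J_q5b.mg_ext (compact_le hL f hf 3) (fun z => fp (f z))
    ((fp_cont f hf).mono fun z hz => ⟨hz.1, hz.2.1⟩)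
  obtain ⟨χ, hχ, hχs, N, T, hN, hKN, hN1, hT, hAT, hT0⟩ := cutoff (compact_le hL f hf 1)
    (compact_ge hL f hf 2) (by
      rw [Set.disjoint_left]
      rintro z ⟨_, h1, h2⟩ ⟨_, h3⟩
      have := h3 h1
      linarith)
  set u : ℂ → ℂ := fun w => F w * dbar χ w with hu
  have huc : Continuous u := hFc.mul (CT.dbar_cont hχ)
  have hus : HasCompactSupport u := hFs.mul_right
  set s : ℂ → ℂ := fun z => 1 / (Real.pi : ℂ) * CT.CT u z with hs
  have hsc : Continuous s := continuous_const.mul (CT.continuous huc hus)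
  have hsN : DifferentiableOn ℂ s N := by
    refine (CT.holo huc hus hN fun w hw => ?_).const_mul _
    simp only [hu]
    rw [CT.dbar_eq_zero_of_const hN hN1 hw, mul_zero]
  have hsT : DifferentiableOn ℂ s T := by
    refine (CT.holo huc hus hT fun w hw => ?_).const_mul _
    simp only [hu]
    rw [CT.dbar_eq_zero_of_const hT hT0 hw, mul_zero]
  set φ : ℂ → ℂ := fun z => χ z * F z - s z with hφ
  have hφc : Continuous φ := (hχ.continuous.mul hFc).sub hsc
  have hφL : DifferentiableOn ℂ φ (interior L) := by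
    intro z hz
    apply DifferentiableAt.differentiableWithinAt
    by_cases hbig : f z ≠ ∞ → 2 ≤ ‖fp (f z)‖
    · have hzT : z ∈ T := hAT ⟨interior_subset hz, hbig⟩
      have h1 : DifferentiableAt ℂ (fun z => - s z) z := (hsT.differentiableAt (hT.mem_nhds hzT)).neg
      refine h1.congr_of_eventuallyEq ?_
      filter_upwards [hT.mem_nhds hzT] with w hw
      simp only [hφ]
      rw [hT0 w hw]
      ring
    · push Not at hbig
      have hcf : ContinuousOn (fun z => fp (f z)) {z | z ∈ L ∧ f z ≠ ∞} := fp_cont f hf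
      set W : Set ℂ := {z | z ∈ interior L ∧ f z ≠ ∞ ∧ ‖fp (f z)‖ < 3} with hW
      have hWo : IsOpen W := by
        rw [isOpen_iff_mem_nhds]
        rintro w ⟨hw1, hw2, hw3⟩
        have e1 : interior L ∈ 𝓝 w := isOpen_interior.mem_nhds hw1
        have e2 : ∀ᶠ y in 𝓝 w, f y ≠ ∞ := by
          have := ne_infty_event f hf (interior_subset hw1) hw2
          rwa [nhdsWithin_eq_nhds.2 (mem_interior_iff_mem_nhds.1 hw1)] at this
        have e3 : {z | z ∈ L ∧ f z ≠ ∞} ∈ 𝓝 w := by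
          filter_upwards [mem_interior_iff_mem_nhds.1 hw1, e2] with y hy1 hy2
          exact ⟨hy1, hy2⟩
        have e4 : ContinuousAt (fun z => fp (f z)) w := hcf.continuousAt e3
        have e5 : ∀ᶠ y in 𝓝 w, ‖fp (f y)‖ < 3 := e4.norm.eventually_lt_const hw3
        filter_upwards [e1, e2, e5] with y hy1 hy2 hy3
        exact ⟨hy1, hy2, hy3⟩
      have hFW : DifferentiableOn ℂ F W := by
        intro w hw
        refine ((hfin w hw.1 hw.2.1).congr_of_eventuallyEq ?_).differentiableWithinAt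
        filter_upwards [hWo.mem_nhds hw] with y hy
        exact hFK ⟨interior_subset hy.1, hy.2.1, hy.2.2.le⟩
      have h1 := CT.split hFc hχ hχs hWo hFW
      have hzW : z ∈ W := ⟨hz, hbig.1, by linarith [hbig.2]⟩
      exact h1.differentiableAt (hWo.mem_nhds hzW)
  obtain ⟨p, hp⟩ := mergelyan hL hLc φ hφc.continuousOn hφL η hη
  refine ⟨fun z => fp (f z) + (p.eval z - φ z), fun z => p.eval z + s z, N, ?_, ?_, ?_, hN, ?_, ?_, ?_⟩
  · exact (fp_cont f hf).add ((p.continuous.sub hφc).continuousOn)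
  · intro z hz _
    have := hp z hz
    rwa [add_sub_cancel_left]
  · intro z hz hzi
    exact (hfin z hz hzi).add (p.differentiable.differentiableAt.sub
      (hφL.differentiableAt (isOpen_interior.mem_nhds hz)))
  · exact (p.differentiable.differentiableOn).add hsN
  · intro z hz h1 h2
    exact hKN ⟨hz, h1, h2⟩
  · intro z hz hzN
    have h1 : ¬ (f z ≠ ∞ → 2 ≤ ‖fp (f z)‖) := by
      intro h
      have h2 := hT0 z (hAT ⟨hz, h⟩)
      rw [hN1 z hzN] at h2
      exact one_ne_zero h2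
    push Not at h1
    refine ⟨h1.1, ?_⟩
    have h2 : F z = fp (f z) := hFK ⟨hz, h1.1, by linarith [h1.2]⟩
    simp only [hφ]
    rw [hN1 z hzN, h2]
    ring

theorem main_loc {L : Set ℂ} (hL : IsCompact L) (hLc : IsConnected Lᶜ) (f : ℂ → OnePoint ℂ)
    (hf : ContinuousOn f L)
    (hinf : ∀ z ∈ interior L, f z = ∞ → ∀ᶠ w in 𝓝 z, f w = ∞)
    (hfin : ∀ z ∈ interior L, f z ≠ ∞ → DifferentiableAt ℂ (fun w => fp (f w)) z)
    (ε : ℝ) (hε : 0 < ε) : ∃ p : Polynomial ℂ, ∀ z ∈ L, chi (p.eval z : ℂ) (f z) < ε := by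
  classical
  obtain ⟨f₁, Φ, N, hf1c, hf1η, hf1d, hN, hΦ, hsm, hf1Φ⟩ := split_off hL hLc f hf hfin
    (min (1 / 4) (ε / 4)) (by positivity)
  obtain ⟨c, hc, hcN⟩ := Fac.good_value (N := N) Φ (1 / 4) (by norm_num)
  -- the zeros
  have hK2 : IsCompact {z | z ∈ L ∧ f z ≠ ∞ ∧ ‖fp (f z)‖ ≤ 1 / 2} := compact_le hL f hf (1 / 2)
  have hK2N : {z | z ∈ L ∧ f z ≠ ∞ ∧ ‖fp (f z)‖ ≤ 1 / 2} ⊆ N := fun z hz =>
    hsm z hz.1 hz.2.1 (by linarith [hz.2.2])
  have hgd : DifferentiableOn ℂ (fun z => Φ z - c) N := hΦ.sub_const c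
  have hSfin := Fac.fin_zeros hN hK2 hK2N (fun z => Φ z - c) hgd hcN
  obtain ⟨Z, Ψ, hΨ, hZΨ, hΨS, hZS⟩ := Fac.factor hN (fun z => Φ z - c) hgd hcN hSfin.toFinset
    (by intro a ha; rw [Set.Finite.mem_toFinset] at ha; exact hK2N ha.1)
  -- points of L where f₁ = c
  have hSmem : ∀ z ∈ L, f z ≠ ∞ → f₁ z = c → z ∈ hSfin.toFinset := by
    intro z hz hzi hzc
    rw [Set.Finite.mem_toFinset]
    have h1 := hf1η z hz hzi
    have h2 : ‖fp (f z)‖ ≤ 1 / 2 := by
      have h3 : ‖fp (f z)‖ ≤ ‖f₁ z‖ + ‖f₁ z - fp (f z)‖ := by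
        have := norm_sub_le (f₁ z) (f₁ z - fp (f z))
        rwa [sub_sub_cancel] at this
      rw [hzc] at h3 h1
      have h4 := lt_of_lt_of_le h1 (min_le_left _ _)
      linarith
    have h3 : (z ∈ {z | z ∈ L ∧ f z ≠ ∞ ∧ ‖fp (f z)‖ ≤ 1 / 2}) := ⟨hz, hzi, h2⟩
    refine ⟨h3, ?_⟩
    show Φ z - c = 0
    rw [← (hf1Φ z hz (hK2N h3)).2, hzc, sub_self]
  have hSmem' : ∀ z, z ∈ hSfin.toFinset → z ∈ L ∧ z ∈ N ∧ f z ≠ ∞ ∧ f₁ z = c := by
    intro z hz
    rw [Set.Finite.mem_toFinset] at hz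
    have h1 := hK2N hz.1
    have h2 := hf1Φ z hz.1.1 h1
    refine ⟨hz.1.1, h1, hz.1.2.1, ?_⟩
    rw [h2.2]
    exact sub_eq_zero.1 hz.2
  set h : ℂ → ℂ := fun z => if f z = ∞ then 0 else if f₁ z = c then (Ψ z)⁻¹
    else Z.eval z / (f₁ z - c) with hh
  have hh_inf : ∀ z, f z = ∞ → h z = 0 := by
    intro z hz
    simp only [hh]
    rw [if_pos hz]
  have hh_S : ∀ z, f z ≠ ∞ → f₁ z = c → h z = (Ψ z)⁻¹ := by
    intro z hz hzc
    simp only [hh]
    rw [if_neg hz, if_pos hzc]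
  have hh_q : ∀ z, f z ≠ ∞ → f₁ z ≠ c → h z = Z.eval z / (f₁ z - c) := by
    intro z hz hzc
    simp only [hh]
    rw [if_neg hz, if_neg hzc]
  have hh_Ψ : ∀ z ∈ L, z ∈ N → Ψ z ≠ 0 → h z = (Ψ z)⁻¹ := by
    intro z hz hzN hΨz
    obtain ⟨h1, h2⟩ := hf1Φ z hz hzN
    by_cases hzc : f₁ z = c
    · exact hh_S z h1 hzc
    · rw [hh_q z h1 hzc]
      have h3 : f₁ z - c = Z.eval z * Ψ z := by rw [h2]; exact hZΨ z hzN
      have h4 : Z.eval z ≠ 0 := by
        intro h0
        rw [h0, zero_mul] at h3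
        exact hzc (sub_eq_zero.1 h3)
      rw [h3]
      field_simp
  obtain ⟨M, hM⟩ := hL.exists_bound_of_continuousOn (f := fun z => Z.eval z) Z.continuous.continuousOn
  -- continuity of h
  have hhc : ContinuousOn h L := by
    intro z hz
    by_cases hzi : f z = ∞
    · unfold ContinuousWithinAt
      rw [hh_inf z hzi, Metric.tendsto_nhds]
      intro δ hδ
      have hM0 : 0 ≤ M := (norm_nonneg _).trans (hM z hz)
      filter_upwards [large_event f hf hz hzi (M / δ + 1), self_mem_nhdsWithin] with w hw hwL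
      rw [dist_zero_right]
      by_cases hwi : f w = ∞
      · rw [hh_inf w hwi, norm_zero]; exact hδ
      · rcases hw with hw | hw
        · exact absurd hw hwi
        have h1 := hf1η w hwL hwi
        have h1' := lt_of_lt_of_le h1 (min_le_left _ _)
        have h2 : M / δ + 1 / 2 < ‖f₁ w - c‖ := by
          have h3 : ‖fp (f w)‖ ≤ ‖f₁ w - c‖ + ‖c‖ + ‖f₁ w - fp (f w)‖ := by
            have e : fp (f w) = (f₁ w - c) + c - (f₁ w - fp (f w)) := by ring
            calc ‖fp (f w)‖ = ‖(f₁ w - c) + c - (f₁ w - fp (f w))‖ := by rw [← e]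
              _ ≤ ‖(f₁ w - c) + c‖ + ‖f₁ w - fp (f w)‖ := norm_sub_le _ _
              _ ≤ _ := by gcongr; exact norm_add_le _ _
          linarith
        have hpos : 0 ≤ M / δ := by positivity
        have hne : f₁ w ≠ c := by
          intro h0
          rw [h0, sub_self, norm_zero] at h2
          linarith
        rw [hh_q w hwi hne, norm_div, div_lt_iff₀ (by linarith)]
        have h4 : M < δ * ‖f₁ w - c‖ := by
          have : M / δ < ‖f₁ w - c‖ := by linarith
          rw [div_lt_iff₀ hδ] at this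
          linarith
        exact lt_of_le_of_lt (hM w hwL) h4
    · by_cases hzc : f₁ z = c
      · have h1 := hSmem z hz hzi hzc
        have hzN : z ∈ N := (hSmem' z h1).2.1
        have hΨz : Ψ z ≠ 0 := hΨS z h1
        have hΨc : ContinuousAt Ψ z := (hΨ.differentiableAt (hN.mem_nhds hzN)).continuousAt
        have h2 : ContinuousWithinAt (fun w => (Ψ w)⁻¹) L z := (hΨc.inv₀ hΨz).continuousWithinAt
        refine h2.congr_of_eventuallyEq ?_ (hh_Ψ z hz hzN hΨz)
        filter_upwards [self_mem_nhdsWithin, mem_nhdsWithin_of_mem_nhds (hN.mem_nhds hzN),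
          mem_nhdsWithin_of_mem_nhds (hΨc.eventually_ne hΨz)] with w h3 h4 h5
        exact hh_Ψ w h3 h4 h5
      · have h1 : ContinuousWithinAt f₁ L z := by
          have := hf1c z ⟨hz, hzi⟩
          refine this.mono_of_mem_nhdsWithin ?_
          filter_upwards [self_mem_nhdsWithin, ne_infty_event f hf hz hzi] with w h3 h4
          exact ⟨h3, h4⟩
        have h2 : ContinuousWithinAt (fun w => Z.eval w / (f₁ w - c)) L z :=
          (Z.continuous.continuousWithinAt).div (h1.sub continuousWithinAt_const)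
            (sub_ne_zero.2 hzc)
        refine h2.congr_of_eventuallyEq ?_ (hh_q z hzi hzc)
        filter_upwards [ne_infty_event f hf hz hzi, h1.eventually_ne hzc] with w h3 h4
        exact hh_q w h3 h4
  -- differentiability of h
  have hhd : DifferentiableOn ℂ h (interior L) := by
    intro z hz
    apply DifferentiableAt.differentiableWithinAt
    have hzL : L ∈ 𝓝 z := mem_interior_iff_mem_nhds.1 hz
    by_cases hzi : f z = ∞
    · have h1 : h =ᶠ[𝓝 z] fun _ => 0 := by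
        filter_upwards [hinf z hz hzi] with w hw
        exact hh_inf w hw
      exact (differentiableAt_const (0 : ℂ)).congr_of_eventuallyEq h1
    · by_cases hzc : f₁ z = c
      · have h1 := hSmem z (interior_subset hz) hzi hzc
        have hzN : z ∈ N := (hSmem' z h1).2.1
        have hΨz : Ψ z ≠ 0 := hΨS z h1
        have hΨd : DifferentiableAt ℂ Ψ z := hΨ.differentiableAt (hN.mem_nhds hzN)
        have h2 : DifferentiableAt ℂ (fun w => (Ψ w)⁻¹) z := hΨd.fun_inv hΨz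
        refine h2.congr_of_eventuallyEq ?_
        filter_upwards [hzL, hN.mem_nhds hzN, hΨd.continuousAt.eventually_ne hΨz] with w h3 h4 h5
        exact hh_Ψ w h3 h4 h5
      · have hd := hf1d z hz hzi
        have h2 : DifferentiableAt ℂ (fun w => Z.eval w / (f₁ w - c)) z :=
          (Z.differentiable.differentiableAt).fun_div (hd.sub_const c) (sub_ne_zero.2 hzc)
        refine h2.congr_of_eventuallyEq ?_
        have h3 : ∀ᶠ w in 𝓝 z, f w ≠ ∞ := by
          have := ne_infty_event f hf (interior_subset hz) hzi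
          rwa [nhdsWithin_eq_nhds.2 hzL] at this
        filter_upwards [h3, hd.continuousAt.eventually_ne hzc] with w h4 h5
        exact hh_q w h4 h5
  -- zeros of h
  have hhZ : ∀ z ∈ L, f z ≠ ∞ → h z ≠ 0 := by
    intro z hz hzi
    by_cases hzc : f₁ z = c
    · have h1 := hSmem z hz hzi hzc
      rw [hh_S z hzi hzc]
      exact inv_ne_zero (hΨS z h1)
    · rw [hh_q z hzi hzc]
      refine div_ne_zero (fun h0 => ?_) (sub_ne_zero.2 hzc)
      exact hzc (hSmem' z (hZS z h0)).2.2.2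
  have hhz : ∀ z ∈ interior L, h z = 0 → ∀ᶠ w in 𝓝 z, h w = 0 := by
    intro z hz h0
    by_cases hzi : f z = ∞
    · filter_upwards [hinf z hz hzi] with w hw
      exact hh_inf w hw
    · exact absurd h0 (hhZ z (interior_subset hz) hzi)
  -- lower bound
  obtain ⟨μ, hμ, hμL⟩ : ∃ μ : ℝ, 0 < μ ∧ ∀ z ∈ L, 2 * μ ≤ ‖h z‖ + ‖Z.eval z‖ := by
    have hcont : ContinuousOn (fun z => ‖h z‖ + ‖Z.eval z‖) L :=
      hhc.norm.add Z.continuous.norm.continuousOn
    have hpos : ∀ z ∈ L, 0 < ‖h z‖ + ‖Z.eval z‖ := by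
      intro z hz
      by_cases hzi : f z = ∞
      · have : Z.eval z ≠ 0 := by
          intro h0
          exact (hSmem' z (hZS z h0)).2.2.1 hzi
        have h1 : 0 < ‖Z.eval z‖ := norm_pos_iff.2 this
        positivity
      · have h1 : 0 < ‖h z‖ := norm_pos_iff.2 (hhZ z hz hzi)
        positivity
    rcases L.eq_empty_or_nonempty with hLe | hLne
    · exact ⟨1, one_pos, fun z hz => by rw [hLe] at hz; exact absurd hz (notMem_empty z)⟩
    · obtain ⟨z0, hz0, hmin⟩ := hL.exists_isMinOn hLne hcont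
      refine ⟨(‖h z0‖ + ‖Z.eval z0‖) / 2, by linarith [hpos z0 hz0], fun z hz => ?_⟩
      have := hmin hz
      simp only [mem_ofPred_eq] at this
      linarith
  -- approximations
  have hM1 : 0 < |M| + 1 := by positivity
  set ε' : ℝ := min μ (ε * μ ^ 2 / (64 * (|M| + 1))) with hε'
  have hε'0 : 0 < ε' := by rw [hε']; positivity
  obtain ⟨Q, hQ0, hQ⟩ := GZ.zero_free_of_approx hL hLc h hhc hhd hhz
    (fun δ hδ => mergelyan hL hLc h hhc hhd δ hδ) ε' hε'0
  have hUo : IsOpen {z : ℂ | Q.eval z ≠ 0} := isOpen_ne_fun Q.continuous continuous_const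
  obtain ⟨P, hP⟩ := runge hL hLc hUo (fun z hz => hQ0 z hz) (fun z => c + Z.eval z / Q.eval z)
    (by
      refine DifferentiableOn.const_add _ ?_
      exact (Z.differentiable.differentiableOn).fun_div Q.differentiable.differentiableOn
        (fun z hz => hz)) (ε / 4) (by linarith)
  refine ⟨P, fun z hz => ?_⟩
  have hQz := hQ0 z hz
  have hQhz := hQ z hz
  have hμz := hμL z hz
  -- homogeneous coordinates
  have e1 : ((c + Z.eval z / Q.eval z : ℂ) : OnePoint ℂ) = pt (c * Q.eval z + Z.eval z) (Q.eval z) := by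
    rw [pt, if_neg hQz]
    congr 1
    field_simp
  set F1 : OnePoint ℂ := if f z = ∞ then ∞ else ((f₁ z : ℂ) : OnePoint ℂ) with hF1
  have e2 : F1 = pt (c * h z + Z.eval z) (h z) := by
    rw [hF1]
    by_cases hzi : f z = ∞
    · rw [if_pos hzi, hh_inf z hzi, pt, if_pos rfl]
    · rw [if_neg hzi, pt, if_neg (hhZ z hz hzi)]
      congr 1
      have hh0 := hhZ z hz hzi
      by_cases hzc : f₁ z = c
      · have hZ0 : Z.eval z = 0 := by
          have h1 := hSmem z hz hzi hzc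
          have h2 := hZΨ z (hSmem' z h1).2.1
          have h3 := hf1Φ z hz (hSmem' z h1).2.1
          simp only [← h3.2, hzc, sub_self] at h2
          rcases mul_eq_zero.1 h2.symm with h4 | h4
          · exact h4
          · exact absurd h4 (hΨS z h1)
        rw [hZ0, add_zero, hzc]
        field_simp
      · have h1 := hh_q z hzi hzc
        have h2 : f₁ z - c ≠ 0 := sub_ne_zero.2 hzc
        rw [eq_div_iff hh0]
        have h3 : h z * (f₁ z - c) = Z.eval z := by
          rw [h1]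
          field_simp
        linear_combination h3
  have hc1 : ‖c‖ < 1 / 4 := hc
  have key : ∀ y : ℂ, ‖y‖ + ‖Z.eval z‖ ≤ 2 * (‖c * y + Z.eval z‖ + ‖y‖) := by
    intro y
    have h1 : ‖Z.eval z‖ ≤ ‖c * y + Z.eval z‖ + ‖c‖ * ‖y‖ := by
      have := norm_sub_le (c * y + Z.eval z) (c * y)
      rw [add_sub_cancel_left, norm_mul] at this
      exact this
    have h2 : ‖c‖ * ‖y‖ ≤ 1 / 4 * ‖y‖ := mul_le_mul_of_nonneg_right hc1.le (norm_nonneg _)
    have h3 := norm_nonneg (c * y + Z.eval z)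
    have h4 := norm_nonneg y
    linarith
  have b1 : chi ((c + Z.eval z / Q.eval z : ℂ) : OnePoint ℂ) F1 ≤ ε / 4 := by
    rw [e1, e2]
    have k1 := key (h z)
    have k2 := key (Q.eval z)
    have k3 : ‖h z‖ ≤ ‖Q.eval z‖ + ε' := by
      have := norm_sub_le (Q.eval z) (Q.eval z - h z)
      rw [sub_sub_cancel] at this
      linarith
    have k4 : ε' ≤ μ := min_le_left _ _
    have k5 : ε' ≤ ε * μ ^ 2 / (64 * (|M| + 1)) := min_le_right _ _
    refine (chi_pt_le (m := μ / 2) (n := μ) (by positivity) hμ (by linarith) (by linarith)).trans ?_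
    have k6 : (c * Q.eval z + Z.eval z) * h z - Q.eval z * (c * h z + Z.eval z)
        = - (Z.eval z * (Q.eval z - h z)) := by ring
    rw [k6, norm_neg, norm_mul]
    have k7 : ‖Z.eval z‖ ≤ |M| + 1 := (hM z hz).trans ((le_abs_self M).trans (by linarith))
    have k8 : ‖Z.eval z‖ * ‖Q.eval z - h z‖ ≤ (|M| + 1) * ε' :=
      mul_le_mul k7 hQhz.le (norm_nonneg _) hM1.le
    have k9 : (|M| + 1) * ε' ≤ ε * μ ^ 2 / 64 := by
      calc (|M| + 1) * ε' ≤ (|M| + 1) * (ε * μ ^ 2 / (64 * (|M| + 1))) :=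
            mul_le_mul_of_nonneg_left k5 hM1.le
        _ = ε * μ ^ 2 / 64 := by field_simp
    rw [div_le_iff₀ (by positivity)]
    nlinarith [mul_pos hε (pow_pos hμ 2)]
  have b2 : chi ((P.eval z : ℂ) : OnePoint ℂ) ((c + Z.eval z / Q.eval z : ℂ) : OnePoint ℂ) < ε / 4 := by
    refine (chi_le _ _).trans_lt ?_
    have := hP z hz
    rwa [norm_sub_rev]
  have b3 : chi F1 (f z) ≤ ε / 4 := by
    rw [hF1]
    by_cases hzi : f z = ∞
    · rw [if_pos hzi, hzi, chi_infty_infty]; linarith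
    · rw [if_neg hzi]
      have h1 := hf1η z hz hzi
      have h2 := chi_le (f₁ z) (fp (f z))
      rw [coe_fp hzi] at h2
      exact h2.trans (h1.le.trans (min_le_right _ _))
  have t1 := chi_triangle ((P.eval z : ℂ) : OnePoint ℂ) ((c + Z.eval z / Q.eval z : ℂ) : OnePoint ℂ) (f z)
  have t2 := chi_triangle ((c + Z.eval z / Q.eval z : ℂ) : OnePoint ℂ) F1 (f z)
  linarith

end Pool.Agent.R237.CM
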