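import Mathlib

/-! The complement of a sequence of disjoint closed discs converging to a point is connected. -/

set_option autoImplicit false

open Filter Topology Set Metric Complex

namespace Pool.Agent.R237.Discs

theorem preconn_polar (c : ℂ) (S : Set ℝ) (hS : IsPreconnected S) (hS0 : ∀ t ∈ S, 0 ≤ t) :
    IsPreconnected {z : ℂ | ‖z - c‖ ∈ S} := by
  have h1 : IsPreconnected (S ×ˢ (univ : Set ℝ)) := hS.prod isPreconnected_univ
  have h2 : Continuous fun q : ℝ × ℝ => c + (q.1 : ℂ) * exp (q.2 * I) := by fun_prop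
  have h3 := h1.image _ h2.continuousOn
  convert h3 using 1
  ext z
  simp only [mem_ofPred_eq, mem_image, mem_prod, mem_univ, and_true, Prod.exists]
  constructor
  · intro hz
    refine ⟨‖z - c‖, arg (z - c), hz, ?_⟩
    rw [norm_mul_exp_arg_mul_I]
    ring
  · rintro ⟨a, b, ha, rfl⟩
    rw [add_sub_cancel_left, norm_mul, norm_exp_ofReal_mul_I, mul_one, Complex.norm_real,
      Real.norm_of_nonneg (hS0 a ha)]
    exact ha

theorem annulus_preconn (c : ℂ) {a b : ℝ} (ha : 0 ≤ a) : IsPreconnected {z : ℂ | ‖z - c‖ ∈ Ioo a b} :=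
  preconn_polar c _ isPreconnected_Ioo (fun _ ht => ha.trans ht.1.le)

theorem exterior_preconn (c : ℂ) {a : ℝ} (ha : 0 ≤ a) : IsPreconnected (closedBall c a)ᶜ := by
  have h := preconn_polar c (Ioi a) isPreconnected_Ioi (fun _ ht => ha.trans (le_of_lt ht))
  convert h using 1
  ext z
  simp only [mem_compl_iff, mem_closedBall, dist_eq_norm, not_le, mem_ofPred_eq, mem_Ioi]

/-- Removing discs from a connected open set. -/
theorem remove_discs {ι : Type*} (I : Set ι) (c : ι → ℂ) (r r' : ι → ℝ) (hr : ∀ i ∈ I, 0 ≤ r i)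
    (hrr : ∀ i ∈ I, r i < r' i) {U : Set ℂ} (hUc : IsPreconnected U)
    (hNU : ∀ i ∈ I, ball (c i) (r' i) ⊆ U)
    (hND : ∀ i ∈ I, ∀ j ∈ I, i ≠ j → Disjoint (ball (c i) (r' i)) (closedBall (c j) (r j)))
    (hO : IsOpen (U \ ⋃ i ∈ I, closedBall (c i) (r i))) :
    IsPreconnected (U \ ⋃ i ∈ I, closedBall (c i) (r i)) := by
  set V := U \ ⋃ i ∈ I, closedBall (c i) (r i) with hV
  have hann : ∀ i ∈ I, {z : ℂ | ‖z - c i‖ ∈ Ioo (r i) (r' i)} ⊆ V := by
    intro i hi z hz
    have hzb : z ∈ ball (c i) (r' i) := by rw [mem_ball, dist_eq_norm]; exact hz.2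
    refine ⟨hNU i hi hzb, ?_⟩
    simp only [mem_iUnion, not_exists]
    intro j hj hzj
    by_cases hij : i = j
    · subst hij
      rw [mem_closedBall, dist_eq_norm] at hzj
      exact absurd hz.1 (not_lt.2 hzj)
    · exact Set.disjoint_left.1 (hND i hi j hj hij) hzb hzj
  have hannne : ∀ i ∈ I, ({z : ℂ | ‖z - c i‖ ∈ Ioo (r i) (r' i)} : Set ℂ).Nonempty := by
    intro i hi
    refine ⟨c i + (((r i + r' i) / 2 : ℝ) : ℂ), ?_⟩
    have h1 := hr i hi
    have h2 := hrr i hi
    simp only [mem_ofPred_eq]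
    rw [add_sub_cancel_left, Complex.norm_real, Real.norm_of_nonneg (by linarith)]
    constructor <;> linarith
  intro A B hA hB hAB hVA hVB
  by_contra hcon
  rw [Set.not_nonempty_iff_eq_empty] at hcon
  have hemp : ∀ z ∈ V, z ∈ A → z ∈ B → False := by
    intro z hz hzA hzB
    have : z ∈ V ∩ (A ∩ B) := ⟨hz, hzA, hzB⟩
    rw [hcon] at this
    exact this
  have hside : ∀ i ∈ I, {z : ℂ | ‖z - c i‖ ∈ Ioo (r i) (r' i)} ⊆ A ∨
      {z : ℂ | ‖z - c i‖ ∈ Ioo (r i) (r' i)} ⊆ B := by
    intro i hi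
    rcases isPreconnected_iff_subset_of_disjoint.1 (annulus_preconn (c i) (b := r' i) (hr i hi)) A B
      hA hB ((hann i hi).trans hAB) (by
        rw [← Set.subset_empty_iff, ← hcon]
        exact inter_subset_inter_left _ (hann i hi)) with h | h
    · exact Or.inl h
    · exact Or.inr h
  set A' : Set ℂ := (V ∩ A) ∪ ⋃ i ∈ {i | i ∈ I ∧ {z : ℂ | ‖z - c i‖ ∈ Ioo (r i) (r' i)} ⊆ A},
    ball (c i) (r' i) with hA'
  set B' : Set ℂ := (V ∩ B) ∪ ⋃ i ∈ {i | i ∈ I ∧ {z : ℂ | ‖z - c i‖ ∈ Ioo (r i) (r' i)} ⊆ B},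
    ball (c i) (r' i) with hB'
  have hA'o : IsOpen A' := (hO.inter hA).union (isOpen_biUnion fun i _ => isOpen_ball)
  have hB'o : IsOpen B' := (hO.inter hB).union (isOpen_biUnion fun i _ => isOpen_ball)
  have hcov : U ⊆ A' ∪ B' := by
    intro z hz
    by_cases hzV : z ∈ V
    · rcases hAB hzV with h | h
      · exact Or.inl (Or.inl ⟨hzV, h⟩)
      · exact Or.inr (Or.inl ⟨hzV, h⟩)
    · have h1 : z ∈ ⋃ i ∈ I, closedBall (c i) (r i) := by
        by_contra h
        exact hzV ⟨hz, h⟩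
      simp only [mem_iUnion, exists_prop] at h1
      obtain ⟨i, hi, hzi⟩ := h1
      have hzb : z ∈ ball (c i) (r' i) := closedBall_subset_ball (hrr i hi) hzi
      rcases hside i hi with h | h
      · left; right
        simp only [mem_iUnion, exists_prop]
        exact ⟨i, ⟨hi, h⟩, hzb⟩
      · right; right
        simp only [mem_iUnion, exists_prop]
        exact ⟨i, ⟨hi, h⟩, hzb⟩
  obtain ⟨a, haV, haA⟩ := hVA
  obtain ⟨b, hbV, hbB⟩ := hVB
  obtain ⟨x, hxU, hxA, hxB⟩ := hUc A' B' hA'o hB'o hcov ⟨a, haV.1, Or.inl ⟨haV, haA⟩⟩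
    ⟨b, hbV.1, Or.inl ⟨hbV, hbB⟩⟩
  -- a point of V in a ball of type A lies in A
  have hmem : ∀ i ∈ I, ∀ S : Set ℂ, {z : ℂ | ‖z - c i‖ ∈ Ioo (r i) (r' i)} ⊆ S → x ∈ ball (c i) (r' i) →
      x ∉ closedBall (c i) (r i) → x ∈ S := by
    intro i hi S hS h1 h2
    apply hS
    rw [mem_ball, dist_eq_norm] at h1
    rw [mem_closedBall, dist_eq_norm, not_le] at h2
    exact ⟨h2, h1⟩
  have hnotD : x ∈ V → ∀ i ∈ I, x ∉ closedBall (c i) (r i) := by
    intro hxV i hi hxi
    apply hxV.2
    simp only [mem_iUnion, exists_prop]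
    exact ⟨i, hi, hxi⟩
  rcases hxA with hxA | hxA
  · rcases hxB with hxB | hxB
    · exact hemp x hxA.1 hxA.2 hxB.2
    · simp only [mem_iUnion, exists_prop] at hxB
      obtain ⟨i, ⟨hi, hiB⟩, hxi⟩ := hxB
      exact hemp x hxA.1 hxA.2 (hmem i hi B hiB hxi (hnotD hxA.1 i hi))
  · simp only [mem_iUnion, exists_prop] at hxA
    obtain ⟨i, ⟨hi, hiA⟩, hxi⟩ := hxA
    rcases hxB with hxB | hxB
    · exact hemp x hxB.1 (hmem i hi A hiA hxi (hnotD hxB.1 i hi)) hxB.2
    · simp only [mem_iUnion, exists_prop] at hxB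
      obtain ⟨j, ⟨hj, hjB⟩, hxj⟩ := hxB
      have hij : i ≠ j := by
        rintro rfl
        obtain ⟨y, hy⟩ := hannne i hi
        exact hemp y (hann i hi hy) (hiA hy) (hjB hy)
      have h1 : x ∉ closedBall (c j) (r j) := fun h =>
        Set.disjoint_left.1 (hND i hi j hj hij) hxi h
      have h2 : x ∉ closedBall (c i) (r i) := fun h =>
        Set.disjoint_left.1 (hND j hj i hi hij.symm) hxj h
      have h3 := hmem i hi A hiA hxi h2
      have h4 := hmem j hj B hjB hxj h1
      have h5 : x ∈ V := by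
        apply hann i hi
        rw [mem_ball, dist_eq_norm] at hxi
        rw [mem_closedBall, dist_eq_norm, not_le] at h2
        exact ⟨h2, hxi⟩
      exact hemp x h5 h3 h4

/-- A subfamily of the discs together with the limit point is closed. -/
theorem closed_sub (c : ℕ → ℂ) (r : ℕ → ℝ) (P : ℂ)
    (hconv : ∀ ε > 0, ∃ N : ℕ, ∀ n ≥ N, ∀ z ∈ closedBall (c n) (r n), ‖z - P‖ < ε) (J : Set ℕ) :
    IsClosed (insert P (⋃ n ∈ J, closedBall (c n) (r n))) := by
  rw [← isOpen_compl_iff, isOpen_iff_mem_nhds]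
  intro z hz
  have hzP : z ≠ P := fun h => hz (by rw [h]; exact mem_insert _ _)
  have hzD : ∀ n ∈ J, z ∉ closedBall (c n) (r n) := by
    intro n hn h
    apply hz
    right
    simp only [mem_iUnion, exists_prop]
    exact ⟨n, hn, h⟩
  have hd : 0 < ‖z - P‖ := norm_pos_iff.2 (sub_ne_zero.2 hzP)
  obtain ⟨N, hN⟩ := hconv (‖z - P‖ / 2) (by linarith)
  have h1 : ball z (‖z - P‖ / 2) ∈ 𝓝 z := ball_mem_nhds z (by linarith)
  have h2 : ∀ᶠ w in 𝓝 z, ∀ n ∈ {n | n < N ∧ n ∈ J}, w ∉ closedBall (c n) (r n) := by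
    rw [Filter.eventually_all_finite ((Set.finite_lt_nat N).subset fun n hn => hn.1)]
    intro n hn
    exact isClosed_closedBall.isOpen_compl.mem_nhds (hzD n hn.2)
  filter_upwards [h1, h2] with w hw1 hw2
  rw [mem_compl_iff, mem_insert_iff, not_or]
  rw [mem_ball, dist_eq_norm] at hw1
  constructor
  · rintro rfl
    rw [norm_sub_rev] at hw1
    linarith
  · simp only [mem_iUnion, exists_prop, not_exists, not_and]
    intro n hn hwn
    by_cases hnN : n < N
    · exact hw2 n ⟨hnN, hn⟩ hwn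
    · have h3 := hN n (not_lt.1 hnN) w hwn
      have h4 : ‖z - P‖ ≤ ‖w - z‖ + ‖w - P‖ := by
        have : z - P = (w - P) - (w - z) := by ring
        rw [this]
        exact (norm_sub_le _ _).trans (by linarith)
      linarith

theorem compact_all (c : ℕ → ℂ) (r : ℕ → ℝ) (P : ℂ)
    (hconv : ∀ ε > 0, ∃ N : ℕ, ∀ n ≥ N, ∀ z ∈ closedBall (c n) (r n), ‖z - P‖ < ε) :
    IsCompact (insert P (⋃ n, closedBall (c n) (r n))) := by
  refine Metric.isCompact_of_isClosed_isBounded ?_ ?_
  · have := closed_sub c r P hconv univ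
    simpa using this
  · obtain ⟨N, hN⟩ := hconv 1 one_pos
    have h1 : insert P (⋃ n, closedBall (c n) (r n)) ⊆
        closedBall P 1 ∪ ⋃ n ∈ {n | n < N}, closedBall (c n) (r n) := by
      intro z hz
      rcases hz with rfl | hz
      · exact Or.inl (mem_closedBall_self zero_le_one)
      · simp only [mem_iUnion] at hz
        obtain ⟨n, hn⟩ := hz
        by_cases hnN : n < N
        · right
          simp only [mem_iUnion, exists_prop]
          exact ⟨n, hnN, hn⟩
        · left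
          rw [mem_closedBall, dist_eq_norm]
          exact (hN n (not_lt.1 hnN) z hn).le
    refine Bornology.IsBounded.subset ?_ h1
    refine isBounded_closedBall.union ?_
    exact (Bornology.isBounded_biUnion (Set.finite_lt_nat N)).2 fun n _ => isBounded_closedBall

theorem connected_compl (c : ℕ → ℂ) (r : ℕ → ℝ) (hr : ∀ n, 0 < r n) (P : ℂ)
    (hdisj : ∀ n m, n ≠ m → Disjoint (closedBall (c n) (r n)) (closedBall (c m) (r m)))
    (hconv : ∀ ε > 0, ∃ N : ℕ, ∀ n ≥ N, ∀ z ∈ closedBall (c n) (r n), ‖z - P‖ < ε) :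
    IsConnected (insert P (⋃ n, closedBall (c n) (r n)))ᶜ := by
  have hLc := compact_all c r P hconv
  refine ⟨?_, ?_⟩
  · rw [nonempty_compl]
    intro h
    rw [h] at hLc
    exact NoncompactSpace.noncompact_univ hLc
  set I : Set ℕ := {n | P ∉ closedBall (c n) (r n)} with hI
  -- larger balls
  have hbig : ∀ n ∈ I, ∃ r' : ℝ, r n < r' ∧
      Disjoint (ball (c n) r') (insert P (⋃ m ∈ {m | m ≠ n}, closedBall (c m) (r m))) := by
    intro n hn
    have hcl := closed_sub c r P hconv {m | m ≠ n}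
    have hsub : closedBall (c n) (r n) ⊆ (insert P (⋃ m ∈ {m | m ≠ n}, closedBall (c m) (r m)))ᶜ := by
      intro z hz hz2
      rcases hz2 with rfl | hz2
      · exact hn hz
      · simp only [mem_iUnion, exists_prop] at hz2
        obtain ⟨m, hm, hzm⟩ := hz2
        exact Set.disjoint_left.1 (hdisj m n hm) hzm hz
    obtain ⟨δ, hδ, hth⟩ := (isCompact_closedBall (c n) (r n)).exists_thickening_subset_open
      hcl.isOpen_compl hsub
    rw [thickening_closedBall hδ (hr n).le] at hth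
    exact ⟨δ + r n, by linarith, Set.disjoint_left.2 fun z hz1 hz2 => hth hz1 hz2⟩
  choose! r' hr' hr'd using hbig
  have hND : ∀ i ∈ I, ∀ j ∈ I, i ≠ j → Disjoint (ball (c i) (r' i)) (closedBall (c j) (r j)) := by
    intro i hi j _ hij
    refine (hr'd i hi).mono_right ?_
    intro z hz
    right
    simp only [mem_iUnion, exists_prop]
    exact ⟨j, hij.symm, hz⟩
  by_cases hP : ∃ m, P ∈ closedBall (c m) (r m)
  · obtain ⟨m, hm⟩ := hP
    have hmI : ∀ n, n ∈ I ↔ n ≠ m := by
      intro n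
      constructor
      · rintro h rfl
        exact h hm
      · intro h hn
        exact Set.disjoint_left.1 (hdisj n m h) hn hm
    have e : (insert P (⋃ n, closedBall (c n) (r n)))ᶜ =
        (closedBall (c m) (r m))ᶜ \ ⋃ i ∈ I, closedBall (c i) (r i) := by
      ext z
      simp only [mem_compl_iff, mem_insert_iff, mem_iUnion, Set.mem_sdiff, exists_prop, not_or,
        not_exists, not_and]
      constructor
      · rintro ⟨_, h2⟩
        exact ⟨h2 m, fun n _ => h2 n⟩
      · rintro ⟨h1, h2⟩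
        refine ⟨?_, fun n => ?_⟩
        · rintro rfl
          exact h1 hm
        · by_cases hnm : n = m
          · rw [hnm]; exact h1
          · exact h2 n ((hmI n).2 hnm)
    have hO : IsOpen (insert P (⋃ n, closedBall (c n) (r n)))ᶜ := hLc.isClosed.isOpen_compl
    rw [e] at hO ⊢
    refine remove_discs I c r r' (fun i _ => (hr i).le) hr' (exterior_preconn _ (hr m).le) ?_ hND hO
    intro i hi z hz hzm
    refine Set.disjoint_left.1 (hr'd i hi) hz ?_
    right
    simp only [mem_iUnion, exists_prop]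
    exact ⟨m, fun h => (hmI i).1 hi h.symm, hzm⟩
  · push Not at hP
    have e : (insert P (⋃ n, closedBall (c n) (r n)))ᶜ =
        ({P} : Set ℂ)ᶜ \ ⋃ i ∈ I, closedBall (c i) (r i) := by
      ext z
      simp only [mem_compl_iff, mem_insert_iff, mem_iUnion, Set.mem_sdiff, exists_prop, not_or,
        not_exists, not_and, mem_singleton_iff]
      constructor
      · rintro ⟨h1, h2⟩
        exact ⟨h1, fun n _ => h2 n⟩
      · rintro ⟨h1, h2⟩
        exact ⟨h1, fun n => h2 n (hP n)⟩
    have hO : IsOpen (insert P (⋃ n, closedBall (c n) (r n)))ᶜ := hLc.isClosed.isOpen_compl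
    rw [e] at hO ⊢
    refine remove_discs I c r r' (fun i _ => (hr i).le) hr' ?_ ?_ hND hO
    · exact (isConnected_compl_singleton_of_one_lt_rank (by
        rw [Complex.rank_real_complex]; norm_num) P).isPreconnected
    · intro i hi z hz hzP
      refine Set.disjoint_left.1 (hr'd i hi) hz ?_
      rw [mem_singleton_iff] at hzP
      rw [hzP]
      exact mem_insert _ _

end Pool.Agent.R237.Discs
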