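import Pool.Agent.R284.GE.Stm

set_option autoImplicit false

namespace Pool.Agent.R237.GELF

open Pool.Agent.R284.GE Filter Topology
open scoped NNReal ENNReal

attribute [local instance] Matrix.linftyOpNormedRing Matrix.linftyOpNormedAlgebra

theorem cpow_bound {d : ℕ} (Y : Matrix (Fin d) (Fin d) ℂ) (r : ℝ) (hr : 0 < r)
    (h : ∀ (z : ℂ) (w : Fin d → ℂ), w ≠ 0 → Y.mulVec w = z • w → ‖z‖ < r) :
    ∃ C : ℝ, ∀ j : ℕ, ‖Y ^ j‖ ≤ C * r ^ j := by
  rcases Nat.eq_zero_or_pos d with hd | hd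
  · subst hd
    refine ⟨0, fun j => ?_⟩
    have : Y ^ j = 0 := Subsingleton.elim _ _
    rw [this, norm_zero, zero_mul]
  · haveI : Nonempty (Fin d) := ⟨⟨0, hd⟩⟩
    have hsp : ∀ k ∈ spectrum ℂ Y, ‖k‖₊ < r.toNNReal := by
      intro k hk
      rw [spectrum.mem_iff, Matrix.isUnit_iff_isUnit_det, isUnit_iff_ne_zero, not_not] at hk
      obtain ⟨w, hw0, hw⟩ := Matrix.exists_mulVec_eq_zero_iff.mpr hk
      have h1 : Y.mulVec w = k • w := by
        rw [Matrix.sub_mulVec, sub_eq_zero] at hw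
        rw [← hw]
        rw [Algebra.algebraMap_eq_smul_one, Matrix.smul_mulVec, Matrix.one_mulVec]
      have h2 := h k w hw0 h1
      rw [← NNReal.coe_lt_coe, Real.coe_toNNReal _ hr.le]
      simpa using h2
    have hrad : spectralRadius ℂ Y < (r.toNNReal : ℝ≥0∞) := by
      exact spectrum.spectralRadius_lt_of_forall_lt Y hsp
    have hlim := spectrum.pow_nnnorm_pow_one_div_tendsto_nhds_spectralRadius Y
    have hev := hlim.eventually (gt_mem_nhds hrad)
    obtain ⟨N, hN⟩ := eventually_atTop.mp hev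
    have hbig : ∀ n, N ≤ n → 1 ≤ n → ‖Y ^ n‖ ≤ r ^ n := by
      intro n hn hn1
      have h1 := hN n hn
      have hn0 : (0 : ℝ) < n := by exact_mod_cast hn1
      have h2 : (‖Y ^ n‖₊ : ℝ≥0∞) ≤ (r.toNNReal : ℝ≥0∞) ^ (n : ℝ) := by
        have := ENNReal.rpow_le_rpow h1.le hn0.le
        rw [← ENNReal.rpow_mul, one_div, inv_mul_cancel₀ hn0.ne', ENNReal.rpow_one] at this
        exact this
      rw [ENNReal.rpow_natCast] at h2
      have h3 : ‖Y ^ n‖₊ ≤ r.toNNReal ^ n := by exact_mod_cast h2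
      have h4 : (‖Y ^ n‖₊ : ℝ) ≤ ((r.toNNReal ^ n : ℝ≥0) : ℝ) := by exact_mod_cast h3
      rw [NNReal.coe_pow, Real.coe_toNNReal _ hr.le] at h4
      exact h4
    refine ⟨1 + ∑ i ∈ Finset.range (N + 1), ‖Y ^ i‖ / r ^ i, fun j => ?_⟩
    have hs0 : 0 ≤ ∑ i ∈ Finset.range (N + 1), ‖Y ^ i‖ / r ^ i :=
      Finset.sum_nonneg fun i _ => by positivity
    by_cases hj : j < N + 1
    · have h1 : ‖Y ^ j‖ / r ^ j ≤ ∑ i ∈ Finset.range (N + 1), ‖Y ^ i‖ / r ^ i :=
        Finset.single_le_sum (f := fun i => ‖Y ^ i‖ / r ^ i) (fun i _ => by positivity)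
          (Finset.mem_range.mpr hj)
      rw [div_le_iff₀ (by positivity)] at h1
      have h2 : 0 < r ^ j := by positivity
      nlinarith
    · have h1 := hbig j (by omega) (by omega)
      have h2 : 0 < r ^ j := by positivity
      nlinarith

theorem t_GELF : S_GELF := by
  intro d X r hr h
  obtain ⟨C, hC⟩ := cpow_bound (cm X) r hr h
  refine ⟨C, fun j v => ?_⟩
  have h1 : ‖(cm X ^ j).mulVec (fun i => (v i : ℂ))‖ ≤ ‖cm X ^ j‖ * ‖fun i => (v i : ℂ)‖ :=
    Matrix.linfty_opNorm_mulVec _ _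
  have h2 : (cm X) ^ j = cm (X ^ j) := by
    have : ∀ Z : Matrix (Fin d) (Fin d) ℝ, cm Z = (Complex.ofRealHom.mapMatrix) Z := fun Z => rfl
    rw [this, this, map_pow]
  have h3 : (cm (X ^ j)).mulVec (fun i => (v i : ℂ)) = fun i => (((X ^ j).mulVec v i : ℝ) : ℂ) := by
    funext i
    simp [cm, Matrix.mulVec, dotProduct]
  have h4 : ∀ u : Fin d → ℝ, ‖fun i => (u i : ℂ)‖ = ‖u‖ := by
    intro u
    apply le_antisymm
    · rw [pi_norm_le_iff_of_nonneg (norm_nonneg _)]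
      intro i
      simpa using norm_le_pi_norm u i
    · rw [pi_norm_le_iff_of_nonneg (norm_nonneg _)]
      intro i
      have := norm_le_pi_norm (fun i => (u i : ℂ)) i
      simpa using this
  rw [h2, h3, h4, h4, ← h2] at h1
  exact h1.trans (mul_le_mul_of_nonneg_right (hC j) (norm_nonneg _))

end Pool.Agent.R237.GELF
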