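import Pool.Agent.R284.GE.Stm

set_option autoImplicit false

namespace Pool.Agent.R237.GEPP

open Pool.Agent.R284.GE Filter Topology Matrix Polynomial

theorem cm_mul {d : ℕ} (A B : Matrix (Fin d) (Fin d) ℝ) : cm (A * B) = cm A * cm B := by
  have : ∀ Z : Matrix (Fin d) (Fin d) ℝ, cm Z = (Complex.ofRealHom.mapMatrix) Z := fun Z => rfl
  rw [this, this, this, map_mul]

theorem cm_pow {d : ℕ} (A : Matrix (Fin d) (Fin d) ℝ) (j : ℕ) : cm (A ^ j) = cm A ^ j := by
  have : ∀ Z : Matrix (Fin d) (Fin d) ℝ, cm Z = (Complex.ofRealHom.mapMatrix) Z := fun Z => rfl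
  rw [this, this, map_pow]

theorem cm_one {d : ℕ} : cm (1 : Matrix (Fin d) (Fin d) ℝ) = 1 := by
  have : ∀ Z : Matrix (Fin d) (Fin d) ℝ, cm Z = (Complex.ofRealHom.mapMatrix) Z := fun Z => rfl
  rw [this, map_one]

theorem cm_rm {d : ℕ} (H : Matrix (Fin d) (Fin d) ℤ) :
    cm (rm H) = (Int.castRingHom ℂ).mapMatrix H := by
  ext i j
  simp [cm, rm]

theorem cbound {d : ℕ} (B : Matrix (Fin d) (Fin d) ℝ) (K : ℝ) (hK : 0 ≤ K)
    (h : ∀ v : Fin d → ℝ, ‖B.mulVec v‖ ≤ K * ‖v‖) (w : Fin d → ℂ) :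
    ‖(cm B).mulVec w‖ ≤ 2 * K * ‖w‖ := by
  rw [pi_norm_le_iff_of_nonneg (by positivity)]
  intro i
  set a : Fin d → ℝ := fun i => (w i).re with ha
  set b : Fin d → ℝ := fun i => (w i).im with hb
  have e : (cm B).mulVec w i = ((B.mulVec a i : ℝ) : ℂ) + ((B.mulVec b i : ℝ) : ℂ) * Complex.I := by
    simp only [cm, Matrix.mulVec, dotProduct, Matrix.map_apply, Complex.ofReal_sum,
      Complex.ofReal_mul]
    rw [Finset.sum_mul, ← Finset.sum_add_distrib]
    apply Finset.sum_congr rfl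
    intro j _
    rw [mul_assoc, ← mul_add, ha, hb]
    simp only
    rw [Complex.re_add_im]
  have h1 : ‖a‖ ≤ ‖w‖ := by
    rw [pi_norm_le_iff_of_nonneg (norm_nonneg _)]
    intro j
    exact (Complex.abs_re_le_norm (w j)).trans (norm_le_pi_norm w j)
  have h2 : ‖b‖ ≤ ‖w‖ := by
    rw [pi_norm_le_iff_of_nonneg (norm_nonneg _)]
    intro j
    exact (Complex.abs_im_le_norm (w j)).trans (norm_le_pi_norm w j)
  have h3 := (norm_le_pi_norm (B.mulVec a) i).trans (h a)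
  have h4 := (norm_le_pi_norm (B.mulVec b) i).trans (h b)
  rw [e]
  calc ‖((B.mulVec a i : ℝ) : ℂ) + ((B.mulVec b i : ℝ) : ℂ) * Complex.I‖
      ≤ ‖((B.mulVec a i : ℝ) : ℂ)‖ + ‖((B.mulVec b i : ℝ) : ℂ) * Complex.I‖ := norm_add_le _ _
    _ = ‖B.mulVec a i‖ + ‖B.mulVec b i‖ := by simp
    _ ≤ 2 * K * ‖w‖ := by nlinarith

theorem growth {d : ℕ} (B : ℕ → Matrix (Fin d) (Fin d) ℝ) (μ : ℂ) (w : Fin d → ℂ) (hw : w ≠ 0)
    (hB : ∀ j, (cm (B j)).mulVec w = μ ^ j • w)
    (hbd : ∀ τ > 0, ∃ C : ℝ, ∀ (j : ℕ) (v : Fin d → ℝ),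
      ‖(B j).mulVec v‖ ≤ C * Real.exp (τ * j) * ‖v‖) : ‖μ‖ ≤ 1 := by
  by_contra hμ
  push Not at hμ
  have hμ0 : 0 < ‖μ‖ := by linarith
  set τ : ℝ := Real.log ‖μ‖ / 2 with hτ
  have hτ0 : 0 < τ := by
    have := Real.log_pos hμ
    positivity
  obtain ⟨C, hC⟩ := hbd τ hτ0
  have hwn : 0 < ‖w‖ := norm_pos_iff.mpr hw
  have h1 : ∀ j : ℕ, (Real.exp τ) ^ j ≤ 2 * |C| := by
    intro j
    have e1 := cbound (B j) (|C| * Real.exp (τ * j)) (by positivity) (fun v => (hC j v).trans (by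
      gcongr
      exact le_abs_self C)) w
    rw [hB j, norm_smul, norm_pow] at e1
    have e2 : ‖μ‖ ^ j ≤ 2 * (|C| * Real.exp (τ * j)) := le_of_mul_le_mul_right e1 hwn
    have e3 : ‖μ‖ = Real.exp τ * Real.exp τ := by
      rw [← Real.exp_add, hτ, add_halves, Real.exp_log hμ0]
    have e4 : Real.exp (τ * j) = Real.exp τ ^ j := by
      rw [← Real.exp_nat_mul, mul_comm]
    rw [e3, e4, mul_pow] at e2
    have e5 : 0 < Real.exp τ ^ j := by positivity
    nlinarith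
  obtain ⟨j, hj⟩ := pow_unbounded_of_one_lt (2 * |C|) (Real.one_lt_exp_iff.mpr hτ0)
  linarith [h1 j]

theorem eig {d : ℕ} (X Pc G : Matrix (Fin d) (Fin d) ℂ) (hXP : X * Pc = Pc * X)
    (hXG : X * G = G * X) (z : ℂ) (w : Fin d → ℂ) (hw : w ≠ 0) (h1 : Pc.mulVec w = w)
    (h2 : G.mulVec w = z • w) : ∃ (l : ℂ) (u : Fin d → ℂ), u ≠ 0 ∧ X.mulVec u = l • u ∧
      Pc.mulVec u = u ∧ G.mulVec u = z • u := by
  let E : Submodule ℂ (Fin d → ℂ) :=
    { carrier := {u | Pc.mulVec u = u ∧ G.mulVec u = z • u}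
      add_mem' := by
        rintro a b ⟨ha1, ha2⟩ ⟨hb1, hb2⟩
        exact ⟨by rw [Matrix.mulVec_add, ha1, hb1], by rw [Matrix.mulVec_add, ha2, hb2, smul_add]⟩
      zero_mem' := ⟨by simp, by simp⟩
      smul_mem' := by
        rintro c a ⟨ha1, ha2⟩
        exact ⟨by rw [Matrix.mulVec_smul, ha1], by rw [Matrix.mulVec_smul, ha2, smul_comm]⟩ }
  have hinv : ∀ u ∈ E, (Matrix.toLin' X) u ∈ E := by
    rintro u ⟨hu1, hu2⟩
    rw [Matrix.toLin'_apply]
    constructor
    · rw [Matrix.mulVec_mulVec, ← hXP, ← Matrix.mulVec_mulVec, hu1]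
    · rw [Matrix.mulVec_mulVec, ← hXG, ← Matrix.mulVec_mulVec, hu2, Matrix.mulVec_smul]
  have hne : Nontrivial E := ⟨⟨⟨w, h1, h2⟩, 0, fun h => hw (congrArg Subtype.val h)⟩⟩
  obtain ⟨l, hl⟩ := Module.End.exists_eigenvalue ((Matrix.toLin' X).restrict hinv)
  obtain ⟨v, hv⟩ := hl.exists_hasEigenvector
  have hv1 := hv.apply_eq_smul
  have hv2 := hv.2
  refine ⟨l, v.1, fun h => hv2 (Subtype.ext h), ?_, v.2.1, v.2.2⟩
  have := congrArg Subtype.val hv1
  simpa using this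

theorem aeval_mulVec {d : ℕ} (X : Matrix (Fin d) (Fin d) ℂ) (P : ℤ[X]) (l : ℂ) (u : Fin d → ℂ)
    (h : X.mulVec u = l • u) : (aeval X P).mulVec u = (aeval l P) • u := by
  have hp : ∀ n : ℕ, (X ^ n).mulVec u = l ^ n • u := by
    intro n
    induction n with
    | zero => simp
    | succ n ih => rw [pow_succ, ← Matrix.mulVec_mulVec, h, Matrix.mulVec_smul, ih, smul_smul,
        pow_succ, mul_comm]
  induction P using Polynomial.induction_on' with
  | add p q hp' hq => rw [map_add, map_add, Matrix.add_mulVec, hp', hq, add_smul]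
  | monomial n a =>
    rw [aeval_monomial, aeval_monomial, ← Matrix.mulVec_mulVec, hp]
    rw [Matrix.mulVec_smul, mul_smul, smul_comm]
    congr 1
    simp [Algebra.algebraMap_eq_smul_one, Matrix.smul_mulVec]

theorem charpoly_of_eig {d : ℕ} (H : Matrix (Fin d) (Fin d) ℤ) (l : ℂ) (u : Fin d → ℂ)
    (hu : u ≠ 0) (h : (cm (rm H)).mulVec u = l • u) : aeval l H.charpoly = 0 := by
  have h1 : (Matrix.scalar (Fin d) l - cm (rm H)).det = 0 := by
    rw [← Matrix.exists_mulVec_eq_zero_iff]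
    refine ⟨u, hu, ?_⟩
    rw [Matrix.sub_mulVec, h]
    simp [Matrix.smul_mulVec, Matrix.scalar_apply, ← Matrix.smul_one_eq_diagonal]
  rw [aeval_def, eval₂_eq_eval_map]
  have h2 : H.charpoly.map (algebraMap ℤ ℂ) = (cm (rm H)).charpoly := by
    rw [cm_rm, ← Matrix.charpoly_map]
    rfl
  rw [h2, Matrix.eval_charpoly, h1]

theorem eig_of_charpoly {d : ℕ} (H : Matrix (Fin d) (Fin d) ℤ) (l : ℂ)
    (h : aeval l H.charpoly = 0) : ∃ u : Fin d → ℂ, u ≠ 0 ∧ (cm (rm H)).mulVec u = l • u := by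
  rw [aeval_def, eval₂_eq_eval_map] at h
  have h2 : H.charpoly.map (algebraMap ℤ ℂ) = (cm (rm H)).charpoly := by
    rw [cm_rm, ← Matrix.charpoly_map]
    rfl
  rw [h2, Matrix.eval_charpoly, ← Matrix.exists_mulVec_eq_zero_iff] at h
  obtain ⟨u, hu, h3⟩ := h
  refine ⟨u, hu, ?_⟩
  rw [Matrix.sub_mulVec, sub_eq_zero] at h3
  rw [← h3]
  simp [Matrix.smul_mulVec, Matrix.scalar_apply, ← Matrix.smul_one_eq_diagonal]

theorem not_root {d : ℕ} (H : Matrix (Fin d) (Fin d) ℤ) (hN : NRU H) (z : ℂ)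
    (h : aeval z H.charpoly = 0) (n : ℕ) (hn : 1 ≤ n) : z ^ n ≠ 1 := by
  intro hz
  obtain ⟨u, hu, h1⟩ := eig_of_charpoly H z h
  have h2 := aeval_mulVec (cm (rm H)) (X ^ n) z u h1
  rw [map_pow, map_pow, aeval_X, aeval_X, hz, one_smul] at h2
  have h3 : (cm (rm H) ^ n - 1).det = 0 := by
    rw [← Matrix.exists_mulVec_eq_zero_iff]
    exact ⟨u, hu, by rw [Matrix.sub_mulVec, h2, Matrix.one_mulVec, sub_self]⟩
  have h4 : cm (rm H) ^ n - 1 = (Int.castRingHom ℂ).mapMatrix (H ^ n - 1) := by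
    rw [cm_rm, map_sub, map_pow, map_one]
  rw [h4, ← RingHom.map_det] at h3
  apply hN n hn
  simpa using h3

theorem rm_mul {d : ℕ} (A B : Matrix (Fin d) (Fin d) ℤ) : rm (A * B) = rm A * rm B := by
  have : ∀ Z : Matrix (Fin d) (Fin d) ℤ, rm Z = (Int.castRingHom ℝ).mapMatrix Z := fun Z => rfl
  rw [this, this, this, map_mul]

theorem t_PP (h1 : S_P2) (h2 : S_GELF) : S_PP := by
  intro d H Ps Pc Pu hdet hN hS
  have hroot : ∀ z : ℂ, aeval z H.charpoly = 0 → ∀ n : ℕ, 1 ≤ n → z ^ n ≠ 1 :=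
    fun z hz n hn => not_root H hN z hz n hn
  obtain ⟨P, hP⟩ := h1 H.charpoly (Matrix.charpoly_monic H) hroot
  set G : Matrix (Fin d) (Fin d) ℤ := aeval H P with hG
  set X' := rm H with hX'
  have hcc : X' * Pc = Pc * X' := hS.cc
  have hic : Pc * Pc = Pc := hS.ic
  have hdetX : IsUnit X'.det := by
    have : X'.det = ((H.det : ℤ) : ℝ) := by
      have e : X' = (Int.castRingHom ℝ).mapMatrix H := rfl
      rw [e, ← RingHom.map_det]
      simp
    rw [this, isUnit_iff_ne_zero]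
    exact_mod_cast hdet
  -- `G` as a polynomial in `X'`
  have hGr : rm G = aeval X' P := by
    have e : ∀ Z : Matrix (Fin d) (Fin d) ℤ, rm Z = (Int.castRingHom ℝ).mapMatrix Z := fun Z => rfl
    rw [e, hG, hX', e, aeval_def, aeval_def, Polynomial.hom_eval₂]
    congr 1
    exact RingHom.ext_int _ _

  have hGc : cm (rm G) = aeval (cm X') P := by
    rw [hX', cm_rm, cm_rm, hG, aeval_def, aeval_def, Polynomial.hom_eval₂]
    congr 1
    exact RingHom.ext_int _ _
  have hXGc : cm X' * cm (rm G) = cm (rm G) * cm X' := by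
    rw [hGc]
    calc cm X' * aeval (cm X') P = aeval (cm X') (X * P) := by rw [map_mul, aeval_X]
      _ = aeval (cm X') (P * X) := by rw [mul_comm]
      _ = aeval (cm X') P * cm X' := by rw [map_mul, aeval_X]
  have hcomm : ∀ Q : ℤ[X], aeval X' Q * Pc = Pc * aeval X' Q := by
    intro Q
    induction Q using Polynomial.induction_on' with
    | add p q hp hq => rw [map_add, add_mul, mul_add, hp, hq]
    | monomial n a =>
      rw [aeval_monomial]
      have h : X' ^ n * Pc = Pc * X' ^ n := Commute.pow_left hcc n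
      rw [mul_assoc, h, ← mul_assoc, ← mul_assoc, Algebra.commutes]
  have hGP : rm G * Pc = Pc * rm G := by rw [hGr]; exact hcomm P
  have hXPc : cm X' * cm Pc = cm Pc * cm X' := by rw [← cm_mul, ← cm_mul, hcc]
  have KEY : ∀ (z : ℂ) (w : Fin d → ℂ), w ≠ 0 → (cm Pc).mulVec w = w →
      (cm (rm G)).mulVec w = z • w → z ≠ 0 ∧ ‖z‖ < 1 / 2 := by
    intro z w hw e1 e2
    obtain ⟨l, u, hu, hXu, hPu, hGu⟩ := eig (cm X') (cm Pc) (cm (rm G)) hXPc hXGc z w hw e1 e2
    have hl := charpoly_of_eig H l u hu hXu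
    have hz : aeval l P = z := by
      have e3 := aeval_mulVec (cm X') P l u hXu
      rw [← hGc, hGu] at e3
      exact (smul_left_injective ℂ hu e3).symm
    have hpow : ∀ (B : Matrix (Fin d) (Fin d) ℝ) (k : ℂ), (cm B).mulVec u = k • u → ∀ j : ℕ,
        (cm (B ^ j * Pc)).mulVec u = k ^ j • u := by
      intro B k hB j
      rw [cm_mul, cm_pow, ← Matrix.mulVec_mulVec, hPu]
      induction j with
      | zero => simp
      | succ n ih => rw [pow_succ, ← Matrix.mulVec_mulVec, hB, Matrix.mulVec_smul, ih, smul_smul,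
          pow_succ, mul_comm]
    have hle : ‖l‖ ≤ 1 := by
      apply growth (fun j => X' ^ j * Pc) l u hu (hpow X' l hXu)
      intro τ hτ
      obtain ⟨C, hC⟩ := hS.bc τ hτ
      exact ⟨C, fun j v => (hC j v).1⟩
    have hinv : cm X'⁻¹ * cm X' = 1 := by
      rw [← cm_mul, Matrix.nonsing_inv_mul _ hdetX, cm_one]
    have e4 : l • (cm X'⁻¹).mulVec u = u := by
      have := congrArg (fun M => M.mulVec u) hinv
      simp only [← Matrix.mulVec_mulVec, Matrix.one_mulVec] at this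
      rw [hXu, Matrix.mulVec_smul] at this
      exact this
    have hl0 : l ≠ 0 := by
      rintro rfl
      rw [zero_smul] at e4
      exact hu e4.symm
    have e5 : (cm X'⁻¹).mulVec u = l⁻¹ • u := by
      rw [eq_inv_smul_iff₀ hl0]
      exact e4
    have hge : ‖l⁻¹‖ ≤ 1 := by
      apply growth (fun j => X'⁻¹ ^ j * Pc) l⁻¹ u hu (hpow X'⁻¹ l⁻¹ e5)
      intro τ hτ
      obtain ⟨C, hC⟩ := hS.bc τ hτ
      exact ⟨C, fun j v => (hC j v).2⟩
    have hn : ‖l‖ = 1 := by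
      rw [norm_inv] at hge
      have h0 : 0 < ‖l‖ := norm_pos_iff.mpr hl0
      have : 1 ≤ ‖l‖ := by
        by_contra hlt
        push Not at hlt
        have := one_lt_inv₀ h0 |>.mpr hlt
        linarith
      exact le_antisymm hle this
    have := hP l hl hn
    rw [hz] at this
    exact this
  -- the inverse
  set Y : Matrix (Fin d) (Fin d) ℝ := rm G * Pc + (1 - Pc) with hY
  have hYP : Y * Pc = rm G * Pc := by
    rw [hY, add_mul, mul_assoc, hic, sub_mul, hic, one_mul, sub_self, add_zero]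
  have hPY : Pc * Y = rm G * Pc := by
    rw [hY, mul_add, ← mul_assoc, ← hGP, mul_assoc, hic, mul_sub, hic, mul_one, sub_self, add_zero]
  have hGY : rm G * Y = Y * rm G := by
    rw [hY, mul_add, add_mul, mul_sub, sub_mul, mul_one, one_mul, hGP, ← mul_assoc, ← hGP,
      mul_assoc]
  have hYd : IsUnit Y.det := by
    rw [isUnit_iff_ne_zero]
    intro h0
    obtain ⟨v, hv, hYv⟩ := Matrix.exists_mulVec_eq_zero_iff.mpr h0
    have e1 : (rm G * Pc).mulVec v = 0 := by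
      rw [← hPY, ← Matrix.mulVec_mulVec, hYv, Matrix.mulVec_zero]
    have e2 : Pc.mulVec v = v := by
      have := hYv
      rw [hY, Matrix.add_mulVec, e1, zero_add, Matrix.sub_mulVec, Matrix.one_mulVec, sub_eq_zero]
        at this
      exact this.symm
    have e3 : (rm G).mulVec v = 0 := by
      rw [← Matrix.mulVec_mulVec, e2] at e1
      exact e1
    have hc : ∀ B : Matrix (Fin d) (Fin d) ℝ, (cm B).mulVec (fun i => (v i : ℂ)) =
        fun i => (((B.mulVec v) i : ℝ) : ℂ) := by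
      intro B
      funext i
      simp [cm, Matrix.mulVec, dotProduct]
    have hw0 : (fun i => (v i : ℂ)) ≠ 0 := by
      intro h
      apply hv
      funext i
      have := congrFun h i
      simpa using this
    have := KEY 0 (fun i => (v i : ℂ)) hw0 (by rw [hc, e2]) (by
      rw [hc, e3, zero_smul]
      funext i
      simp)
    exact this.1 rfl
  have hRY : Y⁻¹ * Y = 1 := Matrix.nonsing_inv_mul _ hYd
  have hYR : Y * Y⁻¹ = 1 := Matrix.mul_nonsing_inv _ hYd
  refine ⟨G, Y⁻¹, hGP, ?_, ?_, ?_, ?_⟩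
  · calc Y⁻¹ * Pc = Y⁻¹ * Pc * (Y * Y⁻¹) := by rw [hYR, mul_one]
      _ = Y⁻¹ * (Pc * Y) * Y⁻¹ := by simp only [mul_assoc]
      _ = Y⁻¹ * (Y * Pc) * Y⁻¹ := by rw [hPY, hYP]
      _ = (Y⁻¹ * Y) * Pc * Y⁻¹ := by simp only [mul_assoc]
      _ = Pc * Y⁻¹ := by rw [hRY, one_mul]
  · calc rm G * Y⁻¹ * Pc = (Y⁻¹ * Y) * (rm G * Y⁻¹ * Pc) := by rw [hRY, one_mul]
      _ = Y⁻¹ * (Y * rm G) * Y⁻¹ * Pc := by simp only [mul_assoc]
      _ = Y⁻¹ * (rm G * Y) * Y⁻¹ * Pc := by rw [hGY]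
      _ = Y⁻¹ * rm G * (Y * Y⁻¹) * Pc := by simp only [mul_assoc]
      _ = Y⁻¹ * (rm G * Pc) := by rw [hYR, mul_one, mul_assoc]
      _ = Y⁻¹ * (Y * Pc) := by rw [hYP]
      _ = Pc := by rw [← mul_assoc, hRY, one_mul]
  · calc Y⁻¹ * rm G * Pc = Y⁻¹ * (rm G * Pc) := by rw [mul_assoc]
      _ = Y⁻¹ * (Y * Pc) := by rw [hYP]
      _ = Pc := by rw [← mul_assoc, hRY, one_mul]
  · obtain ⟨C, hC⟩ := h2 d (rm G * Pc) (1 / 2) (by norm_num) (by
      intro z w hw hz
      by_cases hz0 : z = 0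
      · rw [hz0, norm_zero]; norm_num
      · have e1 : (cm Pc).mulVec w = w := by
          have e2 : cm Pc * cm (rm G * Pc) = cm (rm G * Pc) := by
            rw [← cm_mul, ← mul_assoc, ← hGP, mul_assoc, hic]
          have e3 := congrArg (fun M => M.mulVec w) e2
          simp only [← Matrix.mulVec_mulVec] at e3
          rw [hz, Matrix.mulVec_smul] at e3
          exact smul_right_injective _ hz0 e3
        have e4 : (cm (rm G)).mulVec w = z • w := by
          rw [cm_mul, ← Matrix.mulVec_mulVec, e1] at hz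
          exact hz
        exact (KEY z w hw e1 e4).2)
    obtain ⟨C1, hC1⟩ := hS.bc 1 one_pos
    refine ⟨|C| + |C1|, 1 / 2, by norm_num, by norm_num, fun j v => ?_⟩
    have hv := norm_nonneg v
    rcases Nat.eq_zero_or_pos j with hj | hj
    · subst hj
      have := (hC1 0 v).1
      simp only [pow_zero, one_mul, Nat.cast_zero, mul_zero, Real.exp_zero, mul_one] at this ⊢
      have e1 := le_abs_self C1
      have e2 := abs_nonneg C
      nlinarith
    · have e : ∀ n : ℕ, (rm G * Pc) ^ (n + 1) = rm G ^ (n + 1) * Pc := by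
        intro n
        induction n with
        | zero => simp
        | succ n ih =>
          rw [pow_succ, ih, mul_assoc, ← mul_assoc Pc, ← hGP, mul_assoc (rm G), hic, ← mul_assoc,
            ← pow_succ]
      obtain ⟨n, rfl⟩ : ∃ n, j = n + 1 := ⟨j - 1, by omega⟩
      rw [← e]
      refine (hC (n + 1) v).trans ?_
      have e1 := le_abs_self C
      have e2 := abs_nonneg C1
      have e3 : 0 ≤ (1 / 2 : ℝ) ^ (n + 1) * ‖v‖ := by positivity
      nlinarith

end Pool.Agent.R237.GEPP
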