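import Mathlib
import Pool.Agent.R237.Chi
import Pool.Agent.R237.CM

/-! Chordal limits of polynomials: the necessary conditions. -/

set_option autoImplicit false

open Filter Topology Set Metric Complex
open scoped OnePoint

namespace Pool.Agent.R237.Hz

open Pool.Agent.R237.Chi Pool.Agent.R237.CM

theorem chi_bound {a b : ℂ} {S : ℝ} (hS : √(1 + ‖b‖ ^ 2) ≤ S) (h : chi (a : OnePoint ℂ) b ≤ 1 / (2 * S)) :
    √(1 + ‖a‖ ^ 2) ≤ 2 * S ∧ ‖a - b‖ ≤ 2 * S ^ 2 * chi (a : OnePoint ℂ) b := by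
  have hb : 0 < √(1 + ‖b‖ ^ 2) := by positivity
  have ha : 0 < √(1 + ‖a‖ ^ 2) := by positivity
  have hS0 : 0 < S := lt_of_lt_of_le hb hS
  have h1 := chi_triangle (b : OnePoint ℂ) a ∞
  rw [chi_coe_infty, chi_coe_infty, chi_comm] at h1
  have h2 : 1 / S ≤ 1 / √(1 + ‖b‖ ^ 2) := one_div_le_one_div_of_le hb hS
  have h3 : 1 / S = 1 / (2 * S) + 1 / (2 * S) := by field_simp; ring
  have h4 : 1 / (2 * S) ≤ 1 / √(1 + ‖a‖ ^ 2) := by linarith
  have h5 : √(1 + ‖a‖ ^ 2) ≤ 2 * S := (one_div_le_one_div (by positivity) ha).1 h4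
  refine ⟨h5, ?_⟩
  have h6 : ‖a - b‖ = chi (a : OnePoint ℂ) b * (√(1 + ‖a‖ ^ 2) * √(1 + ‖b‖ ^ 2)) := by
    rw [chi_coe]; field_simp
  rw [h6]
  have h7 : √(1 + ‖a‖ ^ 2) * √(1 + ‖b‖ ^ 2) ≤ 2 * S * S := mul_le_mul h5 hS hb.le (by positivity)
  calc chi (a : OnePoint ℂ) b * (√(1 + ‖a‖ ^ 2) * √(1 + ‖b‖ ^ 2)) ≤ chi (a : OnePoint ℂ) b * (2 * S * S) :=
        mul_le_mul_of_nonneg_left h7 (chi_nonneg _ _)
    _ = _ := by ring

open Classical in
/-- reciprocal of a point of the sphere different from `0` -/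
noncomputable def ip (w : OnePoint ℂ) : ℂ := if w = ∞ then 0 else (fp w)⁻¹

theorem sqrt_le_two {x : ℝ} (hx : 1 ≤ x) : √(1 + x ^ 2) ≤ 3 / 2 * x := by
  rw [Real.sqrt_le_left (by linarith)]
  nlinarith

theorem ip_bound {a : ℂ} {w : OnePoint ℂ} (ha : 1 ≤ ‖a‖) (hw : w ≠ ∞ → 1 ≤ ‖fp w‖) :
    ‖a⁻¹ - ip w‖ ≤ 3 * chi (a : OnePoint ℂ) w := by
  have ha0 : a ≠ 0 := by
    rintro rfl
    rw [norm_zero] at ha; linarith
  have h1 : √(1 + ‖a‖ ^ 2) ≤ 3 / 2 * ‖a‖ := sqrt_le_two ha
  have h0 : 0 < √(1 + ‖a‖ ^ 2) := by positivity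
  by_cases hwi : w = ∞
  · subst hwi
    rw [ip, if_pos rfl, sub_zero, norm_inv, chi_coe_infty]
    have ha' : 0 < ‖a‖ := by linarith
    rw [mul_one_div, le_div_iff₀ h0, inv_mul_le_iff₀ ha']
    linarith
  · obtain ⟨b, rfl⟩ : ∃ b : ℂ, w = b := ⟨fp w, (coe_fp hwi).symm⟩
    have hb := hw hwi
    rw [fp_coe] at hb
    have hb0 : b ≠ 0 := by
      rintro rfl
      rw [norm_zero] at hb; linarith
    have h2 : √(1 + ‖b‖ ^ 2) ≤ 3 / 2 * ‖b‖ := sqrt_le_two hb
    have h3 : 0 < √(1 + ‖b‖ ^ 2) := by positivity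
    rw [ip, if_neg hwi, fp_coe, chi_coe]
    have e : a⁻¹ - b⁻¹ = (b - a) / (a * b) := by field_simp
    rw [e, norm_div, norm_mul, norm_sub_rev b a, ← mul_div_assoc]
    have ha' : 0 < ‖a‖ := by linarith
    have hb' : 0 < ‖b‖ := by linarith
    rw [div_le_div_iff₀ (by positivity) (by positivity)]
    have h4 : √(1 + ‖a‖ ^ 2) * √(1 + ‖b‖ ^ 2) ≤ (3 / 2 * ‖a‖) * (3 / 2 * ‖b‖) :=
      mul_le_mul h1 h2 h3.le (by positivity)
    have h5 : (3 / 2 * ‖a‖) * (3 / 2 * ‖b‖) ≤ 3 * (‖a‖ * ‖b‖) := by nlinarith [mul_pos ha' hb']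
    calc ‖a - b‖ * (√(1 + ‖a‖ ^ 2) * √(1 + ‖b‖ ^ 2)) ≤ ‖a - b‖ * (3 * (‖a‖ * ‖b‖)) :=
          mul_le_mul_of_nonneg_left (h4.trans h5) (norm_nonneg _)
      _ = _ := by ring

variable {L : Set ℂ} {f : ℂ → OnePoint ℂ} {p : ℕ → Polynomial ℂ}

theorem cont (hp : ∀ ε > 0, ∀ᶠ n in atTop, ∀ z ∈ L, chi ((p n).eval z : ℂ) (f z) < ε) :
    ContinuousOn f L := by
  rw [sig_embedding.isInducing.continuousOn_iff]
  have h1 : TendstoUniformlyOn (fun n z => sig (((p n).eval z : ℂ) : OnePoint ℂ)) (sig ∘ f) atTop L := by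
    rw [Metric.tendstoUniformlyOn_iff]
    intro ε hε
    filter_upwards [hp ε hε] with n hn z hz
    rw [dist_comm, Function.comp_apply, ← chi_eq]
    exact hn z hz
  refine h1.continuousOn (Frequently.of_forall fun n => ?_)
  exact (sig_continuous_coe.comp (p n).continuous).continuousOn

theorem fin_diff (hp : ∀ ε > 0, ∀ᶠ n in atTop, ∀ z ∈ L, chi ((p n).eval z : ℂ) (f z) < ε) :
    ∀ z ∈ interior L, f z ≠ ∞ → DifferentiableAt ℂ (fun w => fp (f w)) z := by
  intro z hz hzi
  have hf := cont hp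
  have hzL : L ∈ 𝓝 z := mem_interior_iff_mem_nhds.1 hz
  have h1 : ∀ᶠ w in 𝓝 z, f w ≠ ∞ := by
    have := ne_infty_event f hf (interior_subset hz) hzi
    rwa [nhdsWithin_eq_nhds.2 hzL] at this
  have h2 : ContinuousAt (fun w => fp (f w)) z := (fp_cont f hf).continuousAt (by
    filter_upwards [hzL, h1] with w h3 h4
    exact ⟨h3, h4⟩)
  have h3 : ∀ᶠ w in 𝓝 z, ‖fp (f w)‖ < ‖fp (f z)‖ + 1 :=
    h2.norm.eventually_lt_const (by linarith)
  obtain ⟨V, hV, hVo, hzV⟩ := _root_.eventually_nhds_iff.1 ((h1.and h3).and hzL)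
  set S : ℝ := √(1 + (‖fp (f z)‖ + 1) ^ 2) with hS
  have hS0 : 0 < S := by rw [hS]; positivity
  have h4 : TendstoLocallyUniformlyOn (fun n w => (p n).eval w) (fun w => fp (f w)) atTop V := by
    refine TendstoUniformlyOn.tendstoLocallyUniformlyOn ?_
    rw [Metric.tendstoUniformlyOn_iff]
    intro ε hε
    filter_upwards [hp (min (1 / (2 * S)) (ε / (2 * S ^ 2))) (by positivity)] with n hn w hw
    obtain ⟨⟨h5, h6⟩, h7⟩ := hV w hw
    have h8 := hn w h7
    rw [← coe_fp h5] at h8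
    have h9 : √(1 + ‖fp (f w)‖ ^ 2) ≤ S := by
      rw [hS]
      refine Real.sqrt_le_sqrt ?_
      have := pow_le_pow_left₀ (norm_nonneg _) h6.le 2
      linarith
    have h10 := (chi_bound h9 (h8.le.trans (min_le_left _ _))).2
    rw [dist_comm, dist_eq_norm]
    refine h10.trans_lt ?_
    have h11 := lt_of_lt_of_le h8 (min_le_right _ _)
    rw [lt_div_iff₀ (by positivity)] at h11
    linarith
  exact (h4.differentiableOn (Eventually.of_forall fun n => (p n).differentiable.differentiableOn)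
    hVo).differentiableAt (hVo.mem_nhds hzV)

theorem inf_open (hp : ∀ ε > 0, ∀ᶠ n in atTop, ∀ z ∈ L, chi ((p n).eval z : ℂ) (f z) < ε) :
    ∀ z ∈ interior L, f z = ∞ → ∀ᶠ w in 𝓝 z, f w = ∞ := by
  intro z hz hzi
  have hf := cont hp
  have hzL : L ∈ 𝓝 z := mem_interior_iff_mem_nhds.1 hz
  have h1 : ∀ᶠ w in 𝓝 z, f w = ∞ ∨ 2 < ‖fp (f w)‖ := by
    have := large_event f hf (interior_subset hz) hzi 2
    rwa [nhdsWithin_eq_nhds.2 hzL] at this
  obtain ⟨V, hV, hVo, hzV⟩ := _root_.eventually_nhds_iff.1 (h1.and hzL)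
  -- the polynomials are large on V
  have h2 : ∀ᶠ n in atTop, ∀ w ∈ V, 1 ≤ ‖(p n).eval w‖ := by
    filter_upwards [hp (1 / 5) (by norm_num)] with n hn w hw
    by_contra hcon
    push Not at hcon
    obtain ⟨h3, h4⟩ := hV w hw
    have h5 := hn w h4
    have h6 := chi_triangle (((p n).eval w : ℂ) : OnePoint ℂ) (f w) ∞
    rw [chi_coe_infty] at h6
    have h7 : chi (f w) ∞ ≤ 2 / 5 + 1 / 20 := by
      rcases h3 with h3 | h3
      · rw [h3, chi_infty_infty]; norm_num
      · have h8 : f w ≠ ∞ := by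
          intro h0
          rw [h0] at h3
          have : ‖fp ∞‖ = 0 := by simp [fp]
          rw [this] at h3
          linarith
        rw [← coe_fp h8, chi_coe_infty]
        have h9 : (20 / 9 : ℝ) ≤ √(1 + ‖fp (f w)‖ ^ 2) := Real.le_sqrt_of_sq_le (by nlinarith)
        calc 1 / √(1 + ‖fp (f w)‖ ^ 2) ≤ 1 / (20 / 9) := one_div_le_one_div_of_le (by norm_num) h9
          _ ≤ _ := by norm_num
    have h10 : √(1 + ‖(p n).eval w‖ ^ 2) ≤ 3 / 2 := by
      rw [Real.sqrt_le_left (by norm_num)]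
      have := pow_le_pow_left₀ (norm_nonneg _) hcon.le 2
      linarith
    have h11 : (2 / 3 : ℝ) ≤ 1 / √(1 + ‖(p n).eval w‖ ^ 2) := by
      calc (2 / 3 : ℝ) = 1 / (3 / 2) := by norm_num
        _ ≤ _ := one_div_le_one_div_of_le (by positivity) h10
    linarith
  -- the reciprocals converge
  have h3 : TendstoLocallyUniformlyOn (fun n w => ((p n).eval w)⁻¹) (fun w => ip (f w)) atTop V := by
    refine TendstoUniformlyOn.tendstoLocallyUniformlyOn ?_
    rw [Metric.tendstoUniformlyOn_iff]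
    intro ε hε
    filter_upwards [hp (ε / 3) (by positivity), h2] with n hn hn2 w hw
    obtain ⟨h5, h7⟩ := hV w hw
    rw [dist_comm, dist_eq_norm]
    refine (ip_bound (hn2 w hw) (fun h8 => ?_)).trans_lt ?_
    · rcases h5 with h5 | h5
      · exact absurd h5 h8
      · linarith
    · have := hn w h7
      linarith
  have h4 : DifferentiableOn ℂ (fun w => ip (f w)) V := by
    refine h3.differentiableOn ?_ hVo
    filter_upwards [h2] with n hn
    refine (p n).differentiable.differentiableOn.fun_inv fun w hw h0 => ?_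
    have := hn w hw
    rw [h0, norm_zero] at this
    linarith
  have h5 : AnalyticAt ℂ (fun w => ip (f w)) z := h4.analyticAt (hVo.mem_nhds hzV)
  have hip : ∀ w ∈ V, ip (f w) = 0 → f w = ∞ := by
    intro w hw h0
    by_contra hcon
    rw [ip, if_neg hcon, inv_eq_zero] at h0
    rcases (hV w hw).1 with h6 | h6
    · exact hcon h6
    · rw [h0, norm_zero] at h6
      linarith
  rcases h5.eventually_eq_zero_or_eventually_ne_zero with h6 | h6
  · filter_upwards [h6, hVo.mem_nhds hzV] with w h7 h8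
    exact hip w h8 h7
  · exfalso
    obtain ⟨W, hW, hWo, hzW⟩ := _root_.eventually_nhds_iff.1 (eventually_nhdsWithin_iff.1 h6)
    obtain ⟨r, hr, hball⟩ := Metric.nhds_basis_closedBall.mem_iff.1
      (Filter.inter_mem (hVo.mem_nhds hzV) (hWo.mem_nhds hzW))
    have hfs : ∀ w ∈ sphere z r, f w ≠ ∞ := by
      intro w hw h0
      have h7 := hball (sphere_subset_closedBall hw)
      have h8 := hW w h7.2 (by
        rw [mem_compl_iff, mem_singleton_iff]
        rintro rfl
        rw [mem_sphere, dist_self] at hw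
        linarith)
      apply h8
      rw [ip, if_pos h0]
    have hcs : ContinuousOn (fun w => fp (f w)) (sphere z r) :=
      (fp_cont f hf).mono fun w hw => ⟨(hV w (hball (sphere_subset_closedBall hw)).1).2, hfs w hw⟩
    obtain ⟨R, hR⟩ := (isCompact_sphere z r).exists_bound_of_continuousOn hcs
    set S : ℝ := √(1 + R ^ 2) with hS
    have hS0 : 0 < S := by rw [hS]; positivity
    -- large n
    obtain ⟨n, hn⟩ := (hp (min (1 / (2 * S)) (1 / (1 + 2 * S))) (by positivity)).exists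
    have hbd : ∀ w ∈ sphere z r, ‖(p n).eval w‖ ≤ 2 * S := by
      intro w hw
      have h7 := hn w (hV w (hball (sphere_subset_closedBall hw)).1).2
      rw [← coe_fp (hfs w hw)] at h7
      have h9 : √(1 + ‖fp (f w)‖ ^ 2) ≤ S := by
        rw [hS]
        refine Real.sqrt_le_sqrt ?_
        have := pow_le_pow_left₀ (norm_nonneg _) (hR w hw) 2
        linarith
      have h10 := (chi_bound h9 (h7.le.trans (min_le_left _ _))).1
      refine le_trans ?_ h10
      exact Real.le_sqrt_of_sq_le (by linarith)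
    have hmax : ‖(p n).eval z‖ ≤ 2 * S := by
      have hd : DiffContOnCl ℂ (fun w => (p n).eval w) (ball z r) :=
        (p n).differentiable.diffContOnCl
      refine Complex.norm_le_of_forall_mem_frontier_norm_le isBounded_ball hd (fun w hw => ?_)
        (subset_closure (mem_ball_self hr))
      rw [frontier_ball z hr.ne'] at hw
      exact hbd w hw
    have h7 := lt_of_lt_of_le (hn z (interior_subset hz)) (min_le_right _ _)
    rw [hzi, chi_coe_infty] at h7
    have h8 : √(1 + ‖(p n).eval z‖ ^ 2) ≤ 1 + 2 * S := by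
      rw [Real.sqrt_le_left (by positivity)]
      have := pow_le_pow_left₀ (norm_nonneg _) hmax 2
      nlinarith
    have h9 : 1 / (1 + 2 * S) ≤ 1 / √(1 + ‖(p n).eval z‖ ^ 2) :=
      one_div_le_one_div_of_le (by positivity) h8
    linarith

/-- the two local conditions give the alternative on each component -/
theorem alternative (hf : ContinuousOn f L)
    (hinf : ∀ z ∈ interior L, f z = ∞ → ∀ᶠ w in 𝓝 z, f w = ∞)
    (hfin : ∀ z ∈ interior L, f z ≠ ∞ → DifferentiableAt ℂ (fun w => fp (f w)) z) (x : ℂ) :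
    (∀ z ∈ connectedComponentIn (interior L) x, f z = ∞) ∨
      ∃ g : ℂ → ℂ, DifferentiableOn ℂ g (connectedComponentIn (interior L) x) ∧
        ∀ z ∈ connectedComponentIn (interior L) x, f z = (g z : OnePoint ℂ) := by
  set V := connectedComponentIn (interior L) x with hV
  have hVL : V ⊆ interior L := connectedComponentIn_subset _ _
  have hVc : IsPreconnected V := isPreconnected_connectedComponentIn
  by_cases h : ∀ z ∈ V, f z = ∞
  · exact Or.inl h
  · right
    push Not at h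
    obtain ⟨a, ha, hai⟩ := h
    have hall : ∀ z ∈ V, f z ≠ ∞ := by
      intro z hz hzi
      have hA : IsOpen {w | w ∈ interior L ∧ f w = ∞} := by
        rw [isOpen_iff_mem_nhds]
        rintro w ⟨h1, h2⟩
        filter_upwards [isOpen_interior.mem_nhds h1, hinf w h1 h2] with y h3 h4
        exact ⟨h3, h4⟩
      have hB : IsOpen {w | w ∈ interior L ∧ f w ≠ ∞} := by
        rw [isOpen_iff_mem_nhds]
        rintro w ⟨h1, h2⟩
        have h5 := ne_infty_event f hf (interior_subset h1) h2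
        rw [nhdsWithin_eq_nhds.2 (mem_interior_iff_mem_nhds.1 h1)] at h5
        filter_upwards [isOpen_interior.mem_nhds h1, h5] with y h3 h4
        exact ⟨h3, h4⟩
      obtain ⟨w, _, h1, h2⟩ := hVc _ _ hA hB (fun w hw => by
        by_cases h0 : f w = ∞
        · exact Or.inl ⟨hVL hw, h0⟩
        · exact Or.inr ⟨hVL hw, h0⟩) ⟨z, hz, hVL hz, hzi⟩ ⟨a, ha, hVL ha, hai⟩
      exact h2.2 h1.2
    refine ⟨fun w => fp (f w), fun z hz => ?_, fun z hz => (coe_fp (hall z hz)).symm⟩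
    exact (hfin z (hVL hz) (hall z hz)).differentiableWithinAt

theorem local_of_alternative
    (h : ∀ x ∈ interior L, (∀ z ∈ connectedComponentIn (interior L) x, f z = ∞) ∨
      ∃ g : ℂ → ℂ, DifferentiableOn ℂ g (connectedComponentIn (interior L) x) ∧
        ∀ z ∈ connectedComponentIn (interior L) x, f z = (g z : OnePoint ℂ)) :
    (∀ z ∈ interior L, f z = ∞ → ∀ᶠ w in 𝓝 z, f w = ∞) ∧
    (∀ z ∈ interior L, f z ≠ ∞ → DifferentiableAt ℂ (fun w => fp (f w)) z) := by
  have hopen : ∀ z ∈ interior L, connectedComponentIn (interior L) z ∈ 𝓝 z := fun z hz =>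
    (isOpen_interior.connectedComponentIn).mem_nhds (mem_connectedComponentIn hz)
  refine ⟨fun z hz hzi => ?_, fun z hz hzi => ?_⟩
  · rcases h z hz with h1 | ⟨g, _, h2⟩
    · filter_upwards [hopen z hz] with w hw
      exact h1 w hw
    · have h3 := h2 z (mem_connectedComponentIn hz)
      rw [hzi] at h3
      exact absurd h3 (OnePoint.infty_ne_coe _)
  · rcases h z hz with h1 | ⟨g, hg, h2⟩
    · exact absurd (h1 z (mem_connectedComponentIn hz)) hzi
    · refine (hg.differentiableAt (hopen z hz)).congr_of_eventuallyEq ?_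
      filter_upwards [hopen z hz] with w hw
      rw [h2 w hw, fp_coe]

/-- The chordal Mergelyan theorem, for functions defined on the plane. -/
theorem chordal_mergelyan {L : Set ℂ} (hL : IsCompact L) (hLc : IsConnected Lᶜ) (f : ℂ → OnePoint ℂ) :
    (∃ p : ℕ → Polynomial ℂ, ∀ ε > 0, ∀ᶠ n in atTop, ∀ z ∈ L, chi ((p n).eval z : ℂ) (f z) < ε) ↔
    (ContinuousOn f L ∧ ∀ x ∈ interior L, (∀ z ∈ connectedComponentIn (interior L) x, f z = ∞) ∨
      ∃ g : ℂ → ℂ, DifferentiableOn ℂ g (connectedComponentIn (interior L) x) ∧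
        ∀ z ∈ connectedComponentIn (interior L) x, f z = (g z : OnePoint ℂ)) := by
  constructor
  · rintro ⟨p, hp⟩
    exact ⟨cont hp, fun x _ => alternative (cont hp) (inf_open hp) (fin_diff hp) x⟩
  · rintro ⟨hf, h⟩
    obtain ⟨h1, h2⟩ := local_of_alternative h
    choose p hp using fun n : ℕ => main_loc hL hLc f hf h1 h2 (1 / ((n : ℝ) + 1)) (by positivity)
    refine ⟨p, fun ε hε => ?_⟩
    obtain ⟨N, hN⟩ := exists_nat_one_div_lt hε
    filter_upwards [eventually_ge_atTop N] with n hn z hz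
    refine (hp n z hz).trans (lt_of_le_of_lt ?_ hN)
    apply one_div_le_one_div_of_le (by positivity)
    have : (N : ℝ) ≤ n := by exact_mod_cast hn
    linarith

end Pool.Agent.R237.Hz
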