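import Pool.Agent.R537.LR.Stm

/-!
# The spread of the copies of a row and of a column (LR-NOC, LR-NOD)
-/

set_option autoImplicit false

namespace Pool.Agent.R237.LRNCD

open Pool.Agent.NPC.R537LR


/-! ### Auxiliary facts -/

theorem nc_dev {m : ℕ} (hm : 0 < m) (x : Fin m → ℝ) (c : ℝ) :
    ∑ a, |x a - (∑ a', x a') / m| ≤ 2 * ∑ a, |x a - c| := by
  have hm' : (0 : ℝ) < m := by exact_mod_cast hm
  have h1 : (m : ℝ) * |c - (∑ a', x a') / m| ≤ ∑ a, |x a - c| := by
    have h2 : (m : ℝ) * (c - (∑ a', x a') / m) = ∑ a, (c - x a) := by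
      rw [Finset.sum_sub_distrib]
      simp
      field_simp
    calc (m : ℝ) * |c - (∑ a', x a') / m| = |(m : ℝ) * (c - (∑ a', x a') / m)| := by
          rw [abs_mul, abs_of_pos hm']
      _ = |∑ a, (c - x a)| := by rw [h2]
      _ ≤ ∑ a, |c - x a| := Finset.abs_sum_le_sum_abs _ _
      _ = ∑ a, |x a - c| := Finset.sum_congr rfl fun a _ => abs_sub_comm _ _
  calc ∑ a, |x a - (∑ a', x a') / m| ≤ ∑ a, (|x a - c| + |c - (∑ a', x a') / m|) := by
        apply Finset.sum_le_sum
        intro a _
        exact abs_sub_le _ _ _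
    _ = ∑ a, |x a - c| + m * |c - (∑ a', x a') / m| := by
        rw [Finset.sum_add_distrib]
        simp
    _ ≤ 2 * ∑ a, |x a - c| := by linarith

theorem nc_mean {m : ℕ} (hm : 0 < m) (x : Fin m → ℝ) (c e : ℝ) (h : ∀ a, |x a - c| ≤ e) :
    |(∑ a, x a) / m - c| ≤ e := by
  have hm' : (0 : ℝ) < m := by exact_mod_cast hm
  have h2 : (∑ a, x a) / m - c = (∑ a, (x a - c)) / m := by
    rw [Finset.sum_sub_distrib]
    simp
    field_simp
  rw [h2, abs_div, abs_of_pos hm', div_le_iff₀ hm']
  calc |∑ a, (x a - c)| ≤ ∑ a, |x a - c| := Finset.abs_sum_le_sum_abs _ _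
    _ ≤ ∑ a : Fin m, e := Finset.sum_le_sum fun a _ => h a
    _ = e * m := by simp; ring

theorem nc_inj {ι R : Type} [Fintype ι] [Fintype R] (f : ι → R) (hf : Function.Injective f)
    (g : R → ℝ) (hg : ∀ r, 0 ≤ g r) : ∑ i, g (f i) ≤ ∑ r, g r := by
  classical
  have h : ∑ i, g (f i) = ∑ r ∈ Finset.univ.map ⟨f, hf⟩, g r := by
    rw [Finset.sum_map]
    rfl
  rw [h]
  exact Finset.sum_le_sum_of_subset_of_nonneg (Finset.subset_univ _) fun r _ _ => hg r

theorem nc_slot (s : Fin 3) (D L v : Fin 3 → ℝ) (e : ℝ) (h1 : |L s - 1| ≤ e)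
    (h2 : ∀ s', s' ≠ s → |L s'| ≤ v s') :
    (1 - e) * |D s| ≤ |∑ s', D s' * L s'| + ∑ s' ∈ Finset.univ.erase s, v s' * |D s'| := by
  have h3 : D s * L s + ∑ s' ∈ Finset.univ.erase s, D s' * L s' = ∑ s', D s' * L s' :=
    Finset.add_sum_erase Finset.univ (fun s' => D s' * L s') (Finset.mem_univ s)
  have h4 : D s = (∑ s', D s' * L s') - (∑ s' ∈ Finset.univ.erase s, D s' * L s') -
      D s * (L s - 1) := by
    rw [← h3]; ring
  have h5 : |∑ s' ∈ Finset.univ.erase s, D s' * L s'| ≤
      ∑ s' ∈ Finset.univ.erase s, v s' * |D s'| := by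
    refine (Finset.abs_sum_le_sum_abs _ _).trans (Finset.sum_le_sum fun s' hs' => ?_)
    rw [abs_mul, mul_comm]
    exact mul_le_mul_of_nonneg_right (h2 s' (Finset.ne_of_mem_erase hs')) (abs_nonneg _)
  have h6 : |D s * (L s - 1)| ≤ e * |D s| := by
    rw [abs_mul, mul_comm]
    exact mul_le_mul_of_nonneg_right h1 (abs_nonneg _)
  have h7 : |D s| ≤ |∑ s', D s' * L s'| + |∑ s' ∈ Finset.univ.erase s, D s' * L s'| +
      |D s * (L s - 1)| := by
    calc |D s| = |(∑ s', D s' * L s') - (∑ s' ∈ Finset.univ.erase s, D s' * L s') -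
          D s * (L s - 1)| := by rw [← h4]
      _ ≤ |(∑ s', D s' * L s') - (∑ s' ∈ Finset.univ.erase s, D s' * L s')| +
          |D s * (L s - 1)| := abs_sub _ _
      _ ≤ _ := by
          have := abs_sub (∑ s', D s' * L s') (∑ s' ∈ Finset.univ.erase s, D s' * L s')
          linarith
  linarith

section

variable {R C : Type} {P : Pt R C} {m : ℕ} {p : R → Fin m → Fin 3 → ℝ} {l : C → Fin m → Fin 3 → ℝ}

theorem nc_dk_nonneg (r : R) (c : C) : 0 ≤ P.dk m p l r c := by
  unfold Pt.dk
  split_ifs
  · exact le_rfl
  · split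
    · positivity
    · exact le_rfl

theorem nc_dk_some {r : R} {c : C} {x : ℝ} (h : ¬ (r = P.ro ∧ c = P.co)) (hE : P.E r c = some x) :
    P.dk m p l r c = ∑ a, ∑ b, |x - ∑ s, p r a s * l c b s| := by
  unfold Pt.dk
  rw [if_neg h, hE]

theorem nc_row (hm : 0 < m) {r : R} {c : C} {x : ℝ} (h : ¬ (r = P.ro ∧ c = P.co))
    (hE : P.E r c = some x) :
    ∑ a, |x - ∑ s, p r a s * mean l c s| ≤ P.dk m p l r c / m := by
  have hm' : (0 : ℝ) < m := by exact_mod_cast hm
  rw [nc_dk_some h hE, le_div_iff₀ hm', Finset.sum_mul]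
  apply Finset.sum_le_sum
  intro a _
  have h1 : (x - ∑ s, p r a s * mean l c s) * m = ∑ b, (x - ∑ s, p r a s * l c b s) := by
    rw [Finset.sum_sub_distrib, Finset.sum_comm]
    simp only [Finset.sum_const, Finset.card_univ, Fintype.card_fin, nsmul_eq_mul, mean,
      ← Finset.mul_sum, sub_mul, Finset.sum_mul]
    congr 1
    · ring
    · apply Finset.sum_congr rfl
      intro s _
      field_simp
  calc |x - ∑ s, p r a s * mean l c s| * m = |(x - ∑ s, p r a s * mean l c s) * m| := by
        rw [abs_mul, abs_of_pos hm']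
    _ = |∑ b, (x - ∑ s, p r a s * l c b s)| := by rw [h1]
    _ ≤ _ := Finset.abs_sum_le_sum_abs _ _

theorem nc_col (hm : 0 < m) {r : R} {c : C} {x : ℝ} (h : ¬ (r = P.ro ∧ c = P.co))
    (hE : P.E r c = some x) :
    ∑ b, |x - ∑ s, mean p r s * l c b s| ≤ P.dk m p l r c / m := by
  have hm' : (0 : ℝ) < m := by exact_mod_cast hm
  rw [nc_dk_some h hE, le_div_iff₀ hm', Finset.sum_mul, Finset.sum_comm]
  apply Finset.sum_le_sum
  intro b _
  have h1 : (x - ∑ s, mean p r s * l c b s) * m = ∑ a, (x - ∑ s, p r a s * l c b s) := by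
    rw [Finset.sum_sub_distrib, Finset.sum_comm]
    simp only [Finset.sum_const, Finset.card_univ, Fintype.card_fin, nsmul_eq_mul, mean,
      ← Finset.sum_mul, sub_mul]
    congr 1
    · ring
    · rw [Finset.sum_mul]
      apply Finset.sum_congr rfl
      intro s _
      field_simp
  calc |x - ∑ s, mean p r s * l c b s| * m = |(x - ∑ s, mean p r s * l c b s) * m| := by
        rw [abs_mul, abs_of_pos hm']
    _ = |∑ a, (x - ∑ s, p r a s * l c b s)| := by rw [h1]
    _ ≤ _ := Finset.abs_sum_le_sum_abs _ _

theorem nc_tC (ok : P.OK) (j : Fin 3) : P.tC (P.ac j) = some j := (ok.tC_iff _ _).mpr rfl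
theorem nc_tR (ok : P.OK) (i : Fin 3) : P.tR (P.ar i) = some i := (ok.tR_iff _ _).mpr rfl

theorem nc_E1 {r : R} {c : C} {j : Fin 3} (h : P.tC c = some j) : P.E r c = P.rv r j := by
  unfold Pt.E
  rw [h]

theorem nc_E2 {r : R} {c : C} {i : Fin 3} (h : P.tC c = none) (h2 : P.tR r = some i) :
    P.E r c = P.cv c i := by
  unfold Pt.E
  rw [h, h2]

theorem nc_E3 {r : R} {c : C} (h : P.tC c = none) (h2 : P.tR r = none)
    (h3 : ¬ (r = P.ro ∧ c = P.co)) (hz : P.z r c = true) : P.E r c = some 0 := by
  unfold Pt.E
  rw [h, h2]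
  simp only
  rw [if_neg h3, if_pos hz]

theorem nc_w_nonneg {W Q : ℝ} (hW : 1 ≤ W) (hQ : 1 ≤ Q) (r : R) (c : C) : 0 ≤ P.w W Q r c := by
  unfold Pt.w
  apply mul_nonneg
  · split <;> linarith
  · split
    · nlinarith
    · split_ifs <;> linarith

theorem nc_bd_q (h : P.Bd m p l) (c : C) (b : Fin m) (i : Fin 3) :
    |P.q p l c b i - l c b i| ≤ 6 / 100 := by
  have h1 : P.q p l c b i - l c b i = ∑ s, (mean p (P.ar i) s - if i = s then 1 else 0) *
      l c b s := by
    simp only [sub_mul, Finset.sum_sub_distrib, Pt.q]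
    simp
  rw [h1]
  calc |∑ s, (mean p (P.ar i) s - if i = s then 1 else 0) * l c b s|
      ≤ ∑ s, |(mean p (P.ar i) s - if i = s then 1 else 0) * l c b s| :=
        Finset.abs_sum_le_sum_abs _ _
    _ ≤ ∑ s : Fin 3, (1 / 100) * 2 := by
        apply Finset.sum_le_sum
        intro s _
        rw [abs_mul]
        exact mul_le_mul (h.y i s) (h.l2 c b s) (abs_nonneg _) (by norm_num)
    _ = 6 / 100 := by
        simp
        norm_num

end

/-! ### Rows -/

theorem t_NOC : S_NOC := by
  intro R C _ _ _ _ P m W Q p l ok hm hW hQ bd r hr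
  have hm' : (0 : ℝ) < m := by exact_mod_cast hm
  have hmne : (m : ℝ) ≠ 0 := hm'.ne'
  set d : Fin 3 → ℝ := fun s => ∑ a, |p r a s - mean p r s| with hd
  have hd0 : ∀ s, 0 ≤ d s := fun s => Finset.sum_nonneg fun a _ => abs_nonneg _
  have htot : ∑ a, ∑ s, |p r a s - mean p r s| = ∑ s, d s := by
    rw [Finset.sum_comm]
  have hno : ∀ j, ¬ (r = P.ro ∧ P.ac j = P.co) := by
    rintro j ⟨_, h2⟩
    have h3 := nc_tC ok j
    rw [h2, ok.co_none] at h3
    exact absurd h3 (by simp)
  have known : ∀ s x, P.rv r s = some x → d s ≤ 2 * (P.dk m p l r (P.ac s) / m) := by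
    intro s x hx
    have hE : P.E r (P.ac s) = some x := by rw [nc_E1 (nc_tC ok s), hx]
    have h1 := nc_row (p := p) (l := l) hm (hno s) hE
    have h2 : ∀ a, ∑ s', p r a s' * mean l (P.ac s) s' = p r a s := by
      intro a
      simp only [bd.nrm]
      simp
    simp only [h2] at h1
    have h3 := nc_dev hm (fun a => p r a s) x
    have h4 : ∑ a, |p r a s - x| = ∑ a, |x - p r a s| :=
      Finset.sum_congr rfl fun a _ => abs_sub_comm _ _
    rw [h4] at h3
    have h5 : d s = ∑ a, |p r a s - (∑ a', p r a' s) / m| := rfl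
    rw [h5]
    linarith
  have hwk : ∀ j, Q ≤ P.w W Q r (P.ac j) := by
    intro j
    unfold Pt.w
    rw [hr, nc_tC ok j]
    simp only
    nlinarith
  have hdk : ∀ c, 0 ≤ P.dk m p l r c := fun c => nc_dk_nonneg r c
  have hw0 : ∀ c, 0 ≤ P.w W Q r c * P.dk m p l r c := fun c =>
    mul_nonneg (nc_w_nonneg hW hQ r c) (hdk c)
  rw [htot]
  by_cases hall : ∀ s, P.rv r s ≠ none
  · have h1 : ∀ s, d s ≤ 2 * (P.dk m p l r (P.ac s) / m) := by
      intro s
      obtain ⟨x, hx⟩ := Option.ne_none_iff_exists'.mp (hall s)
      exact known s x hx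
    have hinj : Function.Injective P.ac := by
      intro i j hij
      have := nc_tC ok i
      rw [hij, nc_tC ok j] at this
      exact (Option.some_injective _ this).symm
    have h2 := nc_inj P.ac hinj (fun c => P.w W Q r c * P.dk m p l r c) hw0
    have h3 : Q * ∑ s, d s ≤ ∑ s, 2 / m * (P.w W Q r (P.ac s) * P.dk m p l r (P.ac s)) := by
      rw [Finset.mul_sum]
      apply Finset.sum_le_sum
      intro s _
      calc Q * d s ≤ Q * (2 * (P.dk m p l r (P.ac s) / m)) :=
            mul_le_mul_of_nonneg_left (h1 s) (by linarith)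
        _ = 2 / m * (Q * P.dk m p l r (P.ac s)) := by ring
        _ ≤ _ := by
            apply mul_le_mul_of_nonneg_left _ (by positivity)
            exact mul_le_mul_of_nonneg_right (hwk s) (hdk _)
    rw [← Finset.mul_sum] at h3
    calc Q * ∑ s, d s ≤ 2 / m * ∑ s, P.w W Q r (P.ac s) * P.dk m p l r (P.ac s) := h3
      _ ≤ 2 / m * ∑ c, P.w W Q r c * P.dk m p l r c :=
          mul_le_mul_of_nonneg_left h2 (by positivity)
      _ ≤ 7 / m * ∑ c, P.w W Q r c * P.dk m p l r c := by
          apply mul_le_mul_of_nonneg_right _ (Finset.sum_nonneg fun c _ => hw0 c)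
          gcongr
          norm_num
  · push Not at hall
    obtain ⟨s, hs⟩ := hall
    obtain ⟨hoth, c, hc1, hc2, hc3, hc4⟩ := ok.ctr r s hr hs
    have hnc : ¬ (r = P.ro ∧ c = P.co) := fun h => hc2 h.2
    have hE : P.E r c = some 0 := nc_E3 hc1 hr hnc hc3
    have h1 := nc_row (p := p) (l := l) hm hnc hE
    -- the mean of the column
    have hL1 : |mean l c s - 1| ≤ 7 / 100 := by
      apply nc_mean hm (fun b => l c b s) 1 (7 / 100)
      intro b
      have e1 := bd.qk c b s 1 hc4
      have e2 := nc_bd_q bd c b s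
      rw [abs_le] at e1 e2 ⊢
      constructor <;> linarith [e1.1, e1.2, e2.1, e2.2]
    have hL2 : ∀ s', |mean l c s'| ≤ 2 := by
      intro s'
      have := nc_mean hm (fun b => l c b s') 0 2 (fun b => by simpa using bd.l2 c b s')
      simpa [mean] using this
    have h2 := nc_dev hm (fun a => ∑ s', p r a s' * mean l c s') 0
    have h3 : ∀ a, (∑ s', p r a s' * mean l c s') - (∑ a', ∑ s', p r a' s' * mean l c s') / m =
        ∑ s', (p r a s' - mean p r s') * mean l c s' := by
      intro a
      rw [Finset.sum_comm]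
      simp only [sub_mul, Finset.sum_sub_distrib, ← Finset.sum_mul]
      congr 1
      rw [Finset.sum_div]
      apply Finset.sum_congr rfl
      intro s' _
      simp only [mean]
      ring
    simp only [h3, sub_zero] at h2
    simp only [zero_sub, abs_neg] at h1
    have h4 : ∀ a, (1 - 7 / 100) * |p r a s - mean p r s| ≤
        |∑ s', (p r a s' - mean p r s') * mean l c s'| +
          ∑ s' ∈ Finset.univ.erase s, 2 * |p r a s' - mean p r s'| := by
      intro a
      exact nc_slot s (fun s' => p r a s' - mean p r s') (mean l c) (fun _ => 2) (7 / 100) hL1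
        (fun s' _ => hL2 s')
    have h5 : (1 - 7 / 100) * d s ≤ 2 * (P.dk m p l r c / m) +
        2 * ∑ s' ∈ Finset.univ.erase s, d s' := by
      have := Finset.sum_le_sum (fun a (_ : a ∈ Finset.univ) => h4 a)
      rw [← Finset.mul_sum, Finset.sum_add_distrib, Finset.sum_comm (s := Finset.univ)
        (t := Finset.univ.erase s)] at this
      simp only [← Finset.mul_sum] at this
      have e1 : ∑ a, |p r a s - mean p r s| = d s := rfl
      rw [e1] at this
      have e2 : ∑ s' ∈ Finset.univ.erase s, ∑ a, |p r a s' - mean p r s'| =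
        ∑ s' ∈ Finset.univ.erase s, d s' := rfl
      rw [e2] at this
      linarith
    have h6 : ∑ s' ∈ Finset.univ.erase s, d s' ≤
        ∑ s' ∈ Finset.univ.erase s, 2 * (P.dk m p l r (P.ac s') / m) := by
      apply Finset.sum_le_sum
      intro s' hs'
      obtain ⟨x, hx⟩ := Option.ne_none_iff_exists'.mp (hoth s' (Finset.ne_of_mem_erase hs'))
      exact known s' x hx
    have h7 : d s + ∑ s' ∈ Finset.univ.erase s, d s' = ∑ s', d s' :=
      Finset.add_sum_erase _ _ (Finset.mem_univ s)
    have hk0 : 0 ≤ ∑ s' ∈ Finset.univ.erase s, d s' := Finset.sum_nonneg fun s' _ => hd0 s'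
    have hdc0 : 0 ≤ P.dk m p l r c / m := div_nonneg (hdk c) hm'.le
    set f : Fin 3 → C := fun s' => if s' = s then c else P.ac s' with hf
    have hfs : f s = c := by simp [hf]
    have hfs' : ∀ s', s' ≠ s → f s' = P.ac s' := by
      intro s' h
      simp [hf, h]
    have hcne : ∀ j, P.ac j ≠ c := by
      intro j h
      have := nc_tC ok j
      rw [h, hc1] at this
      exact absurd this (by simp)
    have hinj : Function.Injective f := by
      intro i j hij
      by_cases h1 : i = s
      · by_cases h2 : j = s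
        · rw [h1, h2]
        · exfalso
          rw [h1, hfs, hfs' j h2] at hij
          exact hcne j hij.symm
      · by_cases h2 : j = s
        · exfalso
          rw [h2, hfs, hfs' i h1] at hij
          exact hcne i hij
        · rw [hfs' i h1, hfs' j h2] at hij
          have := nc_tC ok i
          rw [hij, nc_tC ok j] at this
          exact (Option.some_injective _ this).symm
    have h8 := nc_inj f hinj (fun c => P.w W Q r c * P.dk m p l r c) hw0
    have h9 : P.w W Q r c * P.dk m p l r c + ∑ s' ∈ Finset.univ.erase s,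
        P.w W Q r (P.ac s') * P.dk m p l r (P.ac s') =
        ∑ s', P.w W Q r (f s') * P.dk m p l r (f s') := by
      rw [← Finset.add_sum_erase _ _ (Finset.mem_univ s), hfs]
      congr 1
      apply Finset.sum_congr rfl
      intro s' hs'
      rw [hfs' s' (Finset.ne_of_mem_erase hs')]
    have hwc : P.w W Q r c = Q := by
      unfold Pt.w
      rw [hr, hc1]
      simp [hc2]
    have h10 : Q * ∑ s' ∈ Finset.univ.erase s, 2 * (P.dk m p l r (P.ac s') / m) ≤
        2 / m * ∑ s' ∈ Finset.univ.erase s, P.w W Q r (P.ac s') * P.dk m p l r (P.ac s') := by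
      rw [Finset.mul_sum, Finset.mul_sum]
      apply Finset.sum_le_sum
      intro s' _
      calc Q * (2 * (P.dk m p l r (P.ac s') / m)) = 2 / m * (Q * P.dk m p l r (P.ac s')) := by
            ring
        _ ≤ _ := by
            apply mul_le_mul_of_nonneg_left _ (by positivity)
            exact mul_le_mul_of_nonneg_right (hwk s') (hdk _)
    set K := ∑ s' ∈ Finset.univ.erase s, P.w W Q r (P.ac s') * P.dk m p l r (P.ac s') with hK
    have hK0 : 0 ≤ K := Finset.sum_nonneg fun s' _ => hw0 _
    have hQK : Q * ∑ s' ∈ Finset.univ.erase s, d s' ≤ 2 / m * K :=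
      (mul_le_mul_of_nonneg_left h6 (by linarith)).trans h10
    have hQc : Q * (P.dk m p l r c / m) = 1 / m * (Q * P.dk m p l r c) := by ring
    have h11 : Q * ∑ s', d s' ≤ 7 / m * (Q * P.dk m p l r c + K) := by
      rw [← h7, mul_add]
      have e1 : (1 - 7 / 100) * (Q * d s) ≤ 2 * (1 / m * (Q * P.dk m p l r c)) +
          2 * (Q * ∑ s' ∈ Finset.univ.erase s, d s') := by
        rw [← hQc]
        nlinarith [mul_le_mul_of_nonneg_left h5 (by linarith : (0:ℝ) ≤ Q)]
      have e2 : 7 / m * (Q * P.dk m p l r c + K) = 7 * (1 / m * (Q * P.dk m p l r c)) +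
          7 * (1 / m * K) := by ring
      have e3 : 2 / m * K = 2 * (1 / m * K) := by ring
      have e4 : 0 ≤ 1 / m * (Q * P.dk m p l r c) := by
        have := hdk c
        positivity
      have e5 : 0 ≤ 1 / (m : ℝ) * K := by positivity
      rw [e2]
      rw [e3] at hQK
      linarith
    calc Q * ∑ s', d s' ≤ 7 / m * (Q * P.dk m p l r c + K) := h11
      _ = 7 / m * ∑ s', P.w W Q r (f s') * P.dk m p l r (f s') := by rw [← h9, hwc]
      _ ≤ 7 / m * ∑ c, P.w W Q r c * P.dk m p l r c :=
          mul_le_mul_of_nonneg_left h8 (by positivity)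

/-! ### Columns -/

theorem t_NOD : S_NOD := by
  intro R C _ _ _ _ P m W Q p l ok hm hW hQ bd c hc
  have hm' : (0 : ℝ) < m := by exact_mod_cast hm
  set κ : ℝ := (if c = P.co then 1 else Q) with hκ
  have hκ0 : 0 < κ := by
    rw [hκ]
    split_ifs <;> linarith
  have hdk : ∀ r, 0 ≤ P.dk m p l r c := fun r => nc_dk_nonneg r c
  have hw0 : ∀ r, 0 ≤ P.w W Q r c * P.dk m p l r c := fun r =>
    mul_nonneg (nc_w_nonneg hW hQ r c) (hdk r)
  have hwA : ∀ i, κ ≤ P.w W Q (P.ar i) c := by
    intro i
    have : P.w W Q (P.ar i) c = W * κ := by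
      unfold Pt.w
      rw [nc_tR ok i, hc, hκ]
      by_cases hco : c = P.co
      · simp [hco]
      · simp [hco]
    rw [this]
    nlinarith
  have hwB : ∀ r, P.tR r = none → κ ≤ P.w W Q r c := by
    intro r hr
    have : P.w W Q r c = 1 * κ := by
      unfold Pt.w
      rw [hr, hc, hκ]
      by_cases hco : c = P.co
      · simp [hco]
      · simp [hco]
    rw [this]
    linarith
  -- the controllers
  have hex : ∀ s, ∃ r : R, (P.cv c s ≠ none ∧ r = P.ar s) ∨ (P.cv c s = none ∧ P.tR r = none ∧
      P.z r c = true ∧ P.rv r s = some 1 ∧ ∀ s', s' ≠ s → P.cv c s' = none →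
        P.rv r s' = some 0) := by
    intro s
    by_cases h : P.cv c s = none
    · obtain ⟨r, h1, h2, h3, h4⟩ := ok.ctc c s hc h
      exact ⟨r, Or.inr ⟨h, h1, h2, h3, h4⟩⟩
    · exact ⟨P.ar s, Or.inl ⟨h, rfl⟩⟩
  choose f hf using hex
  have hwf : ∀ s, κ ≤ P.w W Q (f s) c := by
    intro s
    rcases hf s with h | h
    · rw [h.2]
      exact hwA s
    · exact hwB _ h.2.1
  have hinj : Function.Injective f := by
    intro i j hij
    by_contra hne
    rcases hf i with h | h
    · rcases hf j with h' | h'
      · have e1 := nc_tR ok i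
        rw [← h.2, hij, h'.2, nc_tR ok j] at e1
        exact hne (Option.some_injective _ e1).symm
      · have e1 := nc_tR ok i
        rw [← h.2, hij, h'.2.1] at e1
        exact absurd e1 (by simp)
    · rcases hf j with h' | h'
      · have e1 := nc_tR ok j
        rw [← h'.2, ← hij, h.2.1] at e1
        exact absurd e1 (by simp)
      · have e1 := h.2.2.2.2 j (Ne.symm hne) h'.1
        rw [hij, h'.2.2.2.1] at e1
        have := Option.some_injective _ e1
        norm_num at this
  have hsum := nc_inj f hinj (fun r => P.w W Q r c * P.dk m p l r c) hw0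
  -- deviations
  set D : Fin m → Fin 3 → ℝ := fun b s => l c b s - mean l c s with hD
  set h : Fin m → Fin 3 → ℝ := fun b s =>
    if P.cv c s = none then |∑ s', D b s' * mean p (f s) s'| else
      |∑ s', D b s' * mean p (P.ar s) s'| with hh
  have hh0 : ∀ b s, 0 ≤ h b s := by
    intro b s
    simp only [hh]
    split_ifs <;> positivity
  have hdev : ∀ r x, ¬ (r = P.ro ∧ c = P.co) → P.E r c = some x →
      ∑ b, |∑ s', D b s' * mean p r s'| ≤ 2 * (P.dk m p l r c / m) := by
    intro r x hno hE
    have h1 := nc_col (p := p) (l := l) hm hno hE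
    have h2 := nc_dev hm (fun b => ∑ s', mean p r s' * l c b s') x
    have h3 : ∀ b, (∑ s', mean p r s' * l c b s') - (∑ b', ∑ s', mean p r s' * l c b' s') / m =
        ∑ s', D b s' * mean p r s' := by
      intro b
      rw [Finset.sum_comm]
      simp only [hD, sub_mul, Finset.sum_sub_distrib, ← Finset.mul_sum]
      congr 1
      · exact Finset.sum_congr rfl fun s' _ => mul_comm _ _
      · rw [Finset.sum_div]
        apply Finset.sum_congr rfl
        intro s' _
        simp only [mean]
        ring
    simp only [h3] at h2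
    have h4 : ∑ b, |∑ s', mean p r s' * l c b s' - x| =
        ∑ b, |x - ∑ s', mean p r s' * l c b s'| :=
      Finset.sum_congr rfl fun a _ => abs_sub_comm _ _
    rw [h4] at h2
    linarith
  have hhs : ∀ s, ∑ b, h b s ≤ 2 * (P.dk m p l (f s) c / m) := by
    intro s
    rcases hf s with h' | h'
    · obtain ⟨x, hx⟩ := Option.ne_none_iff_exists'.mp h'.1
      have hE : P.E (P.ar s) c = some x := by rw [nc_E2 hc (nc_tR ok s), hx]
      have hno : ¬ (P.ar s = P.ro ∧ c = P.co) := by
        rintro ⟨e1, _⟩
        have := nc_tR ok s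
        rw [e1, ok.ro_none] at this
        exact absurd this (by simp)
      have := hdev _ x hno hE
      rw [h'.2]
      simp only [hh, if_neg h'.1]
      exact this
    · have hcco : c ≠ P.co := by
        intro e1
        have := h'.2.2.1
        rw [e1, ok.z_co] at this
        exact absurd this (by simp)
      have hno : ¬ (f s = P.ro ∧ c = P.co) := fun e => hcco e.2
      have hE : P.E (f s) c = some 0 := nc_E3 hc h'.2.1 hno h'.2.2.1
      have := hdev _ 0 hno hE
      simp only [hh, if_pos h'.1]
      exact this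
  -- pointwise bound
  have hpt : ∀ b, ∑ s, |D b s| ≤ 12 * ∑ s, h b s := by
    intro b
    set k : ℝ := ∑ s, (if P.cv c s = none then 0 else |D b s|) with hk
    set u : ℝ := ∑ s, (if P.cv c s = none then |D b s| else 0) with hu
    have hk0 : 0 ≤ k := Finset.sum_nonneg fun s _ => by split_ifs <;> positivity
    have hu0 : 0 ≤ u := Finset.sum_nonneg fun s _ => by split_ifs <;> positivity
    have hku : ∑ s, |D b s| = k + u := by
      rw [hk, hu, ← Finset.sum_add_distrib]
      apply Finset.sum_congr rfl
      intro s _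
      split_ifs <;> ring
    have hA : k ≤ ∑ s, (if P.cv c s = none then 0 else h b s) + 3 / 100 * (k + u) := by
      have h1 : ∀ s, (if P.cv c s = none then 0 else |D b s|) ≤
          (if P.cv c s = none then 0 else h b s) + 1 / 100 * (k + u) := by
        intro s
        split_ifs with hs
        · positivity
        · have e1 : h b s = |∑ s', D b s' * mean p (P.ar s) s'| := by
            simp only [hh, if_neg hs]
          rw [e1]
          have e2 : D b s = (∑ s', D b s' * mean p (P.ar s) s') -
              ∑ s', D b s' * (mean p (P.ar s) s' - if s = s' then 1 else 0) := by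
            simp only [mul_sub, Finset.sum_sub_distrib]
            simp
          have e3 : |∑ s', D b s' * (mean p (P.ar s) s' - if s = s' then 1 else 0)| ≤
              1 / 100 * (k + u) := by
            rw [← hku, Finset.mul_sum]
            refine (Finset.abs_sum_le_sum_abs _ _).trans (Finset.sum_le_sum fun s' _ => ?_)
            rw [abs_mul, mul_comm]
            exact mul_le_mul_of_nonneg_right (bd.y s s') (abs_nonneg _)
          calc |D b s| = |(∑ s', D b s' * mean p (P.ar s) s') -
              ∑ s', D b s' * (mean p (P.ar s) s' - if s = s' then 1 else 0)| := by rw [← e2]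
            _ ≤ _ := (abs_sub _ _).trans (by linarith)
      have h2 := Finset.sum_le_sum (fun s (_ : s ∈ (Finset.univ : Finset (Fin 3))) => h1 s)
      rw [Finset.sum_add_distrib] at h2
      simp only [Finset.sum_const, Finset.card_univ, Fintype.card_fin, nsmul_eq_mul] at h2
      rw [← hk] at h2
      push_cast at h2
      linarith
    have hB : (1 - 1 / 100) * u ≤ ∑ s, (if P.cv c s = none then h b s else 0) +
        3 * (2 * k + 1 / 100 * u) := by
      have h1 : ∀ s, (1 - 1 / 100) * (if P.cv c s = none then |D b s| else 0) ≤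
          (if P.cv c s = none then h b s else 0) + (2 * k + 1 / 100 * u) := by
        intro s
        split_ifs with hs
        · have e1 : h b s = |∑ s', D b s' * mean p (f s) s'| := by
            simp only [hh, if_pos hs]
          rw [e1]
          rcases hf s with h' | h'
          · exact absurd hs h'.1
          · have m1 : |mean p (f s) s - 1| ≤ 1 / 100 := by
              apply nc_mean hm (fun a => p (f s) a s) 1 (1 / 100)
              intro a
              exact bd.pk _ a s 1 h'.2.2.2.1
            have m2 : ∀ s', s' ≠ s → |mean p (f s) s'| ≤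
                (fun s' => if P.cv c s' = none then (1 / 100 : ℝ) else 2) s' := by
              intro s' hs'
              simp only
              split_ifs with h4
              · have := nc_mean hm (fun a => p (f s) a s') 0 (1 / 100) (fun a =>
                  bd.pk _ a s' 0 (h'.2.2.2.2 s' hs' h4))
                simpa [mean] using this
              · have := nc_mean hm (fun a => p (f s) a s') 0 2 (fun a => by
                  simpa using bd.p2 (f s) a s')
                simpa [mean] using this
            have m3 := nc_slot s (D b) (mean p (f s))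
              (fun s' => if P.cv c s' = none then (1 / 100 : ℝ) else 2) (1 / 100) m1 m2
            have m4 : ∑ s' ∈ Finset.univ.erase s,
                (fun s' => if P.cv c s' = none then (1 / 100 : ℝ) else 2) s' * |D b s'| ≤
                2 * k + 1 / 100 * u := by
              calc _ ≤ ∑ s', (fun s' => if P.cv c s' = none then (1 / 100 : ℝ) else 2) s' *
                    |D b s'| := by
                    apply Finset.sum_le_sum_of_subset_of_nonneg (Finset.erase_subset _ _)
                    intro i _ _
                    simp only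
                    split_ifs <;> positivity
                _ = 2 * k + 1 / 100 * u := by
                    rw [hk, hu, Finset.mul_sum, Finset.mul_sum, ← Finset.sum_add_distrib]
                    apply Finset.sum_congr rfl
                    intro i _
                    simp only
                    split_ifs <;> ring
            linarith
        · simp only [mul_zero, zero_add]
          positivity
      have h2 := Finset.sum_le_sum (fun s (_ : s ∈ (Finset.univ : Finset (Fin 3))) => h1 s)
      rw [Finset.sum_add_distrib, ← Finset.mul_sum] at h2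
      simp only [Finset.sum_const, Finset.card_univ, Fintype.card_fin, nsmul_eq_mul] at h2
      rw [← hu] at h2
      push_cast at h2
      linarith
    have hA0 : 0 ≤ ∑ s, (if P.cv c s = none then 0 else h b s) :=
      Finset.sum_nonneg fun s _ => by
        split_ifs
        · exact le_rfl
        · exact hh0 b s
    have hB0 : 0 ≤ ∑ s, (if P.cv c s = none then h b s else 0) :=
      Finset.sum_nonneg fun s _ => by
        split_ifs
        · exact hh0 b s
        · exact le_rfl
    have hAB : ∑ s, h b s = ∑ s, (if P.cv c s = none then 0 else h b s) +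
        ∑ s, (if P.cv c s = none then h b s else 0) := by
      rw [← Finset.sum_add_distrib]
      apply Finset.sum_congr rfl
      intro s _
      split_ifs <;> ring
    rw [hku, hAB]
    linarith
  calc κ * ∑ b, ∑ s, |D b s| ≤ κ * ∑ b, 12 * ∑ s, h b s :=
        mul_le_mul_of_nonneg_left (Finset.sum_le_sum fun b _ => hpt b) hκ0.le
    _ = 12 * κ * ∑ s, ∑ b, h b s := by
        rw [← Finset.mul_sum, Finset.sum_comm]
        ring
    _ ≤ 12 * κ * ∑ s, 2 * (P.dk m p l (f s) c / m) :=
        mul_le_mul_of_nonneg_left (Finset.sum_le_sum fun s _ => hhs s) (by positivity)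
    _ = 24 / m * ∑ s, κ * P.dk m p l (f s) c := by
        rw [Finset.mul_sum, Finset.mul_sum]
        apply Finset.sum_congr rfl
        intro s _
        ring
    _ ≤ 24 / m * ∑ s, P.w W Q (f s) c * P.dk m p l (f s) c := by
        apply mul_le_mul_of_nonneg_left _ (by positivity)
        apply Finset.sum_le_sum
        intro s _
        exact mul_le_mul_of_nonneg_right (hwf s) (hdk _)
    _ ≤ 24 / m * ∑ r, P.w W Q r c * P.dk m p l r c :=
        mul_le_mul_of_nonneg_left hsum (by positivity)

end Pool.Agent.R237.LRNCD
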