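import Mathlib
import Pool.Agent.R237.Ann
import Pool.Agent.R237.Prod
import Pool.Agent.R237.Bwd

/-! An entire function with a multiply connected wandering domain of infinite inner connectivity with
uncountably many singleton complementary components: the function and its estimates. -/

set_option autoImplicit false

open Filter Topology Metric Set

namespace Pool.Agent.R237.Sing

open Pool.Agent.H384R2.Fatou Pool.Agent.W723.MC Pool.Agent.TH224.SC Pool.Agent.R237 Pool.Agent.R237.Prod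

/-- the next radius -/
noncomputable def rn (m : ℕ) (r : ℝ) (P : ℝ → ℝ) : ℝ := (2 * P r + (400 * r) ^ (m + 2)) ^ (m + 2)

/-- the exponent -/
noncomputable def kk (m : ℕ) (r : ℝ) (P : ℝ → ℝ) : ℕ :=
  2 * (⌈4 * (400 * rn m r P) ^ (m + 3) + (400 * rn m r P) * P (300 * r) + 1⌉₊ + 2)

/-- the states of the construction -/
noncomputable def st : ℕ → ℝ × (ℝ → ℝ)
  | 0 => (1, fun x => x)
  | m + 1 => (rn m (st m).1 (st m).2,
      fun x => (st m).2 x * ((1 + (x / (2 * (st m).1)) ^ (kk m (st m).1 (st m).2)) *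
        (1 + (x / (200 * (st m).1)) ^ 2)))

/-- the radii -/
noncomputable def r (m : ℕ) : ℝ := (st m).1
/-- majorants of the partial products -/
noncomputable def PP (m : ℕ) : ℝ → ℝ := (st m).2
/-- exponents -/
noncomputable def k (m : ℕ) : ℕ := kk m (r m) (PP m)
/-- bound for `|f|` on `|z| ≤ r m` -/
noncomputable def Rp (m : ℕ) : ℝ := 2 * PP m (r m) + (400 * r m) ^ (m + 2)
/-- the radii `s m` -/
noncomputable def s (m : ℕ) : ℝ := 400 * r m

theorem r_zero : r 0 = 1 := rfl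
theorem PP_zero (x : ℝ) : PP 0 x = x := rfl
theorem r_succ (m : ℕ) : r (m + 1) = Rp m ^ (m + 2) := rfl
theorem PP_succ (m : ℕ) (x : ℝ) :
    PP (m + 1) x = PP m x * ((1 + (x / (2 * r m)) ^ k m) * (1 + (x / (200 * r m)) ^ 2)) := rfl

theorem k_even (m : ℕ) : Even (k m) := ⟨_, two_mul _⟩

theorem k_four (m : ℕ) : 4 ≤ k m := by
  unfold k kk
  omega

theorem k_big (m : ℕ) : 4 * s (m + 1) ^ (m + 3) + s (m + 1) * PP m (300 * r m) + 1 ≤ 2 ^ k m := by
  set X : ℝ := 4 * s (m + 1) ^ (m + 3) + s (m + 1) * PP m (300 * r m) + 1 with hX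
  have h1 : k m = 2 * (⌈X⌉₊ + 2) := rfl
  have h2 : X ≤ (⌈X⌉₊ : ℝ) := Nat.le_ceil X
  have h3 : (⌈X⌉₊ : ℝ) ≤ ((2 ^ ⌈X⌉₊ : ℕ) : ℝ) := by exact_mod_cast (Nat.lt_two_pow_self).le
  have h4 : ((2 ^ ⌈X⌉₊ : ℕ) : ℝ) ≤ 2 ^ k m := by
    push_cast
    exact pow_le_pow_right₀ (by norm_num) (by omega)
  linarith

theorem basic (m : ℕ) : 1 ≤ r m ∧ ∀ x : ℝ, 0 ≤ x → x ≤ PP m x := by
  induction m with
  | zero => exact ⟨le_rfl, fun x _ => le_rfl⟩
  | succ m ih =>
    obtain ⟨h1, h2⟩ := ih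
    refine ⟨?_, fun x hx => ?_⟩
    · rw [r_succ]
      apply one_le_pow₀
      have h3 := h2 (r m) (by linarith)
      have h4 : 0 ≤ (400 * r m) ^ (m + 2) := by positivity
      unfold Rp
      linarith
    · rw [PP_succ]
      have h3 : 0 ≤ (x / (2 * r m)) ^ k m := by positivity
      have h4 : 0 ≤ (x / (200 * r m)) ^ 2 := by positivity
      have h5 : 1 ≤ (1 + (x / (2 * r m)) ^ k m) * (1 + (x / (200 * r m)) ^ 2) := by nlinarith
      have h6 := h2 x hx
      calc x ≤ PP m x := h6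
        _ = PP m x * 1 := (mul_one _).symm
        _ ≤ _ := mul_le_mul_of_nonneg_left h5 (hx.trans h6)

theorem r_one (m : ℕ) : 1 ≤ r m := (basic m).1
theorem r_pos (m : ℕ) : 0 < r m := by linarith [r_one m]
theorem PP_ge (m : ℕ) {x : ℝ} (hx : 0 ≤ x) : x ≤ PP m x := (basic m).2 x hx

theorem PP_mono (m : ℕ) {x y : ℝ} (hx : 0 ≤ x) (hxy : x ≤ y) : PP m x ≤ PP m y := by
  induction m with
  | zero => exact hxy
  | succ m ih =>
    rw [PP_succ, PP_succ]
    have hr := r_pos m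
    have hy : 0 ≤ y := hx.trans hxy
    have h1 : (x / (2 * r m)) ^ k m ≤ (y / (2 * r m)) ^ k m := by gcongr
    have h2 : (x / (200 * r m)) ^ 2 ≤ (y / (200 * r m)) ^ 2 := by gcongr
    have h3 : 0 ≤ (x / (2 * r m)) ^ k m := by positivity
    have h4 : 0 ≤ (x / (200 * r m)) ^ 2 := by positivity
    have h5 := hx.trans (PP_ge m hx)
    have h6 := hy.trans (PP_ge m hy)
    refine mul_le_mul ih ?_ (by positivity) h6
    exact mul_le_mul (by linarith) (by linarith) (by positivity) (by positivity)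

theorem s_pow_le (m : ℕ) : s m ^ (m + 2) ≤ Rp m := by
  have h1 := PP_ge m (r_pos m).le
  have h2 := r_pos m
  unfold Rp s
  linarith

theorem s_ge (m : ℕ) : 400 ≤ s m := by
  unfold s
  linarith [r_one m]

theorem Rp_ge (m : ℕ) : s m ^ 2 ≤ Rp m :=
  (pow_le_pow_right₀ (by linarith [s_ge m]) (by omega)).trans (s_pow_le m)

theorem Rp_lt_r (m : ℕ) : Rp m < r (m + 1) := by
  rw [r_succ]
  have h1 := Rp_ge m
  have h2 := s_ge m
  have h3 : 1 < Rp m := by nlinarith
  calc Rp m = Rp m ^ 1 := (pow_one _).symm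
    _ < Rp m ^ (m + 2) := pow_lt_pow_right₀ h3 (by omega)

theorem r_growth (m : ℕ) : 160000 * r m ≤ r (m + 1) := by
  have h1 := Rp_lt_r m
  have h2 := Rp_ge m
  have h3 := r_one m
  unfold s at h2
  nlinarith

theorem seq_r : Seq r where
  pos := r_pos
  four := fun j => by
    have := r_growth j
    have := r_pos j
    linarith

/-! ### the function -/

/-- the factors -/
noncomputable def g (m : ℕ) (z : ℂ) : ℂ :=
  (1 + (z / (2 * r m : ℝ)) ^ k m) * (1 - (z / (200 * r m : ℝ)) ^ 2)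

/-- the entire function -/
noncomputable def f (z : ℂ) : ℂ := z * ∏' m, g m z

theorem g_sub (m : ℕ) {z : ℂ} (hz : ‖z‖ ≤ r m) : ‖g m z - 1‖ ≤ ‖z‖ / 4 / r m := by
  have hr := r_pos m
  set q : ℝ := ‖z‖ / r m with hq
  have hq0 : 0 ≤ q := by positivity
  have hq1 : q ≤ 1 := by rw [hq, div_le_one hr]; exact hz
  have h1 : ‖(z / (2 * r m : ℝ)) ^ k m‖ ≤ 1 / 8 * q := by
    rw [norm_pow, norm_div, Complex.norm_real, Real.norm_of_nonneg (by positivity)]
    have e : ‖z‖ / (2 * r m) = q / 2 := by rw [hq]; field_simp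
    rw [e]
    calc (q / 2) ^ k m ≤ (q / 2) ^ 3 :=
          pow_le_pow_of_le_one (by positivity) (by linarith) (by have := k_four m; omega)
      _ = 1 / 8 * (q * (q * q)) := by ring
      _ ≤ 1 / 8 * (q * (1 * 1)) := by gcongr
      _ = 1 / 8 * q := by ring
  have h2 : ‖(z / (200 * r m : ℝ)) ^ 2‖ ≤ 1 / 40000 * q := by
    rw [norm_pow, norm_div, Complex.norm_real, Real.norm_of_nonneg (by positivity)]
    have e : ‖z‖ / (200 * r m) = q / 200 := by rw [hq]; field_simp
    rw [e]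
    calc (q / 200) ^ 2 = 1 / 40000 * (q * q) := by ring
      _ ≤ 1 / 40000 * (q * 1) := by gcongr
      _ = 1 / 40000 * q := by ring
  have e : g m z - 1 = (z / (2 * r m : ℝ)) ^ k m - (z / (200 * r m : ℝ)) ^ 2 -
      (z / (2 * r m : ℝ)) ^ k m * (z / (200 * r m : ℝ)) ^ 2 := by
    unfold g; ring
  rw [e]
  have h3 : ‖(z / (2 * r m : ℝ)) ^ k m * (z / (200 * r m : ℝ)) ^ 2‖ ≤ 1 / 8 * q * (1 / 40000 * q) := by
    rw [norm_mul]
    exact mul_le_mul h1 h2 (norm_nonneg _) (by positivity)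
  have h4 : ‖z‖ / 4 / r m = q / 4 := by rw [hq]; ring
  rw [h4]
  calc _ ≤ ‖(z / (2 * r m : ℝ)) ^ k m - (z / (200 * r m : ℝ)) ^ 2‖ +
        ‖(z / (2 * r m : ℝ)) ^ k m * (z / (200 * r m : ℝ)) ^ 2‖ := norm_sub_le _ _
    _ ≤ (‖(z / (2 * r m : ℝ)) ^ k m‖ + ‖(z / (200 * r m : ℝ)) ^ 2‖) +
        ‖(z / (2 * r m : ℝ)) ^ k m * (z / (200 * r m : ℝ)) ^ 2‖ := by
          gcongr; exact norm_sub_le _ _
    _ ≤ _ := by nlinarith

theorem summ (z : ℂ) : Summable fun m => ‖g m z - 1‖ := by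
  have h1 : Summable fun m => ‖z‖ / 4 * (r m)⁻¹ := seq_r.summ_inv.mul_left _
  refine Summable.of_norm_bounded_eventually_nat h1 ?_
  filter_upwards [seq_r.tendsto.eventually_ge_atTop ‖z‖] with m hm
  rw [norm_norm]
  exact g_sub m hm

theorem hasProd (z : ℂ) : HasProd (fun m => g m z) (∏' m, g m z) := by
  have h1 := (multipliable_one_add_of_summable (summ z)).hasProd
  have e : (fun m => 1 + (g m z - 1)) = fun m => g m z := by funext m; ring
  rw [e] at h1
  exact h1

theorem g_diff (m : ℕ) : Differentiable ℂ (g m) := by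
  unfold g
  fun_prop

theorem locUnif (T : ℝ) :
    HasProdLocallyUniformlyOn (fun m (z : ℂ) => g m z) (fun z => ∏' m, g m z) (ball 0 T) := by
  have hu : Summable fun m => T / 4 * (r m)⁻¹ := seq_r.summ_inv.mul_left _
  have h := hu.hasProdLocallyUniformlyOn_nat_one_add (f := fun m (z : ℂ) => g m z - 1)
    (K := ball (0 : ℂ) T) isOpen_ball (by
      filter_upwards [seq_r.tendsto.eventually_ge_atTop T] with m hm z hz
      rw [mem_ball_zero_iff] at hz
      refine (g_sub m (by linarith)).trans ?_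
      rw [div_eq_mul_inv (‖z‖ / 4)]
      have := r_pos m
      gcongr) (fun m => ((g_diff m).continuous.sub continuous_const).continuousOn)
  simpa using h

theorem f_diff : Differentiable ℂ f := by
  unfold f
  refine differentiable_id.mul fun z => ?_
  have h1 : DifferentiableOn ℂ (fun z => ∏' m, g m z) (ball 0 (‖z‖ + 1)) := by
    refine (locUnif (‖z‖ + 1)).differentiableOn (Eventually.of_forall fun s => ?_) isOpen_ball
    have h3 : DifferentiableOn ℂ (∏ m ∈ s, g m) (ball 0 (‖z‖ + 1)) :=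
      DifferentiableOn.finsetProd fun m _ => (g_diff m).differentiableOn
    simpa [Finset.prod_fn] using h3
  exact h1.differentiableAt (isOpen_ball.mem_nhds (by simp))

theorem f_zero : f 0 = 0 := by
  unfold f
  rw [zero_mul]

theorem f_odd (z : ℂ) : f (-z) = - f z := by
  unfold f
  have : (fun m => g m (-z)) = fun m => g m z := by
    funext m
    unfold g
    rw [neg_div, (k_even m).neg_pow, neg_div, neg_sq]
  rw [this]
  ring

theorem tail_bounds {M : ℕ} {z : ℂ} (hz : ‖z‖ ≤ r M) (N : ℕ) :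
    2 / 3 ≤ ∏ j ∈ Finset.range N, ‖g (M + j) z‖ ∧ ∏ j ∈ Finset.range N, ‖g (M + j) z‖ ≤ 3 / 2 := by
  have hz' : ∀ j, ‖z‖ ≤ r (M + j) := fun j => hz.trans (seq_r.mono.monotone (Nat.le_add_right M j))
  constructor
  · refine (Bwd.tail_half seq_r (y := ‖z‖ / 4) (m := M) (by positivity) (by linarith) N).trans ?_
    refine Finset.prod_le_prod (fun j _ => ?_) fun j _ => ?_
    · have : ‖z‖ / 4 / r (M + j) ≤ 1 := by
        rw [div_le_one (r_pos _)]
        have := hz' j
        have := norm_nonneg z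
        linarith
      linarith
    · have h1 := g_sub (M + j) (hz' j)
      have h2 := norm_sub_norm_le (1 : ℂ) (-(g (M + j) z - 1))
      rw [norm_one, norm_neg, sub_neg_eq_add, add_sub_cancel] at h2
      linarith
  · refine le_trans ?_ (Bwd.tail_upper seq_r (y := ‖z‖ / 4) (m := M) (by positivity) (by linarith) N)
    refine Finset.prod_le_prod (fun j _ => norm_nonneg _) fun j _ => ?_
    have h1 := g_sub (M + j) (hz' j)
    have h2 := norm_add_le (1 : ℂ) (g (M + j) z - 1)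
    rw [norm_one, add_sub_cancel] at h2
    linarith

/-- two-sided comparison of `f` with its partial product -/
theorem f_bounds {M : ℕ} {z : ℂ} (hz : ‖z‖ ≤ r M) :
    2 / 3 * (‖z‖ * ∏ j ∈ Finset.range M, ‖g j z‖) ≤ ‖f z‖ ∧
      ‖f z‖ ≤ 3 / 2 * (‖z‖ * ∏ j ∈ Finset.range M, ‖g j z‖) := by
  have hlim : Tendsto (fun N => ‖z‖ * ∏ j ∈ Finset.range N, ‖g j z‖) atTop (𝓝 ‖f z‖) := by
    have h1 := ((hasProd z).tendsto_prod_nat.const_mul z).norm
    refine (h1.congr fun N => ?_)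
    rw [norm_mul, norm_prod]
  have hP : 0 ≤ ‖z‖ * ∏ j ∈ Finset.range M, ‖g j z‖ := by positivity
  constructor
  · refine ge_of_tendsto hlim ?_
    filter_upwards [eventually_ge_atTop M] with N hN
    rw [Bwd.prod_split _ M N hN, ← mul_assoc]
    have := (tail_bounds hz (N - M)).1
    nlinarith
  · refine le_of_tendsto hlim ?_
    filter_upwards [eventually_ge_atTop M] with N hN
    rw [Bwd.prod_split _ M N hN, ← mul_assoc]
    have := (tail_bounds hz (N - M)).2
    nlinarith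

theorem partial_upper (m : ℕ) {z : ℂ} {x : ℝ} (hz : ‖z‖ ≤ x) :
    ‖z‖ * ∏ j ∈ Finset.range m, ‖g j z‖ ≤ PP m x := by
  induction m with
  | zero =>
    rw [Finset.prod_range_zero, mul_one, PP_zero]
    exact hz
  | succ m ih =>
    rw [Finset.prod_range_succ, ← mul_assoc, PP_succ]
    have hx : 0 ≤ x := (norm_nonneg z).trans hz
    have hr := r_pos m
    refine mul_le_mul ih ?_ (norm_nonneg _) ((by positivity : 0 ≤ x).trans (PP_ge m hx))
    unfold g
    rw [norm_mul]
    refine mul_le_mul ?_ ?_ (norm_nonneg _) (by positivity)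
    · refine (norm_add_le _ _).trans ?_
      rw [norm_one, norm_pow, norm_div, Complex.norm_real, Real.norm_of_nonneg (by positivity)]
      gcongr
    · refine (norm_sub_le _ _).trans ?_
      rw [norm_one, norm_pow, norm_div, Complex.norm_real, Real.norm_of_nonneg (by positivity)]
      gcongr

theorem partial_lower (m : ℕ) {z : ℂ} (hz : r m ≤ ‖z‖) : 1 ≤ ∏ j ∈ Finset.range m, ‖g j z‖ := by
  refine Bwd.one_le_prod_of fun j hj => ?_
  have hjm : j < m := Finset.mem_range.1 hj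
  have hr := r_pos j
  have h1 : 400 * r j ≤ ‖z‖ := by
    have h2 := r_growth j
    have h3 : r (j + 1) ≤ r m := seq_r.mono.monotone hjm
    linarith
  unfold g
  rw [norm_mul]
  have h2 : 1 ≤ ‖1 + (z / (2 * r j : ℝ)) ^ k j‖ := by
    have h3 := norm_sub_norm_le ((z / (2 * r j : ℝ)) ^ k j) (-1 : ℂ)
    rw [norm_neg, norm_one, sub_neg_eq_add, add_comm _ (1 : ℂ), norm_pow, norm_div, Complex.norm_real,
      Real.norm_of_nonneg (by positivity)] at h3
    have h4 : 2 ≤ ‖z‖ / (2 * r j) := by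
      rw [le_div_iff₀ (by positivity)]; linarith
    have h5 : (2 : ℝ) ^ 1 ≤ (‖z‖ / (2 * r j)) ^ k j := by
      calc (2 : ℝ) ^ 1 ≤ 2 ^ k j := pow_le_pow_right₀ (by norm_num) (by have := k_four j; omega)
        _ ≤ _ := pow_le_pow_left₀ (by norm_num) h4 _
    linarith
  have h3 : 1 ≤ ‖1 - (z / (200 * r j : ℝ)) ^ 2‖ := by
    have h3 := norm_sub_norm_le ((z / (200 * r j : ℝ)) ^ 2) (1 : ℂ)
    rw [norm_one, norm_sub_rev, norm_pow, norm_div, Complex.norm_real,
      Real.norm_of_nonneg (by positivity)] at h3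
    have h4 : 2 ≤ ‖z‖ / (200 * r j) := by
      rw [le_div_iff₀ (by positivity)]; linarith
    nlinarith
  nlinarith

/-- lower bound for the fast factor -/
theorem fast_lower (m : ℕ) {z : ℂ} {c : ℝ} (hc : 2 ≤ c) (hz : c * (2 * r m) ≤ ‖z‖) :
    c ^ k m / 2 ≤ ‖1 + (z / (2 * r m : ℝ)) ^ k m‖ := by
  have hr := r_pos m
  have h3 := norm_sub_norm_le ((z / (2 * r m : ℝ)) ^ k m) (-1 : ℂ)
  rw [norm_neg, norm_one, sub_neg_eq_add, add_comm _ (1 : ℂ), norm_pow, norm_div, Complex.norm_real,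
    Real.norm_of_nonneg (by positivity)] at h3
  have h4 : c ≤ ‖z‖ / (2 * r m) := by
    rw [le_div_iff₀ (by positivity)]; exact hz
  have h5 : c ^ k m ≤ (‖z‖ / (2 * r m)) ^ k m := pow_le_pow_left₀ (by linarith) h4 _
  have h6 : 2 ≤ c ^ k m := by
    calc (2 : ℝ) = 2 ^ 1 := (pow_one _).symm
      _ ≤ 2 ^ k m := pow_le_pow_right₀ (by norm_num) (by have := k_four m; omega)
      _ ≤ _ := pow_le_pow_left₀ (by norm_num) hc _
  linarith

theorem sq_factor (m : ℕ) (z : ℂ) : 1 - (z / (200 * r m : ℝ)) ^ 2 =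
    (1 - z / (200 * r m : ℝ)) * (1 + z / (200 * r m : ℝ)) := by ring

theorem dist_factor (m : ℕ) (z : ℂ) :
    ‖1 - z / (200 * r m : ℝ)‖ = ‖z - (200 * r m : ℝ)‖ / (200 * r m) ∧
    ‖1 + z / (200 * r m : ℝ)‖ = ‖z + (200 * r m : ℝ)‖ / (200 * r m) := by
  have hr := r_pos m
  have hne : ((200 * r m : ℝ) : ℂ) ≠ 0 := by
    have : (200 * r m : ℝ) ≠ 0 := by positivity
    exact_mod_cast this
  constructor
  · rw [norm_sub_rev z]
    have e : 1 - z / (200 * r m : ℝ) = ((200 * r m : ℝ) - z) / (200 * r m : ℝ) := by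
      field_simp
    rw [e, norm_div, Complex.norm_real, Real.norm_of_nonneg (by positivity)]
  · have e : 1 + z / (200 * r m : ℝ) = (z + (200 * r m : ℝ)) / (200 * r m : ℝ) := by
      field_simp
      ring
    rw [e, norm_div, Complex.norm_real, Real.norm_of_nonneg (by positivity)]

/-- main lower bound, off the satellites -/
theorem main_low {m : ℕ} {z : ℂ} (h1 : 4 * r m ≤ ‖z‖) (h2 : ‖z‖ ≤ r (m + 1))
    (h3 : 100 * r m ≤ ‖z - (200 * r m : ℝ)‖) (h4 : 100 * r m ≤ ‖z + (200 * r m : ℝ)‖) :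
    s (m + 1) ^ (m + 3) < ‖f z‖ := by
  have hr := r_one m
  have hb := (f_bounds h2).1
  rw [Finset.prod_range_succ] at hb
  have hl := partial_lower m (z := z) (by linarith)
  have hfast := fast_lower m (z := z) (c := 2) le_rfl (by linarith)
  have hk := k_big m
  have hd := dist_factor m z
  have hg : 2 ^ k m / 8 ≤ ‖g m z‖ := by
    unfold g
    rw [norm_mul, sq_factor, norm_mul, hd.1, hd.2]
    have e1 : 1 / 2 ≤ ‖z - (200 * r m : ℝ)‖ / (200 * r m) := by
      rw [div_le_div_iff₀ (by norm_num) (by positivity)]; linarith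
    have e2 : 1 / 2 ≤ ‖z + (200 * r m : ℝ)‖ / (200 * r m) := by
      rw [div_le_div_iff₀ (by norm_num) (by positivity)]; linarith
    have e3 : (1 : ℝ) / 4 ≤ ‖z - (200 * r m : ℝ)‖ / (200 * r m) * (‖z + (200 * r m : ℝ)‖ / (200 * r m)) := by
      nlinarith
    have e4 : (0 : ℝ) < 2 ^ k m / 2 := by positivity
    calc (2 : ℝ) ^ k m / 8 = 2 ^ k m / 2 * (1 / 4) := by ring
      _ ≤ _ := mul_le_mul hfast e3 (by norm_num) (norm_nonneg _)
  have hs := s_ge (m + 1)
  have hP : 0 ≤ PP m (300 * r m) := by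
    have := PP_ge m (x := 300 * r m) (by positivity)
    linarith
  have hs0 : 0 < s (m + 1) ^ (m + 3) := by positivity
  have hk2 : 4 * s (m + 1) ^ (m + 3) < 2 ^ k m := by
    have : 0 ≤ s (m + 1) * PP m (300 * r m) := by positivity
    linarith
  refine lt_of_lt_of_le ?_ hb
  have hm : 4 * (2 ^ k m / 8) ≤ ‖z‖ * ((∏ j ∈ Finset.range m, ‖g j z‖) * ‖g m z‖) := by
    have e1 : 2 ^ k m / 8 ≤ (∏ j ∈ Finset.range m, ‖g j z‖) * ‖g m z‖ := by
      have := norm_nonneg (g m z)
      nlinarith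
    have e2 : 4 ≤ ‖z‖ := by linarith
    have e3 : (0 : ℝ) ≤ 2 ^ k m / 8 := by positivity
    exact mul_le_mul e2 e1 e3 (norm_nonneg _)
  linarith

theorem up {m : ℕ} {z : ℂ} (hz : ‖z‖ ≤ r m) : ‖f z‖ ≤ Rp m := by
  have h1 := (f_bounds hz).2
  have h2 := partial_upper m hz
  have h3 := PP_ge m (r_pos m).le
  have h4 := r_pos m
  have h5 : 0 ≤ (400 * r m) ^ (m + 2) := by positivity
  unfold Rp
  linarith

/-- bounds near the satellite -/
theorem sat_bounds {m : ℕ} {z : ℂ} (hz : ‖z - (200 * r m : ℝ)‖ ≤ 100 * r m) :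
    50 ^ k m / 4 * ‖z - (200 * r m : ℝ)‖ ≤ ‖f z‖ ∧
      ‖f z‖ ≤ 8 * PP m (300 * r m) * 150 ^ k m * ‖z - (200 * r m : ℝ)‖ := by
  have hr := r_one m
  have hrg := r_growth m
  have hn : ‖((200 * r m : ℝ) : ℂ)‖ = 200 * r m := by
    rw [Complex.norm_real, Real.norm_of_nonneg (by positivity)]
  have hz1 : 100 * r m ≤ ‖z‖ := by
    have := norm_sub_norm_le ((200 * r m : ℝ) : ℂ) z
    rw [hn, norm_sub_rev] at this
    linarith
  have hz2 : ‖z‖ ≤ 300 * r m := by
    have := norm_sub_norm_le z ((200 * r m : ℝ) : ℂ)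
    rw [hn] at this
    linarith
  obtain ⟨hb1, hb2⟩ := f_bounds (M := m + 1) (z := z) (by linarith)
  rw [Finset.prod_range_succ] at hb1 hb2
  have hl := partial_lower m (z := z) (by linarith)
  have hu := partial_upper m hz2
  obtain ⟨hd1, hd2⟩ := dist_factor m z
  set D := ‖z - (200 * r m : ℝ)‖ with hD
  have hD0 : 0 ≤ D := norm_nonneg _
  have hplus1 : 3 / 2 ≤ ‖1 + z / (200 * r m : ℝ)‖ := by
    have h1 := norm_sub_norm_le (2 : ℂ) (1 - z / (200 * r m : ℝ))
    have e : (2 : ℂ) - (1 - z / (200 * r m : ℝ)) = 1 + z / (200 * r m : ℝ) := by ring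
    rw [e, hd1] at h1
    have h2 : D / (200 * r m) ≤ 1 / 2 := by
      rw [div_le_div_iff₀ (by positivity) (by norm_num)]; linarith
    have h3 : ‖(2 : ℂ)‖ = 2 := by simp
    rw [h3] at h1
    linarith
  have hplus2 : ‖1 + z / (200 * r m : ℝ)‖ ≤ 5 / 2 := by
    refine (norm_add_le _ _).trans ?_
    rw [norm_one, norm_div, hn]
    have : ‖z‖ / (200 * r m) ≤ 3 / 2 := by
      rw [div_le_div_iff₀ (by positivity) (by norm_num)]; linarith
    linarith
  have hfast := fast_lower m (z := z) (c := 50) (by norm_num) (by linarith)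
  have hfast2 : ‖1 + (z / (2 * r m : ℝ)) ^ k m‖ ≤ 2 * 150 ^ k m := by
    refine (norm_add_le _ _).trans ?_
    rw [norm_one, norm_pow, norm_div, Complex.norm_real, Real.norm_of_nonneg (by positivity)]
    have h1 : ‖z‖ / (2 * r m) ≤ 150 := by
      rw [div_le_iff₀ (by positivity)]; linarith
    have h2 : (‖z‖ / (2 * r m)) ^ k m ≤ 150 ^ k m := pow_le_pow_left₀ (by positivity) h1 _
    have h3 : (1 : ℝ) ≤ 150 ^ k m := one_le_pow₀ (by norm_num)
    linarith
  have hgn : ‖g m z‖ = ‖1 + (z / (2 * r m : ℝ)) ^ k m‖ * (D / (200 * r m) * ‖1 + z / (200 * r m : ℝ)‖) := by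
    unfold g
    rw [norm_mul, sq_factor, norm_mul, hd1]
  constructor
  · refine le_trans ?_ hb1
    have h1 : 50 ^ k m / 2 * (D / (200 * r m) * (3 / 2)) ≤ ‖g m z‖ := by
      rw [hgn]
      refine mul_le_mul hfast ?_ (by positivity) (norm_nonneg _)
      exact mul_le_mul_of_nonneg_left hplus1 (by positivity)
    have h2 : 50 ^ k m / 2 * (D / (200 * r m) * (3 / 2)) ≤ (∏ j ∈ Finset.range m, ‖g j z‖) * ‖g m z‖ := by
      have := norm_nonneg (g m z)
      nlinarith
    have h3 : (100 * r m) * (50 ^ k m / 2 * (D / (200 * r m) * (3 / 2))) ≤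
        ‖z‖ * ((∏ j ∈ Finset.range m, ‖g j z‖) * ‖g m z‖) :=
      mul_le_mul hz1 h2 (by positivity) (norm_nonneg _)
    have h4 : 2 / 3 * ((100 * r m) * (50 ^ k m / 2 * (D / (200 * r m) * (3 / 2)))) = 50 ^ k m / 4 * D := by
      field_simp
      ring
    linarith
  · refine hb2.trans ?_
    have h1 : ‖g m z‖ ≤ 2 * 150 ^ k m * (D / (200 * r m) * (5 / 2)) := by
      rw [hgn]
      refine mul_le_mul hfast2 ?_ (by positivity) (by positivity)
      exact mul_le_mul_of_nonneg_left hplus2 (by positivity)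
    have h2 : D / (200 * r m) ≤ D / 200 := by
      apply div_le_div_of_nonneg_left hD0 (by norm_num) (by linarith)
    have h3 : ‖g m z‖ ≤ 2 * 150 ^ k m * (D / 200 * (5 / 2)) := by
      refine h1.trans ?_
      gcongr
    have hP : 0 ≤ PP m (300 * r m) := by
      have := PP_ge m (x := 300 * r m) (by positivity)
      linarith
    have h4 : ‖z‖ * ((∏ j ∈ Finset.range m, ‖g j z‖) * ‖g m z‖) ≤
        PP m (300 * r m) * (2 * 150 ^ k m * (D / 200 * (5 / 2))) := by
      rw [← mul_assoc]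
      exact mul_le_mul hu h3 (norm_nonneg _) hP
    have h5 : 0 ≤ PP m (300 * r m) * (150 ^ k m * D) := by positivity
    nlinarith

/-- radius of the small satellite disc -/
noncomputable def eta (m : ℕ) : ℝ := s (m + 1) / (50 ^ k m / 4)

theorem eta_pos (m : ℕ) : 0 < eta m := by
  have := s_ge (m + 1)
  unfold eta
  positivity

theorem s_le_two (m : ℕ) : 4 * s (m + 1) ≤ 2 ^ k m := by
  have hk := k_big m
  have hs := s_ge (m + 1)
  have hr := r_one m
  have hP : 0 ≤ PP m (300 * r m) := by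
    have := PP_ge m (x := 300 * r m) (by positivity)
    linarith
  have : 0 ≤ s (m + 1) * PP m (300 * r m) := by positivity
  have h1 : s (m + 1) ≤ s (m + 1) ^ (m + 3) := le_self_pow₀ (by linarith) (by omega)
  linarith

theorem eta_le (m : ℕ) : eta m ≤ 1 := by
  unfold eta
  rw [div_le_one (by positivity)]
  have h1 := s_le_two m
  have h2 : (2 : ℝ) ^ k m ≤ 50 ^ k m := pow_le_pow_left₀ (by norm_num) (by norm_num) _
  have h3 := s_ge (m + 1)
  linarith

theorem sat_small {m : ℕ} {z : ℂ} (hz : ‖z - (200 * r m : ℝ)‖ ≤ 100 * r m) (hf : ‖f z‖ ≤ s (m + 1)) :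
    ‖z - (200 * r m : ℝ)‖ ≤ eta m := by
  unfold eta
  rw [le_div_iff₀ (by positivity)]
  have := (sat_bounds hz).1
  linarith

theorem f_sat (m : ℕ) : f ((200 * r m : ℝ) : ℂ) = 0 := by
  have h := (sat_bounds (m := m) (z := ((200 * r m : ℝ) : ℂ)) (by
    rw [sub_self, norm_zero]
    have := r_pos m
    positivity)).2
  rw [sub_self, norm_zero, mul_zero] at h
  exact norm_le_zero_iff.1 h

/-- expansion on the satellite discs -/
theorem sat_exp {m : ℕ} {z w : ℂ} (hz : ‖z - (200 * r m : ℝ)‖ ≤ eta m)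
    (hw : ‖w - (200 * r m : ℝ)‖ ≤ eta m) : 2 * ‖z - w‖ ≤ ‖f z - f w‖ := by
  have hr := r_one m
  have hη := eta_le m
  set c : ℂ := ((200 * r m : ℝ) : ℂ) with hc
  set A : ℝ := 50 ^ k m / 4 with hA
  set B : ℝ := 8 * PP m (300 * r m) * 150 ^ k m with hB
  have hP : 300 * r m ≤ PP m (300 * r m) := PP_ge m (by positivity)
  have hP0 : 0 ≤ PP m (300 * r m) := by linarith
  have hB0 : 0 ≤ B := by rw [hB]; positivity
  have hA0 : 0 < A := by rw [hA]; positivity
  set h : ℂ → ℂ := dslope f c with hh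
  have hfc : f c = 0 := f_sat m
  have hfac : ∀ z, f z = (z - c) * h z := by
    intro z
    have := sub_smul_dslope f c z
    rw [hfc, sub_zero, smul_eq_mul] at this
    exact this.symm
  have hhd : Differentiable ℂ h := by
    intro z
    have h1 : DifferentiableOn ℂ (dslope f c) univ :=
      (Complex.differentiableOn_dslope univ_mem).2 f_diff.differentiableOn
    exact h1.differentiableAt univ_mem
  -- bounds for h
  have hbd : ∀ z, ‖z - c‖ ≤ 100 * r m → A ≤ ‖h z‖ ∧ ‖h z‖ ≤ B := by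
    have hne : ∀ z, z ≠ c → ‖z - c‖ ≤ 100 * r m → A ≤ ‖h z‖ ∧ ‖h z‖ ≤ B := by
      intro z hzc hz
      obtain ⟨h1, h2⟩ := sat_bounds (m := m) (z := z) hz
      rw [hfac z, norm_mul] at h1 h2
      have h3 : 0 < ‖z - c‖ := norm_pos_iff.2 (sub_ne_zero.2 hzc)
      constructor
      · rw [mul_comm] at h1
        exact le_of_mul_le_mul_left h1 h3
      · rw [mul_comm (8 * PP m (300 * r m) * 150 ^ k m)] at h2
        exact le_of_mul_le_mul_left h2 h3
    intro z hz
    by_cases hzc : z = c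
    · rw [hzc]
      have hcont : Tendsto (fun z => ‖h z‖) (𝓝[≠] c) (𝓝 ‖h c‖) :=
        (hhd c).continuousAt.norm.mono_left nhdsWithin_le_nhds
      have hev : ∀ᶠ y in 𝓝[≠] c, A ≤ ‖h y‖ ∧ ‖h y‖ ≤ B := by
        filter_upwards [self_mem_nhdsWithin, mem_nhdsWithin_of_mem_nhds
          (ball_mem_nhds c (by positivity : 0 < 100 * r m))] with y hy1 hy2
        rw [mem_ball, dist_eq_norm] at hy2
        exact hne y hy1 hy2.le
      exact ⟨ge_of_tendsto hcont (hev.mono fun _ h => h.1), le_of_tendsto hcont (hev.mono fun _ h => h.2)⟩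
    · exact hne z hzc hz
  -- Lipschitz bound for h
  have hLip : ‖h z - h w‖ ≤ B * ‖z - w‖ := by
    have hder : ∀ y ∈ ball c 2, ‖deriv h y‖ ≤ B := by
      intro y hy
      rw [mem_ball, dist_eq_norm] at hy
      have h1 : ‖deriv h y‖ ≤ B / 1 := by
        refine Complex.norm_deriv_le_of_forall_mem_sphere_norm_le one_pos
          (hhd.diffContOnCl) fun x hx => ?_
        rw [mem_sphere, dist_eq_norm] at hx
        refine (hbd x ?_).2
        calc ‖x - c‖ ≤ ‖x - y‖ + ‖y - c‖ := norm_sub_le_norm_sub_add_norm_sub _ _ _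
          _ ≤ 100 * r m := by rw [hx]; linarith
      simpa using h1
    refine (convex_ball c 2).norm_image_sub_le_of_norm_deriv_le (fun y _ => hhd y) hder ?_ ?_
    · rw [mem_ball, dist_eq_norm]; linarith
    · rw [mem_ball, dist_eq_norm]; linarith
  have e : f z - f w = (z - w) * h z + (w - c) * (h z - h w) := by
    rw [hfac z, hfac w]; ring
  have h1 : ‖(z - w) * h z‖ ≤ ‖f z - f w‖ + ‖(w - c) * (h z - h w)‖ := by
    have : (z - w) * h z = (f z - f w) - (w - c) * (h z - h w) := by rw [e]; ring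
    rw [this]
    exact norm_sub_le _ _
  rw [norm_mul, norm_mul] at h1
  have h2 : ‖w - c‖ * ‖h z - h w‖ ≤ eta m * (B * ‖z - w‖) :=
    mul_le_mul hw hLip (norm_nonneg _) (eta_pos m).le
  have h3 : A * ‖z - w‖ ≤ ‖z - w‖ * ‖h z‖ := by
    rw [mul_comm]
    exact mul_le_mul_of_nonneg_left (hbd z (by linarith)).1 (norm_nonneg _)
  -- numerical comparison
  have h4 : eta m * B ≤ A / 2 := by
    have hs := s_ge (m + 1)
    have hk := k_big m
    have hkk := k_four m
    have h5 : s (m + 1) * PP m (300 * r m) ≤ 2 ^ k m := by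
      have : 0 < s (m + 1) ^ (m + 3) := by positivity
      linarith
    unfold eta
    rw [← hA, div_mul_eq_mul_div, div_le_iff₀ hA0]
    have h6 : (256 : ℝ) * (2 ^ k m * 150 ^ k m) ≤ 50 ^ k m * 50 ^ k m := by
      have e1 : (50 : ℝ) ^ k m * 50 ^ k m = (2 ^ k m * 150 ^ k m) * (25 / 3) ^ k m := by
        rw [← mul_pow, ← mul_pow, ← mul_pow]
        norm_num
      rw [e1]
      have e2 : (256 : ℝ) ≤ (25 / 3) ^ k m := by
        calc (256 : ℝ) ≤ (25 / 3) ^ 4 := by norm_num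
          _ ≤ (25 / 3) ^ k m := pow_le_pow_right₀ (by norm_num) hkk
      have e3 : (0 : ℝ) < 2 ^ k m * 150 ^ k m := by positivity
      nlinarith
    calc s (m + 1) * B = 8 * (s (m + 1) * PP m (300 * r m)) * 150 ^ k m := by rw [hB]; ring
      _ ≤ 8 * 2 ^ k m * 150 ^ k m := by gcongr
      _ ≤ (50 ^ k m * 50 ^ k m) / 32 := by linarith
      _ = A / 2 * A := by rw [hA]; ring
  have h5 : 4 ≤ A := by
    rw [hA]
    have h6 : (50 : ℝ) ^ 1 ≤ 50 ^ k m := pow_le_pow_right₀ (by norm_num) (by have := k_four m; omega)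
    linarith
  have h6 := norm_nonneg (z - w)
  nlinarith [mul_le_mul_of_nonneg_right h4 h6, mul_le_mul_of_nonneg_right h5 h6]

end Pool.Agent.R237.Sing
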