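import Mathlib
import Pool.Agent.R237.Sing

/-! Dynamics of the function of `Sing`. -/

set_option autoImplicit false

open Filter Topology Metric Set

namespace Pool.Agent.R237

open Pool.Agent.H384R2.Fatou Pool.Agent.W723.MC Pool.Agent.TH224.SC

/-- covering of a disc by the image of a ball -/
theorem covers {f : ℂ → ℂ} (hf : Differentiable ℂ f) (ho : IsOpenMap f) {c : ℂ} {ρ S : ℝ} (hρ : 0 < ρ)
    (hS : 0 ≤ S) (h0 : f c = 0) (hs : ∀ z ∈ sphere c ρ, S < ‖f z‖) {y : ℂ} (hy : ‖y‖ ≤ S) :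
    ∃ w ∈ closedBall c ρ, f w = y := by
  by_contra hcon
  push Not at hcon
  have h1 : IsPreconnected (closedBall (0 : ℂ) S) := (convex_closedBall _ _).isPreconnected
  have hA : IsOpen (f '' ball c ρ) := ho _ isOpen_ball
  have hB : IsOpen (f '' closedBall c ρ)ᶜ :=
    ((isCompact_closedBall c ρ).image hf.continuous).isClosed.isOpen_compl
  obtain ⟨x, _, hx1, hx2⟩ := h1 _ _ hA hB (fun x hx => by
    by_cases hxB : x ∈ f '' closedBall c ρ
    · left
      obtain ⟨w, hw, rfl⟩ := hxB
      refine ⟨w, ?_, rfl⟩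
      rw [mem_closedBall] at hw
      rcases hw.lt_or_eq with h2 | h2
      · exact h2
      · have := hs w h2
        rw [mem_closedBall_zero_iff] at hx
        linarith
    · exact Or.inr hxB) ⟨0, by simpa using hS, c, mem_ball_self hρ, h0⟩
    ⟨y, by simpa using hy, fun ⟨w, hw, hwy⟩ => hcon w hw hwy⟩
  exact hx2 (image_mono ball_subset_closedBall hx1)

namespace Ann

variable {f : ℂ → ℂ} {s t : ℕ → ℝ}

/-- infinitely many complementary components inside -/
theorem holes_inner (h : Ann f s t) (n : ℕ) {Λ : ℕ → Bool → Set ℂ} (hΛc : ∀ n b, IsClosed (Λ n b))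
    (hΛd : ∀ n, Disjoint (Λ n false) (Λ n true))
    (hΛ : ∀ n z, ‖z‖ ≤ s n → ‖f z‖ ≤ s (n + 1) → ∃ b, z ∈ Λ n b)
    (hΛo : ∀ n b y, ‖y‖ ≤ s (n + 1) → ∃ w ∈ Λ n b, ‖w‖ ≤ s n ∧ f w = y)
    {ρ : ℝ} (h1 : s n < ρ) (h2 : ρ < t n) :
    (SphereHoles (U f s n ∩ ball 0 ρ)).Infinite := by
  have hmk := fun j => h.marked hΛo j n
  choose x hx1 hx2 hx3 hx4 using hmk
  set A : Set (OnePoint ℂ) := ((↑) : ℂ → OnePoint ℂ) '' (U f s n ∩ ball 0 ρ) with hA
  have hxA : ∀ j, ((x j : ℂ) : OnePoint ℂ) ∈ Aᶜ := by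
    rintro j ⟨z, hz, hzx⟩
    have : z = x j := OnePoint.coe_injective hzx
    rw [this] at hz
    exact h.not_U_of_hits (hx4 j) hz.1
  -- separation
  have hsep : ∀ j k, j < k → ((x k : ℂ) : OnePoint ℂ) ∉ connectedComponentIn Aᶜ (x j : OnePoint ℂ) := by
    intro j k hjk hmem
    set C := connectedComponentIn Aᶜ (x j : OnePoint ℂ) with hC
    have hCp : IsPreconnected C := isPreconnected_connectedComponentIn
    have hCA : C ⊆ Aᶜ := connectedComponentIn_subset _ _
    have hxjC : ((x j : ℂ) : OnePoint ℂ) ∈ C := mem_connectedComponentIn (hxA j)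
    set D0 : Set (OnePoint ℂ) := ((↑) : ℂ → OnePoint ℂ) '' closedBall 0 (s n) with hD0
    set D1 : Set (OnePoint ℂ) := (((↑) : ℂ → OnePoint ℂ) '' ball 0 ρ)ᶜ with hD1
    have hD0c : IsClosed D0 :=
      ((isCompact_closedBall (0 : ℂ) (s n)).image OnePoint.continuous_coe).isClosed
    have hD1c : IsClosed D1 :=
      (OnePoint.isOpenEmbedding_coe.isOpenMap _ isOpen_ball).isClosed_compl
    have hcov : C ⊆ D0 ∪ D1 := by
      intro w hw
      by_cases hw1 : w ∈ D1
      · exact Or.inr hw1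
      · left
        have hw2 : w ∈ ((↑) : ℂ → OnePoint ℂ) '' ball 0 ρ := by
          by_contra h3
          exact hw1 h3
        obtain ⟨z, hz, rfl⟩ := hw2
        refine ⟨z, ?_, rfl⟩
        rw [mem_closedBall_zero_iff]
        by_contra h3
        push Not at h3
        have hz' := hz
        rw [mem_ball_zero_iff] at hz'
        exact hCA hw ⟨z, ⟨h.B_U n ⟨h3, hz'.trans h2⟩, hz⟩, rfl⟩
    have hdisj : Disjoint D0 D1 := by
      rw [Set.disjoint_left]
      rintro _ ⟨z, hz, rfl⟩ h3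
      apply h3
      refine ⟨z, ?_, rfl⟩
      rw [mem_closedBall_zero_iff] at hz
      rw [mem_ball_zero_iff]
      linarith
    have hCD0 : C ⊆ D0 := by
      have h3 := isPreconnected_closed_iff.1 hCp D0 D1 hD0c hD1c hcov
        ⟨_, hxjC, ⟨x j, by rw [mem_closedBall_zero_iff]; exact hx1 j, rfl⟩⟩
      intro w hw
      rcases hcov hw with h4 | h4
      · exact h4
      · obtain ⟨v, -, hv1, hv2⟩ := h3 ⟨w, hw, h4⟩
        exact absurd hv2 (Set.disjoint_left.1 hdisj hv1)
    -- back to the plane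
    set P : Set ℂ := ((↑) : ℂ → OnePoint ℂ) ⁻¹' C with hP
    have hPC : ((↑) : ℂ → OnePoint ℂ) '' P = C := by
      rw [hP, image_preimage_eq_inter_range]
      apply inter_eq_left.2
      intro w hw
      obtain ⟨z, -, rfl⟩ := hCD0 hw
      exact ⟨z, rfl⟩
    have hPp : IsPreconnected P := by
      rw [← OnePoint.isOpenEmbedding_coe.isInducing.isPreconnected_image, hPC]
      exact hCp
    have hPs : ∀ z ∈ P, ∀ i, ‖f^[i] z‖ ≤ s (n + i) := by
      intro z hz i
      obtain ⟨w, hw, hwz⟩ := hCD0 hz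
      have : w = z := OnePoint.coe_injective hwz
      rw [this, mem_closedBall_zero_iff] at hw
      apply h.not_U _ (by linarith [h.hst n])
      intro hzU
      apply hCA hz
      exact ⟨z, ⟨hzU, by rw [mem_ball_zero_iff]; linarith⟩, rfl⟩
    have hI : IsPreconnected (f^[j] '' P) :=
      hPp.image _ (h.hf.continuous.iterate j).continuousOn
    have hIcov : f^[j] '' P ⊆ Λ (n + j) false ∪ Λ (n + j) true := by
      rintro _ ⟨z, hz, rfl⟩
      have h3 := hPs z hz j
      have h4 := hPs z hz (j + 1)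
      rw [Function.iterate_succ_apply'] at h4
      obtain ⟨b, hb⟩ := hΛ (n + j) _ h3 h4
      cases b
      · exact Or.inl hb
      · exact Or.inr hb
    obtain ⟨v, -, hv1, hv2⟩ := isPreconnected_closed_iff.1 hI _ _ (hΛc _ false) (hΛc _ true) hIcov
      ⟨f^[j] (x k), ⟨x k, hmem, rfl⟩, hx2 k j hjk⟩ ⟨f^[j] (x j), ⟨x j, hxjC, rfl⟩, hx3 j⟩
    exact Set.disjoint_left.1 (hΛd (n + j)) hv1 hv2
  apply Set.infinite_of_injective_forall_mem
    (f := fun j : ℕ => connectedComponentIn Aᶜ ((x j : ℂ) : OnePoint ℂ))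
  · intro j k hjk
    have hjk : connectedComponentIn Aᶜ ((x j : ℂ) : OnePoint ℂ) =
      connectedComponentIn Aᶜ ((x k : ℂ) : OnePoint ℂ) := hjk
    by_contra hne
    rcases lt_or_gt_of_ne hne with h3 | h3
    · apply hsep j k h3
      rw [hjk]
      exact mem_connectedComponentIn (hxA k)
    · apply hsep k j h3
      rw [← hjk]
      exact mem_connectedComponentIn (hxA j)
  · intro j
    exact ⟨_, hxA j, rfl⟩

end Ann

namespace Sing

open Pool.Agent.R237.Prod

theorem far_low {n : ℕ} {z : ℂ} (h1 : s n ≤ ‖z‖) (h2 : ‖z‖ ≤ r (n + 1)) :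
    s (n + 1) ^ (n + 3) < ‖f z‖ := by
  have hr := r_one n
  have hn : ‖((200 * r n : ℝ) : ℂ)‖ = 200 * r n := by
    rw [Complex.norm_real, Real.norm_of_nonneg (by positivity)]
  unfold s at h1
  refine main_low (by linarith) h2 ?_ ?_
  · have := norm_sub_norm_le z ((200 * r n : ℝ) : ℂ)
    rw [hn] at this
    linarith
  · have := norm_sub_norm_le z (-((200 * r n : ℝ) : ℂ))
    rw [norm_neg, hn, sub_neg_eq_add] at this
    linarith

theorem f_open : IsOpenMap f := by
  have hana : AnalyticOnNhd ℂ f univ := f_diff.differentiableOn.analyticOnNhd isOpen_univ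
  rcases hana.is_constant_or_isOpen isPreconnected_univ with ⟨w, hw⟩ | h
  · exfalso
    have h1 : f ((s 0 : ℝ) : ℂ) = f 0 := by rw [hw _ (mem_univ _), hw _ (mem_univ _)]
    rw [f_zero] at h1
    have hs := s_ge 0
    have h2 : ‖((s 0 : ℝ) : ℂ)‖ = s 0 := by
      rw [Complex.norm_real, Real.norm_of_nonneg (by linarith)]
    have h3 := far_low (n := 0) (z := ((s 0 : ℝ) : ℂ)) (by rw [h2]) (by
      rw [h2]
      have := r_growth 0
      have := r_pos 0
      unfold s
      linarith)
    rw [h1, norm_zero] at h3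
    have := s_ge (0 + 1)
    have : 0 < s (0 + 1) ^ (0 + 3) := by positivity
    linarith
  · intro S hS
    exact h S (subset_univ S) hS

theorem ann : Ann f s (fun n => r (n + 1)) where
  hf := f_diff
  ho := f_open
  hf0 := f_zero
  hs1 := fun n => by linarith [s_ge n]
  hst := fun n => by
    have := r_growth n
    have := r_one n
    unfold s
    linarith
  hts := fun n => by
    have := r_one (n + 1)
    unfold s
    linarith
  low := fun n z h1 h2 => by
    have h3 := far_low h1 h2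
    have hs := s_ge (n + 1)
    have h4 : s (n + 1) ≤ s (n + 1) ^ (n + 3) := le_self_pow₀ (by linarith) (by omega)
    linarith
  up := fun n z hz => (up hz).trans_lt (Rp_lt_r _)
  gr := fun M => by
    filter_upwards [eventually_ge_atTop M] with n hn z h1 h2
    have h3 := far_low h1.le h2.le
    have hs := s_ge (n + 1)
    have hsn := s_ge n
    have h4 : ‖z‖ ≤ s (n + 1) := by
      have := r_one (n + 1)
      unfold s
      linarith
    calc ‖z‖ ^ M ≤ ‖z‖ ^ (n + 3) := pow_le_pow_right₀ (by linarith) (by omega)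
      _ ≤ s (n + 1) ^ (n + 3) := pow_le_pow_left₀ (norm_nonneg _) h4 _
      _ ≤ _ := h3.le

/-- the base point -/
noncomputable def P0 : ℂ := ((s 0 ^ 2 : ℝ) : ℂ)

theorem P0_orbit (m : ℕ) : s m ^ (m + 2) ≤ ‖f^[m] P0‖ ∧ ‖f^[m] P0‖ ≤ Rp m := by
  induction m with
  | zero =>
    have h1 : ‖f^[0] P0‖ = s 0 ^ 2 := by
      rw [Function.iterate_zero, id, P0, Complex.norm_real, Real.norm_of_nonneg (by positivity)]
    rw [h1]
    exact ⟨le_rfl, Rp_ge 0⟩
  | succ m ih =>
    rw [Function.iterate_succ_apply']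
    have hs := s_ge m
    have h1 : s m ≤ ‖f^[m] P0‖ := (le_self_pow₀ (by linarith) (by omega)).trans ih.1
    have h2 : ‖f^[m] P0‖ ≤ r (m + 1) := ih.2.trans (Rp_lt_r m).le
    exact ⟨(far_low h1 h2).le, up h2⟩

theorem P0_B : P0 ∈ Ann.B s (fun n => r (n + 1)) 0 := by
  have h := P0_orbit 0
  have hs := s_ge 0
  rw [Function.iterate_zero, id] at h
  refine ⟨?_, h.2.trans_lt (Rp_lt_r 0)⟩
  have h1 : s 0 ^ 2 ≤ ‖P0‖ := h.1
  nlinarith

theorem growth {q : ℂ} (hq : q ∈ Ann.U f s 0) (a : ℕ) :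
    ∀ᶠ k in atTop, s k ^ a < ‖f^[k] q‖ ∧ ‖f^[k] q‖ ^ a < r (k + 1) := by
  have hP0U : P0 ∈ Ann.U f s 0 := ann.B_U 0 P0_B
  have hq' : q ∈ FatouComponent f P0 := by
    have e1 : Ann.U f s 0 = FatouComponent f P0 := connectedComponentIn_eq hP0U
    rwa [e1] at hq
  obtain ⟨C, hC, hev⟩ := growth_compare f_diff (ann.B_fatou 0 P0_B)
    ((Ann.B_open s _ 0).mem_nhds P0_B) (ann.B_esc 0) hq'
  have h1 : ∀ᶠ k : ℕ in atTop, (a : ℝ) * C < k :=
    tendsto_natCast_atTop_atTop.eventually_gt_atTop _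
  filter_upwards [hev, h1] with k ⟨h2, h3⟩ h4
  obtain ⟨h5, h6⟩ := P0_orbit k
  have hs := s_ge k
  have hs0 : 0 < s k := by linarith
  have hls : 0 < Real.log (s k) := Real.log_pos (by linarith)
  have hP0 : 0 < ‖f^[k] P0‖ := by
    have : 0 < s k ^ (k + 2) := by positivity
    linarith
  have h7 : ((k + 2 : ℕ) : ℝ) * Real.log (s k) ≤ Real.log ‖f^[k] P0‖ := by
    rw [← Real.log_pow]
    exact Real.log_le_log (by positivity) h5
  have h8 : (k : ℝ) * Real.log (s k) ≤ C * Real.log ‖f^[k] q‖ := by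
    refine le_trans ?_ (h7.trans h3)
    apply mul_le_mul_of_nonneg_right _ hls.le
    push_cast
    linarith
  have h9 : (a : ℝ) * Real.log (s k) < Real.log ‖f^[k] q‖ := by
    have e1 : (a : ℝ) * C * Real.log (s k) < k * Real.log (s k) :=
      mul_lt_mul_of_pos_right h4 hls
    have e2 : C * ((a : ℝ) * Real.log (s k)) < C * Real.log ‖f^[k] q‖ := by
      calc C * ((a : ℝ) * Real.log (s k)) = (a : ℝ) * C * Real.log (s k) := by ring
        _ < _ := e1.trans_le h8
    exact lt_of_mul_lt_mul_left e2 hC.le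
  have hq0 : 0 < ‖f^[k] q‖ := by
    rcases (norm_nonneg (f^[k] q)).lt_or_eq with h10 | h10
    · exact h10
    · rw [← h10, Real.log_zero] at h9
      have : 0 ≤ (a : ℝ) * Real.log (s k) := by positivity
      linarith
  constructor
  · rw [← Real.log_pow] at h9
    exact (Real.log_lt_log_iff (by positivity) hq0).1 h9
  · have hR : 1 < Rp k := by
      have := Rp_ge k
      nlinarith
    have hlR : 0 < Real.log (Rp k) := Real.log_pos hR
    have e1 : Real.log ‖f^[k] P0‖ ≤ Real.log (Rp k) := Real.log_le_log hP0 h6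
    have e2 : Real.log ‖f^[k] q‖ ≤ C * Real.log (Rp k) :=
      h2.trans (mul_le_mul_of_nonneg_left e1 hC.le)
    have e3 : Real.log (r (k + 1)) = ((k + 2 : ℕ) : ℝ) * Real.log (Rp k) := by
      rw [r_succ, Real.log_pow]
    have hr0 : 0 < r (k + 1) := r_pos _
    rw [← Real.log_lt_log_iff (by positivity) hr0, Real.log_pow, e3]
    calc (a : ℝ) * Real.log ‖f^[k] q‖ ≤ a * (C * Real.log (Rp k)) :=
          mul_le_mul_of_nonneg_left e2 (Nat.cast_nonneg a)
      _ = (a * C) * Real.log (Rp k) := by ring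
      _ < ((k + 2 : ℕ) : ℝ) * Real.log (Rp k) := by
          apply mul_lt_mul_of_pos_right _ hlR
          push_cast
          linarith

/-! ### pieces -/

/-- the centres of the satellites -/
noncomputable def cen (n : ℕ) (b : Bool) : ℂ := if b then ((200 * r n : ℝ) : ℂ) else -((200 * r n : ℝ) : ℂ)

/-- the satellites -/
noncomputable def Sat (n : ℕ) (b : Bool) : Set ℂ := closedBall (cen n b) (eta n)

theorem norm_cen (n : ℕ) (b : Bool) : ‖cen n b‖ = 200 * r n := by
  have := r_pos n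
  cases b
  · simp only [cen, Bool.false_eq_true, if_false]
    rw [norm_neg, Complex.norm_real, Real.norm_of_nonneg (by positivity)]
  · simp only [cen, if_true]
    rw [Complex.norm_real, Real.norm_of_nonneg (by positivity)]

theorem Sat_norm {n : ℕ} {b : Bool} {z : ℂ} (hz : z ∈ Sat n b) : 199 * r n ≤ ‖z‖ ∧ ‖z‖ ≤ 201 * r n := by
  have hr := r_one n
  have he := eta_le n
  have hc := norm_cen n b
  rw [Sat, mem_closedBall, dist_eq_norm] at hz
  have h1 := norm_sub_norm_le (cen n b) z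
  have h2 := norm_sub_norm_le z (cen n b)
  rw [norm_sub_rev] at h1
  constructor <;> linarith

theorem Sat_disj (n : ℕ) : Disjoint (Sat n false) (Sat n true) := by
  rw [Set.disjoint_left]
  intro z h1 h2
  have hr := r_one n
  have he := eta_le n
  simp only [Sat, cen, Bool.false_eq_true, if_false, if_true, mem_closedBall, dist_eq_norm] at h1 h2
  have h3 := norm_sub_le (z - -((200 * r n : ℝ) : ℂ)) (z - ((200 * r n : ℝ) : ℂ))
  have e : (z - -((200 * r n : ℝ) : ℂ)) - (z - ((200 * r n : ℝ) : ℂ)) = ((400 * r n : ℝ) : ℂ) := by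
    push_cast; ring
  rw [e, Complex.norm_real, Real.norm_of_nonneg (by positivity)] at h3
  linarith

theorem near_sat {n : ℕ} {b : Bool} {z : ℂ} (hz : ‖z - cen n b‖ ≤ 100 * r n) (hf : ‖f z‖ ≤ s (n + 1)) :
    z ∈ Sat n b := by
  rw [Sat, mem_closedBall, dist_eq_norm]
  cases b
  · simp only [cen, Bool.false_eq_true, if_false] at hz ⊢
    have e : ‖z - -((200 * r n : ℝ) : ℂ)‖ = ‖-z - ((200 * r n : ℝ) : ℂ)‖ := by
      rw [← norm_neg]; congr 1; ring
    rw [e] at hz ⊢
    refine sat_small hz ?_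
    rw [f_odd, norm_neg]
    exact hf
  · simp only [cen, if_true] at hz ⊢
    exact sat_small hz hf

/-- the three pieces -/
theorem pieces {n : ℕ} {z : ℂ} (h1 : ‖z‖ ≤ s n) (h2 : ‖f z‖ ≤ s (n + 1)) :
    z ∈ closedBall (0 : ℂ) (4 * r n) ∨ z ∈ Sat n false ∨ z ∈ Sat n true := by
  by_cases h3 : ‖z‖ ≤ 4 * r n
  · left; simpa using h3
  · right
    push Not at h3
    by_cases h4 : ‖z - cen n true‖ ≤ 100 * r n
    · exact Or.inr (near_sat h4 h2)
    · by_cases h5 : ‖z - cen n false‖ ≤ 100 * r n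
      · exact Or.inl (near_sat h5 h2)
      · exfalso
        push Not at h4 h5
        simp only [cen, Bool.false_eq_true, if_false, if_true, sub_neg_eq_add] at h4 h5
        have hrg := r_growth n
        have hr := r_one n
        have h6 := main_low h3.le (by unfold s at h1; linarith) h4.le h5.le
        have hs := s_ge (n + 1)
        have h7 : s (n + 1) ≤ s (n + 1) ^ (n + 3) := le_self_pow₀ (by linarith) (by omega)
        linarith

theorem Sat_onto (n : ℕ) (b : Bool) {y : ℂ} (hy : ‖y‖ ≤ s (n + 1)) : ∃ w ∈ Sat n b, f w = y := by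
  have hr := r_one n
  have hs1 := s_ge (n + 1)
  -- the true case
  have key : ∀ y : ℂ, ‖y‖ ≤ s (n + 1) → ∃ w ∈ Sat n true, f w = y := by
    intro y hy
    obtain ⟨w, hw, hwy⟩ := covers f_diff f_open (c := ((200 * r n : ℝ) : ℂ)) (ρ := 100 * r n)
      (S := s (n + 1)) (by positivity) (by linarith) (f_sat n) (fun z hz => by
        rw [mem_sphere, dist_eq_norm] at hz
        have h1 := (sat_bounds (m := n) (z := z) hz.le).1
        rw [hz] at h1
        refine lt_of_lt_of_le ?_ h1
        have h2 := s_le_two n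
        have h3 : (2 : ℝ) ^ k n ≤ 50 ^ k n := pow_le_pow_left₀ (by norm_num) (by norm_num) _
        nlinarith) hy
    refine ⟨w, near_sat ?_ (by rw [hwy]; exact hy), hwy⟩
    rw [mem_closedBall, dist_eq_norm] at hw
    simpa [cen] using hw
  cases b
  · obtain ⟨w, hw, hwy⟩ := key (-y) (by rwa [norm_neg])
    refine ⟨-w, ?_, by rw [f_odd, hwy, neg_neg]⟩
    rw [Sat, mem_closedBall, dist_eq_norm] at hw ⊢
    simp only [cen, Bool.false_eq_true, if_false, if_true] at hw ⊢
    have e : ‖-w - -((200 * r n : ℝ) : ℂ)‖ = ‖w - ((200 * r n : ℝ) : ℂ)‖ := by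
      rw [← norm_neg]; congr 1; ring
    rw [e]; exact hw
  · exact key y hy

theorem Sat_exp {n : ℕ} {b : Bool} {z w : ℂ} (hz : z ∈ Sat n b) (hw : w ∈ Sat n b) :
    2 * ‖z - w‖ ≤ ‖f z - f w‖ := by
  rw [Sat, mem_closedBall, dist_eq_norm] at hz hw
  cases b
  · simp only [cen, Bool.false_eq_true, if_false] at hz hw
    have e : ∀ x : ℂ, ‖x - -((200 * r n : ℝ) : ℂ)‖ = ‖-x - ((200 * r n : ℝ) : ℂ)‖ := fun x => by
      rw [← norm_neg]; congr 1; ring
    rw [e] at hz hw
    have h1 := sat_exp hz hw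
    rw [f_odd, f_odd] at h1
    have e2 : ‖-z - -w‖ = ‖z - w‖ := by rw [← norm_neg]; congr 1; ring
    have e3 : ‖-f z - -f w‖ = ‖f z - f w‖ := by rw [← norm_neg]; congr 1; ring
    rwa [e2, e3] at h1
  · simp only [cen, if_true] at hz hw
    exact sat_exp hz hw

theorem Sat_s {n : ℕ} {b : Bool} {z : ℂ} (hz : z ∈ Sat n b) : ‖z‖ ≤ s n := by
  have := (Sat_norm hz).2
  have := r_pos n
  unfold s
  linarith

/-- the two-piece decomposition -/
noncomputable def Lam (n : ℕ) (b : Bool) : Set ℂ :=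
  if b then Sat n true else closedBall 0 (4 * r n) ∪ Sat n false

theorem center_disj (n : ℕ) (b : Bool) : Disjoint (closedBall (0 : ℂ) (4 * r n)) (Sat n b) := by
  rw [Set.disjoint_left]
  intro z h1 h2
  have h3 := (Sat_norm h2).1
  have hr := r_pos n
  rw [mem_closedBall_zero_iff] at h1
  linarith

theorem Lam_closed (n : ℕ) (b : Bool) : IsClosed (Lam n b) := by
  unfold Lam
  split_ifs
  · exact isClosed_closedBall
  · exact isClosed_closedBall.union isClosed_closedBall

theorem Lam_disj (n : ℕ) : Disjoint (Lam n false) (Lam n true) := by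
  simp only [Lam, Bool.false_eq_true, if_false, if_true]
  exact Disjoint.union_left (center_disj n true) (Sat_disj n)

theorem Lam_cover (n : ℕ) (z : ℂ) (h1 : ‖z‖ ≤ s n) (h2 : ‖f z‖ ≤ s (n + 1)) : ∃ b, z ∈ Lam n b := by
  rcases pieces h1 h2 with h | h | h
  · exact ⟨false, by simp only [Lam, Bool.false_eq_true, if_false]; exact Or.inl h⟩
  · exact ⟨false, by simp only [Lam, Bool.false_eq_true, if_false]; exact Or.inr h⟩
  · exact ⟨true, by simp only [Lam, if_true]; exact h⟩

theorem Lam_onto (n : ℕ) (b : Bool) (y : ℂ) (hy : ‖y‖ ≤ s (n + 1)) :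
    ∃ w ∈ Lam n b, ‖w‖ ≤ s n ∧ f w = y := by
  obtain ⟨w, hw, hwy⟩ := Sat_onto n b hy
  refine ⟨w, ?_, Sat_s hw, hwy⟩
  cases b
  · simp only [Lam, Bool.false_eq_true, if_false]; exact Or.inr hw
  · simp only [Lam, if_true]; exact hw

theorem infInner : InfInner f (Ann.U f s 0) := by
  intro z₀ hz₀
  refine ⟨1 / 2, by norm_num, ?_⟩
  filter_upwards [growth hz₀ 4, growth hz₀ 2] with n h4 h2
  rw [ann.U_iter n]
  set ρ : ℝ := ‖f^[n] z₀‖ with hρ
  have hs := s_ge n
  have hs4 : s n ≤ s n ^ 4 := le_self_pow₀ (by linarith) (by norm_num)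
  have hρ1 : s n < ρ := by linarith [h4.1]
  have hρ0 : 0 < ρ := by linarith
  have hρ2 : ρ < r (n + 1) := by nlinarith [h2.2]
  refine ⟨⟨1 / 4, 2, by norm_num, by norm_num, by norm_num, ?_⟩,
    ann.holes_inner n Lam_closed Lam_disj Lam_cover Lam_onto hρ1 hρ2⟩
  rintro z ⟨hz1, hz2⟩
  apply ann.B_U n
  constructor
  · refine lt_of_le_of_lt ?_ hz1
    have e : (s n ^ 4) ^ (1 / 4 : ℝ) = s n := by
      rw [← Real.rpow_natCast, ← Real.rpow_mul (by linarith)]
      norm_num
    rw [← e]
    exact Real.rpow_le_rpow (by positivity) h4.1.le (by norm_num)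
  · have e : ρ ^ (2 : ℝ) = ρ ^ 2 := by
      rw [← Real.rpow_natCast]
      norm_num
    rw [e] at hz2
    exact hz2.trans h2.2

/-! ### singletons -/

theorem finite_itinerary (j : ℕ) : ∀ (n : ℕ) (a : ℕ → Bool) (y : ℂ), ‖y‖ ≤ s (n + j) →
    ∃ x : ℂ, ‖x‖ ≤ s n ∧ (∀ i < j, f^[i] x ∈ Sat (n + i) (a i)) ∧ f^[j] x = y := by
  induction j with
  | zero =>
    intro n a y hy
    exact ⟨y, hy, fun i hi => absurd hi (Nat.not_lt_zero i), rfl⟩
  | succ j ih =>
    intro n a y hy
    obtain ⟨x', hx's, hx'1, hx'2⟩ := ih (n + 1) (fun i => a (i + 1)) y (by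
      have : n + 1 + j = n + (j + 1) := by omega
      rw [this]; exact hy)
    obtain ⟨w, hw, hwx⟩ := Sat_onto n (a 0) hx's
    refine ⟨w, Sat_s hw, ?_, ?_⟩
    · intro i hi
      rcases i with _ | i
      · exact hw
      · rw [Function.iterate_succ_apply, hwx]
        have := hx'1 i (by omega)
        have e : n + 1 + i = n + (i + 1) := by omega
        rwa [e] at this
    · rw [Function.iterate_succ_apply, hwx]
      exact hx'2

theorem itinerary (a : ℕ → Bool) : ∃ x : ℂ, ∀ i, f^[i] x ∈ Sat i (a i) := by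
  set K : ℕ → Set ℂ := fun j => {z | ∀ i ≤ j, f^[i] z ∈ Sat i (a i)} with hK
  have hcl : ∀ j, IsClosed (K j) := by
    intro j
    have : K j = ⋂ i ∈ {i | i ≤ j}, f^[i] ⁻¹' Sat i (a i) := by
      ext z; simp [hK]
    rw [this]
    exact isClosed_biInter fun i _ => isClosed_closedBall.preimage (f_diff.continuous.iterate i)
  have hne : (⋂ j, K j).Nonempty := by
    refine IsCompact.nonempty_iInter_of_sequence_nonempty_isCompact_isClosed K ?_ ?_ ?_ hcl
    · intro j z hz i hi
      exact hz i (by omega)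
    · intro j
      obtain ⟨x, _, hx, _⟩ := finite_itinerary (j + 1) 0 a 0 (by
        rw [norm_zero]; linarith [s_ge (0 + (j + 1))])
      refine ⟨x, fun i hi => ?_⟩
      have := hx i (by omega)
      rwa [zero_add] at this
    · refine (isCompact_closedBall (cen 0 (a 0)) (eta 0)).of_isClosed_subset (hcl 0) ?_
      intro z hz
      exact hz 0 le_rfl
  obtain ⟨x, hx⟩ := hne
  exact ⟨x, fun i => (mem_iInter.1 hx i) i le_rfl⟩

theorem same_itinerary {a : ℕ → Bool} {x y : ℂ} (hx : ∀ i, f^[i] x ∈ Sat i (a i))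
    (hy : ∀ i, f^[i] y ∈ Sat i (a i)) : x = y := by
  have h1 : ∀ i, 2 ^ i * ‖x - y‖ ≤ ‖f^[i] x - f^[i] y‖ := by
    intro i
    induction i with
    | zero => simp
    | succ i ih =>
      rw [Function.iterate_succ_apply', Function.iterate_succ_apply', pow_succ]
      have := Sat_exp (hx i) (hy i)
      linarith
  have h2 : ∀ i, 2 ^ i * ‖x - y‖ ≤ 2 := by
    intro i
    refine (h1 i).trans ?_
    have h3 := hx i
    have h4 := hy i
    rw [Sat, mem_closedBall, dist_eq_norm] at h3 h4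
    have h5 := eta_le i
    calc ‖f^[i] x - f^[i] y‖ = ‖(f^[i] x - cen i (a i)) - (f^[i] y - cen i (a i))‖ := by
          congr 1; ring
      _ ≤ ‖f^[i] x - cen i (a i)‖ + ‖f^[i] y - cen i (a i)‖ := norm_sub_le _ _
      _ ≤ 2 := by linarith
  by_contra hne
  have h3 : 0 < ‖x - y‖ := norm_pos_iff.2 (sub_ne_zero.2 hne)
  obtain ⟨i, hi⟩ := ((tendsto_pow_atTop_atTop_of_one_lt (by norm_num : (1 : ℝ) < 2)).eventually_gt_atTop
    (2 / ‖x - y‖)).exists
  rw [div_lt_iff₀ h3] at hi
  linarith [h2 i]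

theorem single {a : ℕ → Bool} {x : ℂ} (hx : ∀ i, f^[i] x ∈ Sat i (a i)) :
    x ∈ (Ann.U f s 0)ᶜ ∧ connectedComponentIn (Ann.U f s 0)ᶜ x = {x} := by
  have hxU : x ∈ (Ann.U f s 0)ᶜ := by
    intro hxU
    obtain ⟨k, hk⟩ := (growth hxU 1).exists
    have h1 := Sat_s (hx k)
    have h2 := hk.1
    rw [pow_one] at h2
    linarith
  refine ⟨hxU, ?_⟩
  set C := connectedComponentIn (Ann.U f s 0)ᶜ x with hC
  have hCp : IsPreconnected C := isPreconnected_connectedComponentIn
  have hCU : C ⊆ (Ann.U f s 0)ᶜ := connectedComponentIn_subset _ _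
  have hxC : x ∈ C := mem_connectedComponentIn hxU
  have hxs : ‖x‖ ≤ s 0 := Sat_s (hx 0)
  have hCs : ∀ y ∈ C, ‖y‖ ≤ s 0 := by
    intro y hy
    by_contra hcon
    push Not at hcon
    have h1 : s 0 < min ‖y‖ (s 0 + 1) := lt_min hcon (by linarith)
    obtain ⟨w, hw, hwt⟩ := cross hCp hxC hy (t := min ‖y‖ (s 0 + 1)) (by linarith) (min_le_left _ _)
    have h2 : w ∈ Ann.B s (fun n => r (n + 1)) 0 := by
      refine ⟨by rw [hwt]; exact h1, ?_⟩
      rw [hwt]
      exact lt_of_le_of_lt (min_le_right _ _) (ann.hst 0)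
    exact hCU hw (ann.B_U 0 h2)
  have horb : ∀ y ∈ C, ∀ i, ‖f^[i] y‖ ≤ s i := by
    intro y hy i
    have := ann.not_U (hCU hy) ((hCs y hy).trans_lt (by linarith [ann.hst 0])) i
    rwa [zero_add] at this
  have hit : ∀ y ∈ C, ∀ i, f^[i] y ∈ Sat i (a i) := by
    intro y hy i
    have hI : IsPreconnected (f^[i] '' C) := hCp.image _ (f_diff.continuous.iterate i).continuousOn
    -- the other pieces
    set O : Set ℂ := closedBall 0 (4 * r i) ∪ Sat i (!(a i)) with hO
    have hOc : IsClosed O := isClosed_closedBall.union isClosed_closedBall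
    have hSc : IsClosed (Sat i (a i)) := isClosed_closedBall
    have hdis : Disjoint (Sat i (a i)) O := by
      rw [hO]
      refine Disjoint.union_right (center_disj i _).symm ?_
      cases a i
      · exact Sat_disj i
      · exact (Sat_disj i).symm
    have hcov : f^[i] '' C ⊆ Sat i (a i) ∪ O := by
      rintro _ ⟨z, hz, rfl⟩
      have h3 := horb z hz i
      have h4 := horb z hz (i + 1)
      rw [Function.iterate_succ_apply'] at h4
      rcases pieces h3 h4 with h | h | h
      · exact Or.inr (Or.inl h)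
      · cases hai : a i
        · left; exact h
        · right; right; rw [hai]; exact h
      · cases hai : a i
        · right; right; rw [hai]; exact h
        · left; exact h
    rcases hcov ⟨y, hy, rfl⟩ with h | h
    · exact h
    · obtain ⟨v, -, hv1, hv2⟩ := isPreconnected_closed_iff.1 hI _ _ hSc hOc hcov
        ⟨f^[i] x, ⟨x, hxC, rfl⟩, hx i⟩ ⟨f^[i] y, ⟨y, hy, rfl⟩, h⟩
      exact absurd hv2 (Set.disjoint_left.1 hdis hv1)
  apply Subset.antisymm
  · intro y hy
    exact (same_itinerary hx (hit y hy)).symm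
  · rintro y rfl
    exact hxC

theorem uncountable_single :
    ¬ {x : ℂ | x ∈ (Ann.U f s 0)ᶜ ∧ connectedComponentIn (Ann.U f s 0)ᶜ x = {x}}.Countable := by
  intro hcount
  have h4 : Cardinal.mk (ℕ → Bool) = Cardinal.continuum := by
    rw [← Cardinal.power_def, Cardinal.mk_bool, Cardinal.mk_nat, Cardinal.two_power_aleph0]
  choose X hX using itinerary
  have hinj : Function.Injective X := by
    intro a b hab
    funext i
    by_contra hne
    have h1 := hX a i
    have h2 := hX b i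
    rw [hab] at h1
    have hd := Sat_disj i
    cases hai : a i
    · cases hbi : b i
      · exact hne (hai.trans hbi.symm)
      · rw [hai] at h1; rw [hbi] at h2
        exact Set.disjoint_left.1 hd h1 h2
    · cases hbi : b i
      · rw [hai] at h1; rw [hbi] at h2
        exact Set.disjoint_left.1 hd h2 h1
      · exact hne (hai.trans hbi.symm)
  have h1 : (range X).Countable := hcount.mono (by
    rintro _ ⟨a, rfl⟩
    exact single (hX a))
  have h2 : Countable (ℕ → Bool) := by
    have : Countable (range X) := h1.to_subtype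
    exact (rangeFactorization_injective.2 hinj).countable
  have h3 : Cardinal.mk (ℕ → Bool) ≤ Cardinal.aleph0 := Cardinal.mk_le_aleph0_iff.2 h2
  rw [h4] at h3
  exact absurd h3 (not_le.2 Cardinal.aleph0_lt_continuum)

theorem trans : TransEntire f := by
  refine ⟨f_diff, ?_⟩
  rintro ⟨p, hp⟩
  have hp0 : p ≠ 0 := by
    rintro rfl
    have h1 := far_low (n := 0) (z := f^[0] P0) (by
      have h := P0_B.1
      exact h.le) (by
      have h := P0_B.2
      exact h.le)
    rw [hp, Polynomial.eval_zero, norm_zero] at h1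
    have := s_ge (0 + 1)
    have : 0 < s (0 + 1) ^ (0 + 3) := by positivity
    linarith
  have hfin : {z : ℂ | p.eval z = 0}.Finite := Polynomial.finite_setOfPred_isRoot hp0
  have hinj : Function.Injective fun n : ℕ => ((200 * r n : ℝ) : ℂ) := by
    intro a b hab
    have h1 : (200 * r a : ℝ) = 200 * r b := Complex.ofReal_injective hab
    exact seq_r.mono.injective (by linarith)
  exact (Set.infinite_range_of_injective hinj) (hfin.subset (by
    rintro _ ⟨n, rfl⟩
    show p.eval _ = 0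
    rw [← hp]
    exact f_sat n))

end Sing

end Pool.Agent.R237
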